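import Mathlib

/-!
# Numerical contractions: coercive operators are invertible, growth of powers
-/

open Complex Metric Set Filter Topology Polynomial

namespace Pool.Agent.Lib.MP_c3d375_an

variable {H : Type*} [NormedAddCommGroup H] [InnerProductSpace ℂ H]

/-- A bounded operator with `Re ⟨x, S x⟩ ≥ c ‖x‖²`, `c > 0`, is invertible. -/
theorem isUnit_of_coercive [CompleteSpace H] (S : H →L[ℂ] H) (c : ℝ) (hc : 0 < c)
    (h : ∀ x, c * ‖x‖ ^ 2 ≤ (inner ℂ x (S x)).re) : IsUnit S := by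
  rcases subsingleton_or_nontrivial H with hs | hn
  · exact isUnit_of_subsingleton S
  set M : ℝ := ‖S‖ ^ 2 + 1 with hM
  have hMpos : 0 < M := by positivity
  set s : ℝ := c / M with hs
  have hspos : 0 < s := by positivity
  have hcM : c ≤ ‖S‖ := by
    obtain ⟨x, hx⟩ := exists_norm_eq H (zero_le_one : (0 : ℝ) ≤ 1)
    have h1 := h x
    have h2 : (inner ℂ x (S x)).re ≤ ‖x‖ * ‖S x‖ :=
      (Complex.re_le_norm _).trans (norm_inner_le_norm _ _)
    have h3 : ‖S x‖ ≤ ‖S‖ * ‖x‖ := S.le_opNorm x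
    rw [hx] at h1 h2 h3
    linarith
  have key : ∀ x, ‖(1 - (s : ℂ) • S) x‖ ^ 2 ≤ (1 - s * c) * ‖x‖ ^ 2 := by
    intro x
    have e1 : (1 - (s : ℂ) • S) x = x - (s : ℂ) • S x := by simp
    rw [e1, @norm_sub_sq ℂ]
    have e2 : RCLike.re (inner ℂ x ((s : ℂ) • S x)) = s * (inner ℂ x (S x)).re := by
      rw [inner_smul_right]
      simp
    rw [e2, norm_smul]
    have h1 := h x
    have h3 : ‖S x‖ ≤ ‖S‖ * ‖x‖ := S.le_opNorm x
    have h4 : ‖(s : ℂ)‖ = s := by simp [abs_of_pos hspos]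
    rw [h4]
    have h5 : (s * ‖S x‖) ^ 2 ≤ s ^ 2 * (‖S‖ * ‖x‖) ^ 2 := by
      rw [mul_pow]
      gcongr
    have h6 : s * M = c := by rw [hs]; field_simp
    have h7 : s ^ 2 * (‖S‖ * ‖x‖) ^ 2 ≤ s * c * ‖x‖ ^ 2 := by
      have : s ^ 2 * (‖S‖ * ‖x‖) ^ 2 = s * (s * ‖S‖ ^ 2) * ‖x‖ ^ 2 := by ring
      rw [this]
      have h8 : s * ‖S‖ ^ 2 ≤ c := by
        rw [← h6]
        gcongr
        rw [hM]; linarith
      gcongr
    nlinarith [mul_le_mul_of_nonneg_left h1 hspos.le]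
  have hsc : s * c < 1 := by
    have h6 : s * M = c := by rw [hs]; field_simp
    have : s * c * M = c ^ 2 := by rw [mul_right_comm, h6]; ring
    have h9 : c ^ 2 < M := by
      rw [hM]; nlinarith
    by_contra hcon
    push Not at hcon
    nlinarith
  have hnorm : ‖(s : ℂ) • S - 1‖ < 1 := by
    rw [norm_sub_rev]
    have h0 : 0 ≤ 1 - s * c := by linarith
    have : ‖1 - (s : ℂ) • S‖ ≤ Real.sqrt (1 - s * c) := by
      refine ContinuousLinearMap.opNorm_le_bound _ (Real.sqrt_nonneg _) fun x => ?_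
      have := key x
      refine abs_le_of_sq_le_sq' ?_ (by positivity) |>.2
      rw [mul_pow, Real.sq_sqrt h0]
      exact this
    refine this.trans_lt ?_
    rw [Real.sqrt_lt' one_pos]
    nlinarith [mul_pos hspos hc]
  have hu : IsUnit ((s : ℂ) • S) := by
    have := (Units.oneSub (1 - (s : ℂ) • S) (by rwa [norm_sub_rev])).isUnit
    simpa using this
  have hs0 : (s : ℂ) ≠ 0 := by exact_mod_cast hspos.ne'
  have := hu.smul (Units.mk0 (s : ℂ) hs0)⁻¹
  rwa [Units.smul_def, Units.val_inv_eq_inv_val, Units.val_mk0, smul_smul, inv_mul_cancel₀ hs0,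
    one_smul] at this

/-- `w(T) ≤ 1` -/
def NumContr (T : H →L[ℂ] H) : Prop := ∀ x, ‖inner ℂ x (T x)‖ ≤ ‖x‖ ^ 2

theorem NumContr.re_one_sub {T : H →L[ℂ] H} (hT : NumContr T) (z : ℂ) (x : H) :
    (1 - ‖z‖) * ‖x‖ ^ 2 ≤ (inner ℂ x ((1 - z • T) x)).re := by
  have e : inner ℂ x ((1 - z • T) x) = (‖x‖ : ℂ) ^ 2 - z * inner ℂ x (T x) := by
    simp [inner_sub_right]
  rw [e]
  have h1 : (z * inner ℂ x (T x)).re ≤ ‖z‖ * ‖x‖ ^ 2 := by
    refine (Complex.re_le_norm _).trans ?_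
    rw [norm_mul]
    exact mul_le_mul_of_nonneg_left (hT x) (norm_nonneg _)
  have e2 : (((‖x‖ : ℂ)) ^ 2).re = ‖x‖ ^ 2 := by
    rw [← Complex.ofReal_pow, Complex.ofReal_re]
  rw [Complex.sub_re, e2]
  linarith

theorem NumContr.isUnit [CompleteSpace H] {T : H →L[ℂ] H} (hT : NumContr T) {z : ℂ}
    (hz : ‖z‖ < 1) : IsUnit (1 - z • T) :=
  isUnit_of_coercive _ (1 - ‖z‖) (by linarith) (hT.re_one_sub z)

theorem NumContr.smul {T : H →L[ℂ] H} (hT : NumContr T) {z : ℂ} (hz : ‖z‖ ≤ 1) :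
    NumContr (z • T) := by
  intro x
  have : inner ℂ x ((z • T) x) = z * inner ℂ x (T x) := by
    simp
  rw [this, norm_mul]
  calc ‖z‖ * ‖inner ℂ x (T x)‖ ≤ 1 * ‖x‖ ^ 2 := by
        gcongr
        exact hT x
    _ = _ := by ring

theorem NumContr.spectrum_subset [CompleteSpace H] {T : H →L[ℂ] H} (hT : NumContr T) :
    spectrum ℂ T ⊆ closedBall 0 1 := by
  intro z hz
  by_contra hcon
  have hz1 : 1 < ‖z‖ := by
    simpa [mem_closedBall, dist_zero_right] using hcon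
  have hz0 : z ≠ 0 := by
    rintro rfl
    simp at hz1
    linarith
  apply spectrum.mem_iff.1 hz
  have h1 : IsUnit (1 - z⁻¹ • T) := hT.isUnit (by
    rw [norm_inv]
    exact inv_lt_one_of_one_lt₀ hz1)
  have h2 := h1.smul (Units.mk0 z hz0)
  convert h2 using 1
  simp [Units.smul_def, smul_sub, smul_smul, hz0, Algebra.algebraMap_eq_smul_one]

theorem NumContr.growth [CompleteSpace H] {T : H →L[ℂ] H} (hT : NumContr T) {ρ : ℝ}
    (hρ : 1 < ρ) : ∃ C : ℝ, 0 < C ∧ ∀ n, ‖T ^ n‖ ≤ C * ρ ^ n := by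
  have hρ0 : 0 < ρ := by linarith
  have hr : spectralRadius ℂ T < ENNReal.ofReal ρ := by
    refine lt_of_le_of_lt ?_ (ENNReal.one_lt_ofReal.2 hρ)
    refine iSup₂_le fun z hz => ?_
    have := hT.spectrum_subset hz
    simp only [mem_closedBall, dist_zero_right] at this
    exact_mod_cast this
  have h1 := spectrum.pow_norm_pow_one_div_tendsto_nhds_spectralRadius T
  have h2 := (h1.eventually (gt_mem_nhds hr))
  obtain ⟨N, hN⟩ := eventually_atTop.1 h2
  have h3 : ∀ n, N ≤ n → 1 ≤ n → ‖T ^ n‖ ≤ ρ ^ n := by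
    intro n hn hn1
    have := hN n hn
    rw [ENNReal.ofReal_lt_ofReal_iff hρ0] at this
    have h4 : ‖T ^ n‖ = (‖T ^ n‖ ^ (1 / (n : ℝ))) ^ n := by
      rw [← Real.rpow_natCast, ← Real.rpow_mul (norm_nonneg _)]
      rw [one_div, inv_mul_cancel₀ (by positivity), Real.rpow_one]
    rw [h4]
    gcongr
  set K := ∑ n ∈ Finset.range (N + 1), ‖T ^ n‖ with hK
  have hK0 : 0 ≤ K := Finset.sum_nonneg fun _ _ => norm_nonneg _
  refine ⟨K + 1, by linarith, fun n => ?_⟩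
  have hpow : 1 ≤ ρ ^ n := one_le_pow₀ hρ.le
  by_cases hn : n < N + 1
  · have h5 : ‖T ^ n‖ ≤ K :=
      Finset.single_le_sum (f := fun n => ‖T ^ n‖) (fun _ _ => norm_nonneg _)
        (Finset.mem_range.2 hn)
    nlinarith
  · push Not at hn
    have := h3 n (by omega) (by omega)
    nlinarith

end Pool.Agent.Lib.MP_c3d375_an
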