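import Pool.Agent.Lib.MP_c3d375_an.Unique

/-!
# A polynomial in `T` is bounded by its supremum on a neighbourhood of the spectrum
-/

open Complex Metric Set Filter Topology Polynomial

namespace Pool.Agent.Lib.MP_c3d375_an

section quad

variable {a : ℂ → ℂ} {z w : ℂ} {r M : ℝ}

theorem dslope_bound (hr : 0 < r) (ha : DifferentiableOn ℂ a (ball z r))
    (hM : ∀ w ∈ ball z r, ‖a w‖ ≤ M) (hw : w ∈ ball z r) : ‖dslope a z w‖ ≤ 2 * M / r := by
  refine Complex.norm_dslope_le_div_of_mapsTo_ball ha (fun u hu => ?_) hw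
  rw [mem_closedBall, dist_eq_norm]
  refine (norm_sub_le _ _).trans ?_
  have := hM u hu
  have := hM z (mem_ball_self hr)
  linarith

theorem deriv_bound (hr : 0 < r) (ha : DifferentiableOn ℂ a (ball z r))
    (hM : ∀ w ∈ ball z r, ‖a w‖ ≤ M) : ‖deriv a z‖ ≤ 2 * M / r := by
  have := dslope_bound hr ha hM (mem_ball_self hr)
  rwa [dslope_same] at this

theorem quad_bound (hr : 0 < r) (ha : DifferentiableOn ℂ a (ball z r))
    (hM : ∀ w ∈ ball z r, ‖a w‖ ≤ M) (hw : w ∈ ball z r) :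
    ‖a w - a z - (w - z) * deriv a z‖ ≤ (2 * (2 * M / r) / r) * ‖w - z‖ ^ 2 := by
  have h1 : DifferentiableOn ℂ (dslope a z) (ball z r) :=
    (Complex.differentiableOn_dslope (isOpen_ball.mem_nhds (mem_ball_self hr))).2 ha
  have h2 := dslope_bound hr h1 (fun w hw => dslope_bound hr ha hM hw) hw
  have e1 := sub_smul_dslope a z w
  have e2 := sub_smul_dslope (dslope a z) z w
  rw [dslope_same] at e2
  have : a w - a z - (w - z) * deriv a z = (w - z) ^ 2 * dslope (dslope a z) z w := by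
    rw [smul_eq_mul] at e1 e2
    rw [← e1, pow_two, mul_assoc, e2]
    ring
  rw [this, norm_mul, norm_pow, mul_comm]
  gcongr

end quad

theorem exists_ulim {b : ℕ → ℂ} {M : ℝ} (hb : ∀ n, ‖b n‖ ≤ M) :
    ∃ l : ℂ, Tendsto b (hyperfilter ℕ : Filter ℕ) (𝓝 l) := by
  have h := (isCompact_closedBall (0 : ℂ) M).ultrafilter_le_nhds' ((hyperfilter ℕ).map b) (by
    rw [Ultrafilter.mem_map]
    have : b ⁻¹' closedBall 0 M = univ := by
      ext n
      simp [hb n]
    rw [this]
    exact Filter.univ_mem)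
  obtain ⟨x, _, hx⟩ := h
  exact ⟨x, hx⟩

/-- an ultralimit of uniformly bounded holomorphic functions is holomorphic -/
theorem differentiableOn_ulim {a : ℕ → ℂ → ℂ} {G : Set ℂ} (hG : IsOpen G) {M : ℝ}
    (ha : ∀ n, DifferentiableOn ℂ (a n) G) (hM : ∀ n, ∀ z ∈ G, ‖a n z‖ ≤ M) {h : ℂ → ℂ}
    (hh : ∀ z ∈ G, Tendsto (fun n => a n z) (hyperfilter ℕ : Filter ℕ) (𝓝 (h z))) :
    DifferentiableOn ℂ h G := by
  intro z hz
  obtain ⟨r, hr, hball⟩ := Metric.isOpen_iff.1 hG z hz
  have hd : ∀ n, DifferentiableOn ℂ (a n) (ball z r) := fun n => (ha n).mono hball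
  have hb : ∀ n, ∀ w ∈ ball z r, ‖a n w‖ ≤ M := fun n w hw => hM n w (hball hw)
  obtain ⟨d, hdlim⟩ := exists_ulim (b := fun n => deriv (a n) z) (M := 2 * M / r)
    (fun n => deriv_bound hr (hd n) (hb n))
  have key : ∀ w ∈ ball z r, ‖h w - h z - (w - z) * d‖ ≤ (2 * (2 * M / r) / r) * ‖w - z‖ ^ 2 := by
    intro w hw
    refine le_of_tendsto (((hh w (hball hw)).sub (hh z hz)).sub (hdlim.const_mul (w - z))).norm ?_
    exact Eventually.of_forall fun n => quad_bound hr (hd n) (hb n) hw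
  have : HasDerivAt h d z := by
    rw [hasDerivAt_iff_isLittleO]
    have h1 : (fun w => h w - h z - (w - z) • d) =O[𝓝 z] fun w => ‖w - z‖ ^ 2 := by
      refine Asymptotics.IsBigO.of_bound (2 * (2 * M / r) / r) ?_
      filter_upwards [isOpen_ball.mem_nhds (mem_ball_self hr)] with w hw
      rw [smul_eq_mul, Real.norm_eq_abs, abs_of_nonneg (sq_nonneg _)]
      exact key w hw
    refine h1.trans_isLittleO ?_
    rw [Asymptotics.isLittleO_iff]
    intro c hc
    filter_upwards [isOpen_ball.mem_nhds (mem_ball_self hc)] with w hw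
    rw [mem_ball, dist_eq_norm] at hw
    rw [Real.norm_eq_abs, abs_of_nonneg (sq_nonneg _), pow_two]
    gcongr
  exact this.differentiableAt.differentiableWithinAt

variable {𝔸 : Type*} [NormedRing 𝔸] [NormedAlgebra ℂ 𝔸]

theorem no_bad_seq [CompleteSpace 𝔸] [Nontrivial 𝔸] {T : 𝔸} {U : Set ℂ} (hU : IsOpen U)
    (hTU : spectrum ℂ T ⊆ U) {q : ℕ → ℂ[X]} (hq : ∀ n, ∀ z ∈ U, ‖(q n).eval z‖ ≤ 1 / ((n : ℝ) + 1))
    (hE : ∀ n, ‖aeval T (q n)‖ = 1) : False := by
  obtain ⟨G, hG, hTG, hGU, hGc⟩ :=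
    exists_open_between_and_isCompact_closure (spectrum.isCompact T) hU hTU
  have hfr : frontier G ⊆ closure G := frontier_subset_closure
  have hfrc : IsCompact (frontier G) := hGc.of_isClosed_subset isClosed_frontier hfr
  have hfrs : ∀ z ∈ frontier G, z ∉ spectrum ℂ T := by
    intro z hz hzs
    have := hTG hzs
    rw [hG.frontier_eq] at hz
    exact hz.2 this
  have hres : ∀ z, z ∉ spectrum ℂ T → DifferentiableAt ℂ (resolvent T) z := by
    intro z hz
    exact (spectrum.hasDerivAt_resolvent_const_left (spectrum.notMem_iff.1 hz)).differentiableAt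
  have hrc : ContinuousOn (resolvent T) (frontier G) := fun z hz =>
    (hres z (hfrs z hz)).continuousAt.continuousWithinAt
  obtain ⟨K, hK⟩ := hfrc.exists_bound_of_continuousOn hrc
  have hK0 : 0 ≤ max K 0 := le_max_right _ _
  have hK' : ∀ z ∈ frontier G, ‖resolvent T z‖ ≤ max K 0 := fun z hz =>
    (hK z hz).trans (le_max_left _ _)
  have hle1 : ∀ n : ℕ, 1 / ((n : ℝ) + 1) ≤ 1 := fun n => by
    rw [div_le_one (by positivity)]
    have : (0 : ℝ) ≤ n := n.cast_nonneg
    linarith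
  -- the difference quotients are uniformly bounded
  set M₀ : ℝ := max K 0 * (‖(1 : 𝔸)‖ + 1) with hM₀
  have hbd : ∀ n, ∀ z ∈ closure G, ‖dq (q n) T z‖ ≤ M₀ := by
    intro n z hz
    have hd : DiffContOnCl ℂ (fun z => dq (q n) T z) G := (dq_differentiable _ _).diffContOnCl
    refine Complex.norm_le_of_forall_mem_frontier_norm_le
      (hGc.isBounded.subset subset_closure) hd (fun z hz => ?_) hz
    rw [dq_eq_resolvent _ _ (hfrs z hz)]
    refine (norm_mul_le _ _).trans ?_
    rw [hM₀]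
    gcongr
    · exact hK' z hz
    · refine (norm_sub_le _ _).trans ?_
      rw [norm_algebraMap, hE n]
      have h1 := (hq n z (hGU (hfr hz))).trans (hle1 n)
      nlinarith [norm_nonneg (1 : 𝔸)]
  -- dual vectors
  have hdual : ∀ n, ∃ g : StrongDual ℂ 𝔸, ‖g‖ ≤ 1 ∧ g (aeval T (q n)) = 1 := by
    intro n
    obtain ⟨g, hg1, hg2⟩ := exists_dual_vector'' ℂ (aeval T (q n))
    refine ⟨g, hg1, ?_⟩
    rw [hg2, hE n]
    simp
  choose φ hφ1 hφ2 using hdual
  have hφn : ∀ n (r : 𝔸), ‖φ n r‖ ≤ ‖r‖ := by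
    intro n r
    refine ((φ n).le_opNorm r).trans ?_
    calc ‖φ n‖ * ‖r‖ ≤ 1 * ‖r‖ := by gcongr; exact hφ1 n
      _ = _ := one_mul _
  -- ultralimits
  have hΨ : ∀ r : 𝔸, ∃ l, Tendsto (fun n => φ n (r * aeval T (q n))) (hyperfilter ℕ : Filter ℕ)
      (𝓝 l) := by
    intro r
    refine exists_ulim (M := ‖r‖) fun n => (hφn n _).trans ?_
    refine (norm_mul_le _ _).trans ?_
    rw [hE n, mul_one]
  choose Ψ₀ hΨ₀ using hΨ
  have hΨb : ∀ r, ‖Ψ₀ r‖ ≤ 1 * ‖r‖ := by
    intro r
    refine le_of_tendsto (hΨ₀ r).norm (Eventually.of_forall fun n => (hφn n _).trans ?_)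
    refine (norm_mul_le _ _).trans ?_
    rw [hE n, mul_one, one_mul]
  let Ψ : 𝔸 →L[ℂ] ℂ := LinearMap.mkContinuous
    { toFun := Ψ₀
      map_add' := fun r s => by
        refine tendsto_nhds_unique (hΨ₀ (r + s)) (((hΨ₀ r).add (hΨ₀ s)).congr fun n => ?_)
        rw [add_mul, map_add]
      map_smul' := fun c r => by
        refine tendsto_nhds_unique (hΨ₀ (c • r)) (((hΨ₀ r).const_smul c).congr fun n => ?_)
        rw [smul_mul_assoc, map_smul] } 1 hΨb
  have hΨv : ∀ r, Ψ r = Ψ₀ r := fun r => rfl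
  have hΨ1 : Ψ 1 = 1 := by
    rw [hΨv]
    refine tendsto_nhds_unique (hΨ₀ 1) ?_
    simp only [one_mul, hφ2]
    exact tendsto_const_nhds
  have hh : ∀ z ∈ G, ∃ l, Tendsto (fun n => φ n (dq (q n) T z)) (hyperfilter ℕ : Filter ℕ)
      (𝓝 l) := fun z hz =>
    exists_ulim (M := M₀) fun n => (hφn n _).trans (hbd n z (subset_closure hz))
  choose! h hh using hh
  have hhd : DifferentiableOn ℂ h G := by
    refine differentiableOn_ulim hG (a := fun n z => φ n (dq (q n) T z)) (M := M₀) (fun n => ?_)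
      (fun n z hz => (hφn n _).trans (hbd n z (subset_closure hz))) hh
    exact ((φ n).differentiable.comp (dq_differentiable _ _)).differentiableOn
  have h0 : Tendsto (fun n : ℕ => 1 / ((n : ℝ) + 1)) (hyperfilter ℕ : Filter ℕ) (𝓝 0) :=
    tendsto_one_div_add_atTop_nhds_zero_nat.mono_left Nat.hyperfilter_le_atTop
  have hhR : ∀ z ∈ G, z ∉ spectrum ℂ T → h z = - Ψ (resolvent T z) := by
    intro z hz hzs
    refine tendsto_nhds_unique (hh z hz) ?_
    have h1 : Tendsto (fun n => (q n).eval z * φ n (resolvent T z)) (hyperfilter ℕ : Filter ℕ)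
        (𝓝 0) := by
      rw [tendsto_zero_iff_norm_tendsto_zero]
      refine squeeze_zero (fun n => norm_nonneg _) (fun n => ?_)
        (by simpa using h0.mul_const ‖resolvent T z‖)
      rw [norm_mul]
      gcongr
      · simpa using hq n z (hGU (subset_closure hz))
      · exact hφn n _
    have h2 := h1.sub (hΨ₀ (resolvent T z))
    rw [zero_sub] at h2
    refine h2.congr fun n => ?_
    rw [dq_eq_resolvent _ _ hzs, mul_sub, map_sub, Algebra.algebraMap_eq_smul_one,
      mul_smul_comm, mul_one, map_smul, smul_eq_mul]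
  classical
  set F : ℂ → ℂ := fun z => if z ∈ G then h z else - Ψ (resolvent T z) with hF
  have hFd : Differentiable ℂ F := by
    intro z
    by_cases hz : z ∈ G
    · have : F =ᶠ[𝓝 z] h := by
        filter_upwards [hG.mem_nhds hz] with w hw
        simp [hF, hw]
      exact ((hhd z hz).differentiableAt (hG.mem_nhds hz)).congr_of_eventuallyEq this
    · have hzs : z ∉ spectrum ℂ T := fun h => hz (hTG h)
      have : F =ᶠ[𝓝 z] fun z => - Ψ (resolvent T z) := by
        filter_upwards [(spectrum.isClosed T).isOpen_compl.mem_nhds hzs] with w hw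
        by_cases hwG : w ∈ G
        · simp only [hF, hwG, if_true]
          exact hhR w hwG hw
        · simp [hF, hwG]
      refine DifferentiableAt.congr_of_eventuallyEq ?_ this
      exact (Ψ.differentiableAt.comp z (hres z hzs)).neg
  have hR0 : Tendsto (resolvent T) (cocompact ℂ) (𝓝 0) := by
    have := (spectrum.resolvent_tendsto_cobounded (𝕜 := ℂ) T)
    rwa [Metric.cobounded_eq_cocompact] at this
  have hF0 : Tendsto F (cocompact ℂ) (𝓝 0) := by
    have h1 : Tendsto (fun z => - Ψ (resolvent T z)) (cocompact ℂ) (𝓝 0) := by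
      have := ((Ψ.continuous.tendsto 0).comp hR0).neg
      simpa using this
    refine h1.congr' ?_
    have h2 : (closure G)ᶜ ∈ cocompact ℂ := hGc.compl_mem_cocompact
    filter_upwards [h2] with z hz
    have : z ∉ G := fun h => hz (subset_closure h)
    simp [hF, this]
  have hF1 : ∀ z, F z = 0 := fun z => hFd.apply_eq_of_tendsto_cocompact z hF0
  have h2 : Tendsto (fun z => - Ψ (T * resolvent T z)) (cocompact ℂ) (𝓝 0) := by
    have := (((Ψ.continuous.tendsto _).comp (hR0.const_mul T))).neg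
    simpa using this
  have h3 : Tendsto (fun z : ℂ => (1 : ℂ)) (cocompact ℂ) (𝓝 0) := by
    refine h2.congr' ?_
    have h4 : (closure G)ᶜ ∈ cocompact ℂ := hGc.compl_mem_cocompact
    filter_upwards [h4] with z hz
    have hzG : z ∉ G := fun h => hz (subset_closure h)
    have hzs : z ∉ spectrum ℂ T := fun h => hzG (hTG h)
    have h5 : Ψ (resolvent T z) = 0 := by
      have := hF1 z
      simpa only [hF, hzG, if_false, neg_eq_zero] using this
    have h6 : (algebraMap ℂ 𝔸 z - T) * resolvent T z = 1 :=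
      Ring.mul_inverse_cancel _ (spectrum.notMem_iff.1 hzs)
    have h7 : T * resolvent T z = z • resolvent T z - 1 := by
      rw [sub_mul, ← Algebra.smul_def] at h6
      rw [← h6]; abel
    rw [h7, map_sub, map_smul, h5, smul_zero, zero_sub, neg_neg, hΨ1]
  have h4 : (1 : ℂ) = 0 := tendsto_nhds_unique tendsto_const_nhds h3
  exact one_ne_zero h4

/-- A polynomial in `T` is bounded by its supremum over a neighbourhood of the spectrum. -/
theorem exists_bound_open [CompleteSpace 𝔸] [Nontrivial 𝔸] {T : 𝔸} {U : Set ℂ} (hU : IsOpen U)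
    (hTU : spectrum ℂ T ⊆ U) : ∃ C : ℝ, 0 < C ∧ ∀ (q : ℂ[X]) (M : ℝ),
      (∀ z ∈ U, ‖q.eval z‖ ≤ M) → ‖aeval T q‖ ≤ C * M := by
  by_contra hcon
  push Not at hcon
  have h1 : ∀ n : ℕ, ∃ (q : ℂ[X]) (M : ℝ), (∀ z ∈ U, ‖q.eval z‖ ≤ M) ∧
      ((n : ℝ) + 1) * M < ‖aeval T q‖ := fun n => hcon ((n : ℝ) + 1) (by positivity)
  choose q M hq1 hq2 using h1
  obtain ⟨z₀, hz₀⟩ := spectrum.nonempty T
  have hM : ∀ n, 0 ≤ M n := fun n => (norm_nonneg _).trans (hq1 n z₀ (hTU hz₀))
  have he : ∀ n, 0 < ‖aeval T (q n)‖ := fun n =>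
    lt_of_le_of_lt (mul_nonneg (by positivity) (hM n)) (hq2 n)
  refine no_bad_seq hU hTU (q := fun n => C ((‖aeval T (q n)‖ : ℂ)⁻¹) * q n) (fun n z hz => ?_)
    fun n => ?_
  · rw [eval_mul, eval_C, norm_mul, norm_inv, Complex.norm_real, norm_norm,
      inv_mul_le_iff₀ (he n)]
    refine (hq1 n z hz).trans ?_
    rw [mul_one_div, le_div_iff₀ (by positivity)]
    linarith [hq2 n]
  · have : aeval T (C ((‖aeval T (q n)‖ : ℂ)⁻¹) * q n) = ((‖aeval T (q n)‖ : ℂ)⁻¹) • aeval T (q n) := by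
      simp [Algebra.algebraMap_eq_smul_one]
    rw [this, norm_smul, norm_inv, Complex.norm_real, norm_norm, inv_mul_cancel₀ (he n).ne']

end Pool.Agent.Lib.MP_c3d375_an
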