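import Pool.Agent.Lib.MP_c3d375_an.Basic

/-!
# Functional calculus by polynomial approximation
-/

open Complex Metric Set Filter Topology Polynomial

namespace Pool.Agent.Lib.MP_c3d375_an

variable {H : Type*} [NormedAddCommGroup H] [InnerProductSpace ℂ H]

/-- `A = f(T)`, obtained from polynomials converging to `f` uniformly on `U`. -/
def Calc (T : H →L[ℂ] H) (U : Set ℂ) (f : ℂ → ℂ) (A : H →L[ℂ] H) : Prop :=
  ∃ p : ℕ → ℂ[X], TendstoUniformlyOn (fun n z => (p n).eval z) f atTop U ∧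
    Tendsto (fun n => aeval T (p n)) atTop (𝓝 A)

theorem iteratedDeriv_eval (q : ℂ[X]) (k : ℕ) :
    iteratedDeriv k (fun z => q.eval z) = fun z => (derivative^[k] q).eval z := by
  induction k with
  | zero => simp
  | succ k ih =>
    rw [iteratedDeriv_succ, ih, Function.iterate_succ_apply']
    funext z
    exact Polynomial.deriv _

theorem norm_coeff_le (q : ℂ[X]) (k : ℕ) {R M : ℝ} (hR : 0 < R)
    (h : ∀ z ∈ closedBall (0 : ℂ) R, ‖q.eval z‖ ≤ M) : ‖q.coeff k‖ ≤ M / R ^ k := by
  have h1 := Complex.norm_iteratedDeriv_le_of_forall_mem_sphere_norm_le (c := 0) (R := R)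
    (C := M) (f := fun z => q.eval z) k hR (q.differentiable.diffContOnCl)
    (fun z hz => h z (sphere_subset_closedBall hz))
  rw [iteratedDeriv_eval] at h1
  have h2 : (derivative^[k] q).eval 0 = k.factorial * q.coeff k := by
    rw [← coeff_zero_eq_eval_zero, coeff_iterate_derivative]
    simp [Nat.descFactorial_self]
  simp only [h2, norm_mul, Complex.norm_natCast] at h1
  have h3 : (0 : ℝ) < k.factorial := by exact_mod_cast k.factorial_pos
  rw [mul_div_assoc] at h1
  exact le_of_mul_le_mul_left h1 h3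

theorem NumContr.exists_bound [CompleteSpace H] {T : H →L[ℂ] H} (hT : NumContr T) {R : ℝ}
    (hR : 1 < R) : ∃ C : ℝ, 0 < C ∧ ∀ (q : ℂ[X]) (M : ℝ),
      (∀ z ∈ closedBall (0 : ℂ) R, ‖q.eval z‖ ≤ M) → ‖aeval T q‖ ≤ C * M := by
  have hR0 : 0 < R := by linarith
  obtain ⟨ρ, hρ1, hρR⟩ := exists_between hR
  obtain ⟨C, hC, hgr⟩ := hT.growth hρ1
  have hx0 : 0 ≤ ρ / R := by positivity
  have hx1 : ρ / R < 1 := by rw [div_lt_one hR0]; exact hρR
  have hsum := summable_geometric_of_lt_one hx0 hx1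
  have hS : 0 < (1 - ρ / R)⁻¹ := inv_pos.2 (by linarith)
  refine ⟨C * (1 - ρ / R)⁻¹, by positivity, fun q M h => ?_⟩
  have hM : 0 ≤ M := (norm_nonneg _).trans (h 0 (by simp [hR0.le]))
  rw [aeval_eq_sum_range]
  calc ‖∑ i ∈ Finset.range (q.natDegree + 1), q.coeff i • T ^ i‖
      ≤ ∑ i ∈ Finset.range (q.natDegree + 1), ‖q.coeff i • T ^ i‖ := norm_sum_le _ _
    _ ≤ ∑ i ∈ Finset.range (q.natDegree + 1), C * M * (ρ / R) ^ i := by
        refine Finset.sum_le_sum fun i _ => ?_
        rw [norm_smul]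
        calc ‖q.coeff i‖ * ‖T ^ i‖ ≤ (M / R ^ i) * (C * ρ ^ i) := by
              gcongr
              · exact norm_coeff_le q i hR0 h
              · exact hgr i
          _ = C * M * (ρ / R) ^ i := by
              rw [div_pow]; ring
    _ = C * M * ∑ i ∈ Finset.range (q.natDegree + 1), (ρ / R) ^ i := by
        rw [Finset.mul_sum]
    _ ≤ C * M * (1 - ρ / R)⁻¹ := by
        gcongr
        rw [← tsum_geometric_of_lt_one hx0 hx1]
        exact hsum.sum_le_tsum _ (fun i _ => by positivity)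
    _ = _ := by ring

/-- polynomial approximation of a holomorphic function on a smaller closed disc -/
theorem exists_poly_approx {f : ℂ → ℂ} {c : ℂ} {R R' : ℝ} (hR : 0 < R) (hRR' : R < R')
    (hf : DifferentiableOn ℂ f (ball c R')) :
    ∃ p : ℕ → ℂ[X], TendstoUniformlyOn (fun n z => (p n).eval z) f atTop (closedBall c R) := by
  set r₁ : ℝ := (R + R') / 2 with hr₁
  set r₂ : ℝ := (R + r₁) / 2 with hr₂
  have h1 : R < r₂ := by rw [hr₂, hr₁]; linarith
  have h2 : r₂ < r₁ := by rw [hr₂, hr₁]; linarith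
  have h3 : r₁ < R' := by rw [hr₁]; linarith
  have h4 : 0 < r₁ := by linarith
  have h5 : 0 < r₂ := by linarith
  have hf' : DifferentiableOn ℂ f (closedBall c (⟨r₁, h4.le⟩ : NNReal)) :=
    hf.mono (closedBall_subset_ball h3)
  have hps := hf'.hasFPowerSeriesOnBall (show (0 : NNReal) < ⟨r₁, h4.le⟩ from h4)
  set P := cauchyPowerSeries f c ((⟨r₁, h4.le⟩ : NNReal) : ℝ) with hP
  have hu := hps.tendstoUniformlyOn' (r' := ⟨r₂, h5.le⟩) (by
    rw [ENNReal.coe_lt_coe]; exact h2)
  refine ⟨fun n => ∑ k ∈ Finset.range n, C (P.coeff k) * (X - C c) ^ k, ?_⟩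
  have : TendstoUniformlyOn (fun n y => P.partialSum n (y - c)) f atTop (closedBall c R) :=
    hu.mono (closedBall_subset_ball h1)
  convert this using 2 with n
  funext z
  simp only [eval_finsetSum, eval_mul, eval_C, eval_pow, eval_sub, eval_X,
    FormalMultilinearSeries.partialSum]
  refine Finset.sum_congr rfl fun k _ => ?_
  rw [FormalMultilinearSeries.apply_eq_pow_smul_coeff, smul_eq_mul, mul_comm]

namespace Calc

variable {T A B : H →L[ℂ] H} {U : Set ℂ} {f g : ℂ → ℂ}

theorem mono {U' : Set ℂ} (h : Calc T U f A) (hU : U' ⊆ U) : Calc T U' f A := by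
  obtain ⟨p, h1, h2⟩ := h
  exact ⟨p, h1.mono hU, h2⟩

theorem congr (h : Calc T U f A) (hfg : EqOn f g U) : Calc T U g A := by
  obtain ⟨p, h1, h2⟩ := h
  exact ⟨p, h1.congr_right hfg, h2⟩

theorem const (k : ℂ) : Calc T U (fun _ => k) (k • 1) := by
  refine ⟨fun _ => C k, ?_, ?_⟩
  · rw [Metric.tendstoUniformlyOn_iff]
    intro ε hε
    filter_upwards with n z _
    simpa using hε
  · simp [Algebra.algebraMap_eq_smul_one]

theorem add (h : Calc T U f A) (h' : Calc T U g B) : Calc T U (fun z => f z + g z) (A + B) := by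
  obtain ⟨p, h1, h2⟩ := h
  obtain ⟨q, h3, h4⟩ := h'
  refine ⟨fun n => p n + q n, ?_, ?_⟩
  · simpa using! h1.add h3
  · simpa using h2.add h4

theorem smul (k : ℂ) (h : Calc T U f A) : Calc T U (fun z => k * f z) (k • A) := by
  obtain ⟨p, h1, h2⟩ := h
  refine ⟨fun n => C k * p n, ?_, ?_⟩
  · rw [Metric.tendstoUniformlyOn_iff] at h1 ⊢
    intro ε hε
    filter_upwards [h1 (ε / (‖k‖ + 1)) (by positivity)] with n hn z hz
    have := hn z hz
    rw [dist_eq_norm] at this ⊢
    rw [eval_mul, eval_C, ← mul_sub, norm_mul]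
    rw [lt_div_iff₀ (by positivity)] at this
    nlinarith [norm_nonneg (f z - (p n).eval z), norm_nonneg k]
  · have : (fun n => aeval T (C k * p n)) = fun n => k • aeval T (p n) := by
      funext n
      simp [Algebra.algebraMap_eq_smul_one]
    rw [this]
    exact h2.const_smul k

end Calc

end Pool.Agent.Lib.MP_c3d375_an
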