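import Pool.Agent.Lib.MP_c3d375_an.Calc

/-!
# Functional calculus by polynomial approximation: products, bounds, uniqueness
-/

open Complex Metric Set Filter Topology Polynomial

namespace Pool.Agent.Lib.MP_c3d375_an

variable {H : Type*} [NormedAddCommGroup H] [InnerProductSpace ℂ H]

namespace Calc

variable {T A B : H →L[ℂ] H} {U : Set ℂ} {f g : ℂ → ℂ}

theorem continuousOn (h : Calc T U f A) : ContinuousOn f U := by
  obtain ⟨p, h1, h2⟩ := h
  exact h1.continuousOn (Eventually.frequently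
    (Eventually.of_forall fun n => (p n).continuous.continuousOn))

theorem mul (hU : IsCompact U) (h : Calc T U f A) (h' : Calc T U g B) :
    Calc T U (fun z => f z * g z) (A * B) := by
  have hf := h.continuousOn
  have hg := h'.continuousOn
  obtain ⟨p, h1, h2⟩ := h
  obtain ⟨q, h3, h4⟩ := h'
  refine ⟨fun n => p n * q n, ?_, ?_⟩
  · rw [← tendstoLocallyUniformlyOn_iff_tendstoUniformlyOn_of_compact hU]
    have := h1.tendstoLocallyUniformlyOn.mul₀ h3.tendstoLocallyUniformlyOn hf hg
    refine this.congr (fun n => ?_)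
    intro z _
    simp
  · simpa using h2.mul h4

theorem norm_le_of [CompleteSpace H] {R C : ℝ}
    (hC : ∀ (q : ℂ[X]) (M : ℝ), (∀ z ∈ closedBall (0 : ℂ) R, ‖q.eval z‖ ≤ M) →
      ‖aeval T q‖ ≤ C * M) (h : Calc T (closedBall 0 R) f A) {M : ℝ}
    (hM : ∀ z ∈ closedBall (0 : ℂ) R, ‖f z‖ ≤ M) : ‖A‖ ≤ C * M := by
  obtain ⟨p, h1, h2⟩ := h
  have key : ∀ ε : ℝ, 0 < ε → ‖A‖ ≤ C * (M + ε) := by
    intro ε hε
    rw [Metric.tendstoUniformlyOn_iff] at h1
    refine le_of_tendsto h2.norm ?_
    filter_upwards [h1 ε hε] with n hn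
    refine hC _ _ fun z hz => ?_
    have h3 := hn z hz
    rw [dist_comm, dist_eq_norm] at h3
    have h4 := norm_le_norm_add_norm_sub' ((p n).eval z) (f z)
    have := hM z hz
    linarith
  have : Tendsto (fun ε : ℝ => C * (M + ε)) (𝓝[>] 0) (𝓝 (C * (M + 0))) := by
    refine Tendsto.mono_left ?_ nhdsWithin_le_nhds
    exact (continuous_const.mul (continuous_const.add continuous_id)).tendsto 0
  rw [add_zero] at this
  exact ge_of_tendsto this (eventually_nhdsWithin_of_forall fun ε hε => key ε hε)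

end Calc

section exist

variable {T A B : H →L[ℂ] H} {f g : ℂ → ℂ}

theorem NumContr.unique [CompleteSpace H] (hT : NumContr T) {R : ℝ} (hR : 1 < R)
    (h : Calc T (closedBall 0 R) f A) (h' : Calc T (closedBall 0 R) g B)
    (hfg : EqOn f g (closedBall 0 R)) : A = B := by
  obtain ⟨C, hC0, hC⟩ := hT.exists_bound hR
  have h1 : Calc T (closedBall 0 R) (fun z => f z + (-1) * g z) (A + (-1 : ℂ) • B) :=
    h.add (h'.smul (-1))
  have h2 := h1.norm_le_of hC (M := 0) (fun z hz => by simp [hfg hz])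
  rw [mul_zero] at h2
  have h3 : A + (-1 : ℂ) • B = 0 := norm_le_zero_iff.1 h2
  rw [neg_one_smul] at h3
  exact eq_of_sub_eq_zero (by rw [sub_eq_add_neg]; exact h3)

theorem NumContr.exists_calc [CompleteSpace H] (hT : NumContr T) {R R' : ℝ} (hR : 1 < R)
    (hRR' : R < R') (hf : DifferentiableOn ℂ f (ball 0 R')) :
    ∃ A, Calc T (closedBall 0 R) f A := by
  obtain ⟨C, hC0, hC⟩ := hT.exists_bound hR
  obtain ⟨p, hp⟩ := exists_poly_approx (by linarith : 0 < R) hRR' hf
  have hcau : CauchySeq (fun n => aeval T (p n)) := by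
    rw [Metric.cauchySeq_iff]
    intro ε hε
    rw [Metric.tendstoUniformlyOn_iff] at hp
    obtain ⟨N, hN⟩ := eventually_atTop.1 (hp (ε / (4 * C)) (by positivity))
    refine ⟨N, fun m hm n hn => ?_⟩
    rw [dist_eq_norm, ← map_sub]
    have : ‖aeval T (p m - p n)‖ ≤ C * (ε / (2 * C)) := by
      refine hC _ _ fun z hz => ?_
      have h1 := hN m hm z hz
      have h2 := hN n hn z hz
      rw [eval_sub]
      rw [dist_eq_norm] at h1 h2
      calc ‖(p m).eval z - (p n).eval z‖
          = ‖(f z - (p n).eval z) - (f z - (p m).eval z)‖ := by congr 1; ring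
        _ ≤ _ := norm_sub_le _ _
        _ ≤ ε / (4 * C) + ε / (4 * C) := by linarith
        _ = ε / (2 * C) := by field_simp; ring
    refine this.trans_lt ?_
    have : C * (ε / (2 * C)) = ε / 2 := by field_simp
    rw [this]; linarith
  obtain ⟨A, hA⟩ := cauchySeq_tendsto_of_complete hcau
  exact ⟨A, p, hp, hA⟩

end exist

end Pool.Agent.Lib.MP_c3d375_an
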