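import Pool.Agent.Lib.MP_c3d375_an.Harm

/-!
# Caratheodory functions with prescribed large imaginary parts at boundary points
-/

open Complex Metric Set Filter Topology

namespace Pool.Agent.Lib.MP_c3d375_an

/-- the parameter of the Moebius function -/
noncomputable def om (κ : ℝ) (ζ : ℂ) (s : ℝ) : ℂ :=
  (starRingEnd ℂ) ζ * (1 - ((s : ℂ) ^ 2 - (κ * s : ℝ) * I))

/-- Moebius function onto the right half plane -/
noncomputable def mo (w z : ℂ) : ℂ := (1 + w * z) / (1 - w * z)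

theorem norm_om_lt {κ : ℝ} (hκ : κ ^ 2 = 1) {ζ : ℂ} (hζ : ‖ζ‖ = 1) {s : ℝ} (hs : 0 < s)
    (hs1 : s < 1) : ‖om κ ζ s‖ < 1 := by
  rw [om, norm_mul, RCLike.norm_conj, hζ, one_mul, ← sq_lt_one_iff₀ (norm_nonneg _),
    ← Complex.normSq_eq_norm_sq, Complex.normSq_apply]
  have e1 : (1 - ((s : ℂ) ^ 2 - ((κ * s : ℝ) : ℂ) * I)).re = 1 - s ^ 2 := by
    simp [pow_two]
  have e2 : (1 - ((s : ℂ) ^ 2 - ((κ * s : ℝ) : ℂ) * I)).im = κ * s := by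
    simp [pow_two]
  rw [e1, e2]
  have e3 : (κ * s) * (κ * s) = s ^ 2 := by
    rw [show (κ * s) * (κ * s) = κ ^ 2 * s ^ 2 by ring, hκ, one_mul]
  rw [e3]
  have h1 : s ^ 2 < 1 := by nlinarith
  have h2 : 0 < s ^ 2 := by positivity
  nlinarith

theorem one_sub_ne {w z : ℂ} (hw : ‖w‖ < 1) (hz : ‖z‖ ≤ 1) : 1 - w * z ≠ 0 := by
  intro h
  have h1 : w * z = 1 := by linear_combination -h
  have h2 : ‖w * z‖ < 1 := by
    rw [norm_mul]
    nlinarith [norm_nonneg w, norm_nonneg z]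
  rw [h1] at h2
  simp at h2

theorem mo_re_nonneg {w z : ℂ} (hw : ‖w‖ < 1) (hz : ‖z‖ ≤ 1) : 0 ≤ (mo w z).re := by
  have h2 : ‖w * z‖ < 1 := by
    rw [norm_mul]
    nlinarith [norm_nonneg w, norm_nonneg z]
  rw [mo, Complex.div_re, ← add_div]
  refine div_nonneg ?_ (Complex.normSq_nonneg _)
  rw [← sq_lt_one_iff₀ (norm_nonneg _), ← Complex.normSq_eq_norm_sq, Complex.normSq_apply] at h2
  simp only [Complex.add_re, Complex.one_re, Complex.sub_re, Complex.add_im, Complex.one_im,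
    Complex.sub_im]
  nlinarith

theorem mo_diag {κ : ℝ} (hκ : κ ^ 2 = 1) {ζ : ℂ} (hζ : ‖ζ‖ = 1) {s : ℝ} (hs : 0 < s) :
    κ * (mo (om κ ζ s) ζ).im - (mo (om κ ζ s) ζ).re =
      2 / (s * (1 + s ^ 2)) - 2 / (1 + s ^ 2) + 1 := by
  have hcc : (starRingEnd ℂ) ζ * ζ = 1 := by
    rw [mul_comm, Complex.mul_conj, Complex.normSq_eq_norm_sq, hζ]
    simp
  set σ : ℂ := (s : ℂ) ^ 2 - ((κ * s : ℝ) : ℂ) * I with hσ
  have h1 : om κ ζ s * ζ = 1 - σ := by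
    rw [om, mul_right_comm, hcc, one_mul]
  have hσre : σ.re = s ^ 2 := by simp [hσ, pow_two]
  have hσim : σ.im = -(κ * s) := by simp [hσ, pow_two]
  have hns : Complex.normSq σ = s ^ 2 * (1 + s ^ 2) := by
    rw [Complex.normSq_apply, hσre, hσim]
    have : (-(κ * s)) * (-(κ * s)) = s ^ 2 := by
      rw [show (-(κ * s)) * (-(κ * s)) = κ ^ 2 * s ^ 2 by ring, hκ, one_mul]
    rw [this]
    ring
  have hσ0 : σ ≠ 0 := by
    intro h
    rw [h] at hσre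
    exact (pow_ne_zero 2 hs.ne') (by simpa using hσre.symm)
  have h2 : mo (om κ ζ s) ζ = 2 * σ⁻¹ - 1 := by
    rw [mo, h1, show 1 - (1 - σ) = σ by ring, show 1 + (1 - σ) = 2 - σ by ring, sub_div,
      div_self hσ0, div_eq_mul_inv]
  have h3 : (σ⁻¹).re = 1 / (1 + s ^ 2) := by
    rw [Complex.inv_re, hσre, hns]
    field_simp
  have h4 : (σ⁻¹).im = κ / (s * (1 + s ^ 2)) := by
    rw [Complex.inv_im, hσim, hns]
    field_simp
  rw [h2]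
  have e1 : (2 * σ⁻¹ - 1).re = 2 * (σ⁻¹).re - 1 := by simp
  have e2 : (2 * σ⁻¹ - 1).im = 2 * (σ⁻¹).im := by simp
  rw [e1, e2, h3, h4]
  have e3 : κ * (2 * (κ / (s * (1 + s ^ 2)))) = 2 / (s * (1 + s ^ 2)) := by
    rw [show κ * (2 * (κ / (s * (1 + s ^ 2)))) = 2 * κ ^ 2 / (s * (1 + s ^ 2)) by ring, hκ,
      mul_one]
  rw [e3]
  ring

theorem tendsto_mo_diag {κ : ℝ} (hκ : κ ^ 2 = 1) {ζ : ℂ} (hζ : ‖ζ‖ = 1) :
    Tendsto (fun s : ℝ => κ * (mo (om κ ζ s) ζ).im - (mo (om κ ζ s) ζ).re) (𝓝[>] 0) atTop := by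
  have h1 : Tendsto (fun s : ℝ => 2 / (s * (1 + s ^ 2)) - 2 / (1 + s ^ 2) + 1) (𝓝[>] 0) atTop := by
    have h2 : Tendsto (fun s : ℝ => s⁻¹ * (2 / (1 + s ^ 2))) (𝓝[>] 0) atTop := by
      refine Tendsto.atTop_mul_pos (C := 2) (by norm_num) tendsto_inv_nhdsGT_zero ?_
      have hc : Continuous fun s : ℝ => 2 / (1 + s ^ 2) := by
        refine continuous_const.div (by fun_prop) fun s => by positivity
      have := (hc.tendsto 0).mono_left (nhdsWithin_le_nhds (s := Ioi (0 : ℝ)))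
      simpa using this
    have h3 : Tendsto (fun s : ℝ => -(2 / (1 + s ^ 2)) + 1) (𝓝[>] 0) (𝓝 (-2 + 1)) := by
      have hc : Continuous fun s : ℝ => -(2 / (1 + s ^ 2)) + 1 := by
        refine (continuous_const.div (by fun_prop) fun s => by positivity).neg.add continuous_const
      have := (hc.tendsto 0).mono_left (nhdsWithin_le_nhds (s := Ioi (0 : ℝ)))
      simpa using this
    refine (h2.atTop_add h3).congr' ?_
    filter_upwards [self_mem_nhdsWithin] with s hs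
    have hs' : (0 : ℝ) < s := hs
    field_simp
    ring
  refine h1.congr' ?_
  filter_upwards [self_mem_nhdsWithin] with s hs
  rw [mo_diag hκ hζ hs]

theorem tendsto_mo_off {κ κ' : ℝ} {ζ ζ' : ℂ} (hζ : ‖ζ‖ = 1) (hne : ζ' ≠ ζ) :
    Tendsto (fun s : ℝ => κ * (mo (om κ' ζ s) ζ').im - (mo (om κ' ζ s) ζ').re) (𝓝[>] 0)
      (𝓝 (κ * (mo ((starRingEnd ℂ) ζ) ζ').im - (mo ((starRingEnd ℂ) ζ) ζ').re)) := by
  have hcc : ζ * (starRingEnd ℂ) ζ = 1 := by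
    rw [Complex.mul_conj, Complex.normSq_eq_norm_sq, hζ]
    simp
  have hd : 1 - (starRingEnd ℂ) ζ * ζ' ≠ 0 := by
    intro h
    apply hne
    have h1 : (starRingEnd ℂ) ζ * ζ' = 1 := by linear_combination -h
    calc ζ' = (ζ * (starRingEnd ℂ) ζ) * ζ' := by rw [hcc, one_mul]
      _ = ζ * ((starRingEnd ℂ) ζ * ζ') := by ring
      _ = ζ := by rw [h1, mul_one]
  have hom : Tendsto (fun s : ℝ => om κ' ζ s) (𝓝[>] 0) (𝓝 ((starRingEnd ℂ) ζ)) := by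
    have hc : Continuous fun s : ℝ => om κ' ζ s := by unfold om; fun_prop
    have := (hc.tendsto 0).mono_left (nhdsWithin_le_nhds (s := Ioi (0 : ℝ)))
    simpa [om] using this
  have hmo : Tendsto (fun s : ℝ => mo (om κ' ζ s) ζ') (𝓝[>] 0) (𝓝 (mo ((starRingEnd ℂ) ζ) ζ')) := by
    unfold mo
    exact Tendsto.div (tendsto_const_nhds.add (hom.mul_const _))
      (tendsto_const_nhds.sub (hom.mul_const _)) hd
  exact (((Complex.continuous_im.tendsto _).comp hmo).const_mul κ).sub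
    ((Complex.continuous_re.tendsto _).comp hmo)

/-- the Caratheodory function -/
noncomputable def pp (Z : Finset ℂ) (κ : ℂ → ℝ) (s : ℝ) (z : ℂ) : ℂ :=
  ((Z.card + 1 : ℝ)⁻¹ : ℝ) * ∑ ζ ∈ Z, mo (om (κ ζ) ζ s) z

theorem exists_pp (Z : Finset ℂ) (κ : ℂ → ℝ) (hκ : ∀ ζ ∈ Z, κ ζ ^ 2 = 1)
    (hZ : ∀ ζ ∈ Z, ‖ζ‖ = 1) : ∃ s : ℝ, 0 < s ∧ s < 1 ∧
      ∀ ζ ∈ Z, 2 + (pp Z κ s ζ).re < κ ζ * (pp Z κ s ζ).im := by
  have h1 : ∀ ζ ∈ Z, ∀ᶠ s : ℝ in 𝓝[>] 0, 2 + (pp Z κ s ζ).re < κ ζ * (pp Z κ s ζ).im := by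
    intro ζ hζ
    have h2 : Tendsto (fun s : ℝ => (κ ζ * (mo (om (κ ζ) ζ s) ζ).im - (mo (om (κ ζ) ζ s) ζ).re) +
        ∑ ζ' ∈ Z.erase ζ, (κ ζ * (mo (om (κ ζ') ζ' s) ζ).im - (mo (om (κ ζ') ζ' s) ζ).re))
        (𝓝[>] 0) atTop := by
      exact (tendsto_mo_diag (hκ ζ hζ) (hZ ζ hζ)).atTop_add
        (tendsto_finsetSum (a := fun ζ' => κ ζ * (mo ((starRingEnd ℂ) ζ') ζ).im -
          (mo ((starRingEnd ℂ) ζ') ζ).re) _ fun ζ' hζ' =>
          tendsto_mo_off (hZ ζ' (Finset.mem_of_mem_erase hζ')) (Finset.ne_of_mem_erase hζ').symm)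
    filter_upwards [h2.eventually_gt_atTop (2 * (Z.card + 1 : ℝ))] with s hs
    rw [Finset.add_sum_erase Z (fun ζ' => κ ζ * (mo (om (κ ζ') ζ' s) ζ).im -
      (mo (om (κ ζ') ζ' s) ζ).re) hζ] at hs
    have e1 : (pp Z κ s ζ).im = (Z.card + 1 : ℝ)⁻¹ * ∑ ζ' ∈ Z, (mo (om (κ ζ') ζ' s) ζ).im := by
      rw [pp, Complex.im_ofReal_mul, Complex.im_sum]
    have e2 : (pp Z κ s ζ).re = (Z.card + 1 : ℝ)⁻¹ * ∑ ζ' ∈ Z, (mo (om (κ ζ') ζ' s) ζ).re := by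
      rw [pp, Complex.re_ofReal_mul, Complex.re_sum]
    rw [Finset.sum_sub_distrib, ← Finset.mul_sum] at hs
    rw [e1, e2]
    have hc : (0 : ℝ) < Z.card + 1 := by positivity
    set a := ∑ ζ' ∈ Z, (mo (om (κ ζ') ζ' s) ζ).im
    set b := ∑ ζ' ∈ Z, (mo (om (κ ζ') ζ' s) ζ).re
    have h3 : κ ζ * ((Z.card + 1 : ℝ)⁻¹ * a) - (Z.card + 1 : ℝ)⁻¹ * b =
        (Z.card + 1 : ℝ)⁻¹ * (κ ζ * a - b) := by ring
    have h4 : (2 : ℝ) < (Z.card + 1 : ℝ)⁻¹ * (κ ζ * a - b) := by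
      rw [inv_mul_eq_div, lt_div_iff₀ hc]
      exact hs
    linarith
  have h2 : ∀ᶠ s : ℝ in 𝓝[>] 0, ∀ ζ ∈ Z, 2 + (pp Z κ s ζ).re < κ ζ * (pp Z κ s ζ).im :=
    (Z.eventually_all).2 h1
  have h3 : Ioo (0 : ℝ) 1 ∈ 𝓝[>] (0 : ℝ) := Ioo_mem_nhdsGT one_pos
  obtain ⟨s, hs1, hs2⟩ := (h2.and h3).exists
  exact ⟨s, hs2.1, hs2.2, hs1⟩

theorem pp_re_nonneg {Z : Finset ℂ} {κ : ℂ → ℝ} (hκ : ∀ ζ ∈ Z, κ ζ ^ 2 = 1)
    (hZ : ∀ ζ ∈ Z, ‖ζ‖ = 1) {s : ℝ} (hs : 0 < s) (hs1 : s < 1) {z : ℂ} (hz : ‖z‖ ≤ 1) :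
    0 ≤ (pp Z κ s z).re := by
  rw [pp, Complex.re_ofReal_mul, Complex.re_sum]
  exact mul_nonneg (by positivity) (Finset.sum_nonneg fun ζ hζ =>
    mo_re_nonneg (norm_om_lt (hκ ζ hζ) (hZ ζ hζ) hs hs1) hz)

theorem pp_zero (Z : Finset ℂ) (κ : ℂ → ℝ) (s : ℝ) : (pp Z κ s 0).re ≤ 1 := by
  rw [pp, Complex.re_ofReal_mul, Complex.re_sum]
  simp only [mo, mul_zero, add_zero, sub_zero, div_one, Complex.one_re, Finset.sum_const,
    nsmul_eq_mul, mul_one]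
  rw [inv_mul_eq_div, div_le_one (by positivity)]
  linarith

/-- the domain of holomorphy of `pp` -/
def ppDom (Z : Finset ℂ) (κ : ℂ → ℝ) (s : ℝ) : Set ℂ := {z | ∀ ζ ∈ Z, 1 - om (κ ζ) ζ s * z ≠ 0}

theorem isOpen_ppDom (Z : Finset ℂ) (κ : ℂ → ℝ) (s : ℝ) : IsOpen (ppDom Z κ s) := by
  have : ppDom Z κ s = ⋂ ζ ∈ Z, {z | 1 - om (κ ζ) ζ s * z ≠ 0} := by
    ext z; simp [ppDom]
  rw [this]
  exact isOpen_biInter_finset fun ζ _ => isOpen_ne_fun (by fun_prop) continuous_const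

theorem closedBall_subset_ppDom {Z : Finset ℂ} {κ : ℂ → ℝ} (hκ : ∀ ζ ∈ Z, κ ζ ^ 2 = 1)
    (hZ : ∀ ζ ∈ Z, ‖ζ‖ = 1) {s : ℝ} (hs : 0 < s) (hs1 : s < 1) :
    closedBall (0 : ℂ) 1 ⊆ ppDom Z κ s := fun z hz ζ hζ =>
  one_sub_ne (norm_om_lt (hκ ζ hζ) (hZ ζ hζ) hs hs1) (by simpa using hz)

theorem differentiableOn_pp (Z : Finset ℂ) (κ : ℂ → ℝ) (s : ℝ) :
    DifferentiableOn ℂ (pp Z κ s) (ppDom Z κ s) := by
  unfold pp mo
  refine (differentiableOn_const _).mul (DifferentiableOn.fun_sum fun ζ hζ => ?_)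
  exact DifferentiableOn.div (by fun_prop) (by fun_prop) fun z hz => hz ζ hζ

/-- compactness lemma -/
theorem exists_eps {K : Set ℂ} (hK : IsCompact K) {a b : ℂ → ℝ} (ha : ContinuousOn a K)
    (hb : ContinuousOn b K) (ha0 : ∀ z ∈ K, 0 ≤ a z) (hab : ∀ z ∈ K, a z = 0 → 0 < b z) :
    ∃ ε₀ : ℝ, 0 < ε₀ ∧ ∀ ε, 0 ≤ ε → ε ≤ ε₀ → ∀ z ∈ K, 0 ≤ a z + ε * b z := by
  set L := K ∩ b ⁻¹' Iic 0 with hL
  have hLc : IsCompact L := by
    have : IsClosed L := hb.preimage_isClosed_of_isClosed hK.isClosed isClosed_Iic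
    exact hK.of_isClosed_subset this inter_subset_left
  rcases L.eq_empty_or_nonempty with he | hne
  · refine ⟨1, one_pos, fun ε hε _ z hz => ?_⟩
    have h1 : z ∉ L := by rw [he]; exact notMem_empty z
    have h2 : 0 < b z := by
      by_contra hcon
      exact h1 ⟨hz, by simpa using hcon⟩
    have := ha0 z hz
    positivity
  · obtain ⟨z₁, hz₁, hmin⟩ := hLc.exists_isMinOn hne (ha.mono inter_subset_left)
    have hc0 : 0 < a z₁ := by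
      rcases eq_or_lt_of_le (ha0 z₁ hz₁.1) with h | h
      · have := hab z₁ hz₁.1 h.symm
        have h2 := hz₁.2
        simp only [mem_preimage, mem_Iic] at h2
        linarith
      · exact h
    obtain ⟨M, hM⟩ := hK.exists_bound_of_continuousOn hb
    have hM0 : 0 ≤ M := (norm_nonneg _).trans (hM z₁ hz₁.1)
    refine ⟨a z₁ / (M + 1), by positivity, fun ε hε hε1 z hz => ?_⟩
    by_cases hzL : z ∈ L
    · have h1 : a z₁ ≤ a z := hmin hzL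
      have h2 : -M ≤ b z := (abs_le.1 (hM z hz)).1
      have h3 : ε * (M + 1) ≤ a z₁ := by
        rw [le_div_iff₀ (by positivity)] at hε1
        exact hε1
      nlinarith
    · have h2 : 0 < b z := by
        by_contra hcon
        exact hzL ⟨hz, by simpa using hcon⟩
      have := ha0 z hz
      positivity

end Pool.Agent.Lib.MP_c3d375_an
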