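import Pool.Agent.Lib.MP_c3d375_an.Main

/-!
# Closed convex cones as target sets
-/

open Complex Metric Set Filter Topology Polynomial

namespace Pool.Agent.Lib.MP_c3d375_an

/-- real coordinates with respect to `z₁, i z₁` -/
theorem coord {z₁ : ℂ} (z : ℂ) : ((‖z₁‖ ^ 2 : ℝ) : ℂ) * z =
    ((((starRingEnd ℂ) z₁ * z).re : ℝ) : ℂ) * z₁ + ((((starRingEnd ℂ) z₁ * z).im : ℝ) : ℂ) * (I * z₁) := by
  have h1 : z₁ * (starRingEnd ℂ) z₁ = ((‖z₁‖ ^ 2 : ℝ) : ℂ) := by
    rw [Complex.mul_conj, Complex.normSq_eq_norm_sq]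
  have h2 := Complex.re_add_im ((starRingEnd ℂ) z₁ * z)
  calc ((‖z₁‖ ^ 2 : ℝ) : ℂ) * z = z₁ * ((starRingEnd ℂ) z₁ * z) := by rw [← h1]; ring
    _ = z₁ * (((((starRingEnd ℂ) z₁ * z).re : ℝ) : ℂ) +
        ((((starRingEnd ℂ) z₁ * z).im : ℝ) : ℂ) * I) := by rw [h2]
    _ = _ := by ring

section cone

variable {c p : ℂ} {r : ℝ} {C₂ : Set ℂ}

theorem cone_add (hC : Convex ℝ C₂) (hcone : ∀ w ∈ C₂, ∀ s : ℝ, 0 ≤ s → p + s * (w - p) ∈ C₂)
    {z₁ z₂ : ℂ} (h1 : p + z₁ ∈ C₂) (h2 : p + z₂ ∈ C₂) : p + (z₁ + z₂) ∈ C₂ := by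
  have h3 := hC h1 h2 (by norm_num : (0 : ℝ) ≤ 1 / 2) (by norm_num : (0 : ℝ) ≤ 1 / 2) (by norm_num)
  have h4 := hcone _ h3 2 (by norm_num)
  convert h4 using 1
  simp only [Complex.real_smul]
  push_cast
  ring

theorem cone_smul (hcone : ∀ w ∈ C₂, ∀ s : ℝ, 0 ≤ s → p + s * (w - p) ∈ C₂)
    {z₁ : ℂ} (h1 : p + z₁ ∈ C₂) {s : ℝ} (hs : 0 ≤ s) : p + s * z₁ ∈ C₂ := by
  have := hcone _ h1 s hs
  rwa [add_sub_cancel_left] at this

/-- the key geometric step -/
theorem mem_cone_W (hC : Convex ℝ C₂) (hcone : ∀ w ∈ C₂, ∀ s : ℝ, 0 ≤ s → p + s * (w - p) ∈ C₂)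
    {C₁ : Set ℂ} {X e : ℂ} (hX : p + X ∈ W C₁ C₂) (he : p + e ∈ C₂) {a b : ℝ} (ha : 0 ≤ a)
    (hb : 0 ≤ b) (hab : 0 < a + b) : p + (a * X + b * e) ∈ W C₁ C₂ := by
  have h1 := star_W hC hX he (s := a / (a + b)) (t := b / (a + b)) (by positivity) (by positivity)
    (by field_simp)
  have h2 := scale_W hcone h1 (s := a + b) hab.le
  convert h2 using 1
  have h3 : ((a + b : ℝ) : ℂ) ≠ 0 := by exact_mod_cast hab.ne'
  push_cast at h3 ⊢
  field_simp
  ring

theorem convex_W_acute (hr : 0 < r) (hC : Convex ℝ C₂)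
    (hcone : ∀ w ∈ C₂, ∀ s : ℝ, 0 ≤ s → p + s * (w - p) ∈ C₂) {u : ℂ} (hu : ‖u‖ = 1)
    (hue : p + u ∈ C₂) (hre : ∀ z, p + z ∈ C₂ → 0 ≤ ((starRingEnd ℂ) u * z).re)
    (him : ∀ z, p + z ∈ C₂ → 0 ≤ ((starRingEnd ℂ) u * z).im) :
    Convex ℝ (W (closedBall c r) C₂) := by
  have hu0 : u ≠ 0 := by
    rintro rfl
    simp at hu
  have hell : ∀ Z, p + Z ∈ W (closedBall c r) C₂ →
      0 ≤ ((starRingEnd ℂ) u * Z).re + ((starRingEnd ℂ) u * Z).im := by
    intro Z hZ
    rcases W_upper hr hu0 (α := ((starRingEnd ℂ) u * p).re) (β := ((starRingEnd ℂ) u * p).im)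
      (fun a ha => by
        have := hre (a - p) (by rwa [add_sub_cancel])
        rw [mul_sub, Complex.sub_re] at this
        linarith)
      (fun a ha => by
        have := him (a - p) (by rwa [add_sub_cancel])
        rw [mul_sub, Complex.sub_im] at this
        linarith) hZ with h | h
    · rw [mul_add, Complex.add_re, Complex.add_im] at h
      linarith
    · exact add_nonneg (hre Z h) (him Z h)
  have hcoord : ∀ z : ℂ, z = ((((starRingEnd ℂ) u * z).re : ℝ) : ℂ) * u +
      ((((starRingEnd ℂ) u * z).im : ℝ) : ℂ) * (I * u) := by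
    intro z
    have := coord (z₁ := u) z
    rw [hu] at this
    simpa using this
  have hp0 : p + 0 ∈ C₂ := by
    have := cone_smul hcone hue (le_refl (0 : ℝ))
    simpa using this
  rw [convex_iff_forall_pos]
  intro x hx y hy s t hs ht hst
  set X := x - p with hXdef
  set Y := y - p with hYdef
  have hX : p + X ∈ W (closedBall c r) C₂ := by rwa [hXdef, add_sub_cancel]
  have hY : p + Y ∈ W (closedBall c r) C₂ := by rwa [hYdef, add_sub_cancel]
  have hlX := hell X hX
  have hlY := hell Y hY
  set xX := ((starRingEnd ℂ) u * X).re with hxX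
  set yX := ((starRingEnd ℂ) u * X).im with hyX
  set xY := ((starRingEnd ℂ) u * Y).re with hxY
  set yY := ((starRingEnd ℂ) u * Y).im with hyY
  have hgoal : s • x + t • y = p + ((s * xX + t * xY : ℝ) * u + (s * yX + t * yY : ℝ) * (I * u)) := by
    have e1 : x = p + (xX * u + yX * (I * u)) := by
      rw [← hcoord X, hXdef, add_sub_cancel]
    have e2 : y = p + (xY * u + yY * (I * u)) := by
      rw [← hcoord Y, hYdef, add_sub_cancel]
    have e3 : (s : ℂ) + t = 1 := by exact_mod_cast hst
    simp only [Complex.real_smul]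
    calc (s : ℂ) * x + t * y = s * (p + (xX * u + yX * (I * u))) + t * (p + (xY * u + yY * (I * u))) := by
          rw [← e1, ← e2]
      _ = (s + t) * p + ((s * xX + t * xY) * u + (s * yX + t * yY) * (I * u)) := by ring
      _ = _ := by rw [e3]; push_cast; ring
  rw [hgoal]
  -- reduction to a cone
  have key : ∀ {a b : ℝ} {Q : ℂ}, p + Q ∈ W (closedBall c r) C₂ → 0 ≤ a → 0 ≤ b →
      (a * ((starRingEnd ℂ) u * Q).re + b = s * xX + t * xY) →
      (a * ((starRingEnd ℂ) u * Q).im = s * yX + t * yY) →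
      p + ((s * xX + t * xY : ℝ) * u + (s * yX + t * yY : ℝ) * (I * u)) ∈ W (closedBall c r) C₂ := by
    intro a b Q hQ ha hb h1 h2
    rw [← h1, ← h2]
    have h3 : (((a * ((starRingEnd ℂ) u * Q).re + b : ℝ) : ℂ) * u +
        ((a * ((starRingEnd ℂ) u * Q).im : ℝ) : ℂ) * (I * u)) = a * Q + b * u := by
      conv_rhs => rw [hcoord Q]
      push_cast
      ring
    rw [h3]
    rcases eq_or_lt_of_le (add_nonneg ha hb) with h | h
    · have ha0 : a = 0 := by linarith
      have hb0 : b = 0 := by linarith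
      rw [ha0, hb0]
      refine subset_W (mem_closedBall_self hr.le) ?_
      simpa using hp0
    · exact mem_cone_W hC hcone hQ hue ha hb h
  rcases lt_trichotomy (s * yX + t * yY) 0 with hneg | hzero | hpos
  · by_cases hΔ : xY * yX - xX * yY ≤ 0
    · by_cases hyXn : yX < 0
      · -- cone of X
        refine key (a := (s * yX + t * yY) / yX)
          (b := s * xX + t * xY - (s * yX + t * yY) / yX * xX) hX
          (div_nonneg_of_nonpos hneg.le hyXn.le) ?_ (by ring) (div_mul_cancel₀ _ hyXn.ne)
        rw [sub_nonneg, div_mul_eq_mul_div, div_le_iff_of_neg hyXn]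
        nlinarith
      · push Not at hyXn
        have hyYn : yY < 0 := by
          by_contra hcon
          push Not at hcon
          nlinarith [mul_nonneg hs.le hyXn, mul_nonneg ht.le hcon]
        have hΔ2 : 0 ≤ xY * yX - xX * yY := by
          nlinarith [mul_nonneg hyXn (by linarith : (0 : ℝ) ≤ xY + yY),
            mul_nonneg (by linarith : (0 : ℝ) ≤ -yY) (by linarith : (0 : ℝ) ≤ xX + yX)]
        refine key (a := (s * yX + t * yY) / yY)
          (b := s * xX + t * xY - (s * yX + t * yY) / yY * xY) hY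
          (div_nonneg_of_nonpos hneg.le hyYn.le) ?_ (by ring) (div_mul_cancel₀ _ hyYn.ne)
        rw [sub_nonneg, div_mul_eq_mul_div, div_le_iff_of_neg hyYn]
        nlinarith
    · push Not at hΔ
      by_cases hyYn : yY < 0
      · refine key (a := (s * yX + t * yY) / yY)
          (b := s * xX + t * xY - (s * yX + t * yY) / yY * xY) hY
          (div_nonneg_of_nonpos hneg.le hyYn.le) ?_ (by ring) (div_mul_cancel₀ _ hyYn.ne)
        rw [sub_nonneg, div_mul_eq_mul_div, div_le_iff_of_neg hyYn]
        nlinarith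
      · push Not at hyYn
        have hyXn : yX < 0 := by
          by_contra hcon
          push Not at hcon
          nlinarith [mul_nonneg hs.le hcon, mul_nonneg ht.le hyYn]
        exfalso
        nlinarith [mul_nonneg hyYn (by linarith : (0 : ℝ) ≤ xX + yX),
            mul_nonneg (by linarith : (0 : ℝ) ≤ -yX) (by linarith : (0 : ℝ) ≤ xY + yY)]
  · rw [hzero]
    have hx0 : 0 ≤ s * xX + t * xY := by
      nlinarith [mul_nonneg hs.le hlX, mul_nonneg ht.le hlY]
    refine subset_W (mem_closedBall_self hr.le) ?_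
    have := cone_smul hcone hue hx0
    simpa using this
  · by_cases hΔ : 0 ≤ xY * yX - xX * yY
    · by_cases hyXp : 0 < yX
      · refine key (a := (s * yX + t * yY) / yX)
          (b := s * xX + t * xY - (s * yX + t * yY) / yX * xX) hX
          (div_nonneg hpos.le hyXp.le) ?_ (by ring) (div_mul_cancel₀ _ hyXp.ne')
        rw [sub_nonneg, div_mul_eq_mul_div, div_le_iff₀ hyXp]
        nlinarith
      · push Not at hyXp
        have hyYp : 0 < yY := by
          by_contra hcon
          push Not at hcon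
          nlinarith [mul_nonneg hs.le (by linarith : (0 : ℝ) ≤ -yX),
            mul_nonneg ht.le (by linarith : (0 : ℝ) ≤ -yY)]
        have hΔ2 : xY * yX - xX * yY ≤ 0 := by
          nlinarith [mul_nonneg (by linarith : (0 : ℝ) ≤ -yX) (by linarith : (0 : ℝ) ≤ xY + yY),
            mul_nonneg hyYp.le (by linarith : (0 : ℝ) ≤ xX + yX)]
        refine key (a := (s * yX + t * yY) / yY)
          (b := s * xX + t * xY - (s * yX + t * yY) / yY * xY) hY
          (div_nonneg hpos.le hyYp.le) ?_ (by ring) (div_mul_cancel₀ _ hyYp.ne')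
        rw [sub_nonneg, div_mul_eq_mul_div, div_le_iff₀ hyYp]
        nlinarith
    · push Not at hΔ
      by_cases hyYp : 0 < yY
      · refine key (a := (s * yX + t * yY) / yY)
          (b := s * xX + t * xY - (s * yX + t * yY) / yY * xY) hY
          (div_nonneg hpos.le hyYp.le) ?_ (by ring) (div_mul_cancel₀ _ hyYp.ne')
        rw [sub_nonneg, div_mul_eq_mul_div, div_le_iff₀ hyYp]
        nlinarith
      · push Not at hyYp
        have hyXp : 0 < yX := by
          by_contra hcon
          push Not at hcon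
          nlinarith [mul_nonneg hs.le (by linarith : (0 : ℝ) ≤ -yX),
            mul_nonneg ht.le (by linarith : (0 : ℝ) ≤ -yY)]
        exfalso
        nlinarith [mul_nonneg (by linarith : (0 : ℝ) ≤ -yY) (by linarith : (0 : ℝ) ≤ xX + yX),
            mul_nonneg hyXp.le (by linarith : (0 : ℝ) ≤ xY + yY)]

theorem convex_W_cone (hr : 0 < r) (hcl : IsClosed C₂) (hC : Convex ℝ C₂) (hp : p ∈ C₂)
    (hcone : ∀ w ∈ C₂, ∀ s : ℝ, 0 ≤ s → p + s * (w - p) ∈ C₂) :
    Convex ℝ (W (closedBall c r) C₂) := by
  by_cases hA : ∃ z₁ z₂, p + z₁ ∈ C₂ ∧ p + z₂ ∈ C₂ ∧ ((starRingEnd ℂ) z₁ * z₂).re < 0 ∧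
      ((starRingEnd ℂ) z₁ * z₂).im ≠ 0
  · -- the cone contains a quarter plane
    obtain ⟨z₁, z₂, h1, h2, hre, him⟩ := hA
    have hz₁ : z₁ ≠ 0 := by
      rintro rfl
      simp at hre
    have hn : 0 < ‖z₁‖ ^ 2 := by
      have := norm_pos_iff.2 hz₁
      positivity
    set A := ((starRingEnd ℂ) z₁ * z₂).re with hAdef
    set B := ((starRingEnd ℂ) z₁ * z₂).im with hBdef
    have hB : p + (B : ℂ) * (I * z₁) ∈ C₂ := by
      have h3 := cone_add hC hcone (cone_smul hcone h2 hn.le)
        (cone_smul hcone h1 (by linarith : (0 : ℝ) ≤ -A))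
      convert h3 using 2
      rw [coord z₂, ← hAdef, ← hBdef]
      push_cast
      ring
    have hquart : ∃ u : ℂ, u ≠ 0 ∧ ∀ w ∈ C₂, ∀ s t : ℝ, 0 ≤ s → 0 ≤ t →
        w + s * u + t * (I * u) ∈ C₂ := by
      rcases lt_or_gt_of_ne him with hneg | hpos
      · -- `-i z₁` belongs to the cone
        have h4 : p + (-I * z₁) ∈ C₂ := by
          have := cone_smul hcone hB (s := (-B)⁻¹) (inv_nonneg.2 (by linarith))
          convert this using 2
          have : (B : ℂ) ≠ 0 := by exact_mod_cast him
          push_cast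
          field_simp
        refine ⟨-I * z₁, mul_ne_zero (neg_ne_zero.2 I_ne_zero) hz₁, fun w hw s t hs ht => ?_⟩
        have h5 : p + (w - p) ∈ C₂ := by rwa [add_sub_cancel]
        have h6 := cone_add hC hcone (cone_add hC hcone h5 (cone_smul hcone h4 hs))
          (cone_smul hcone h1 ht)
        convert h6 using 1
        have : I * (-I * z₁) = z₁ := by
          rw [show I * (-I * z₁) = -(I * I) * z₁ by ring, I_mul_I]; ring
        rw [this]
        ring
      · have h4 : p + (I * z₁) ∈ C₂ := by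
          have := cone_smul hcone hB (s := B⁻¹) (inv_nonneg.2 hpos.le)
          convert this using 2
          have : (B : ℂ) ≠ 0 := by exact_mod_cast him
          push_cast
          field_simp
        refine ⟨z₁, hz₁, fun w hw s t hs ht => ?_⟩
        have h5 : p + (w - p) ∈ C₂ := by rwa [add_sub_cancel]
        have h6 := cone_add hC hcone (cone_add hC hcone h5 (cone_smul hcone h1 hs))
          (cone_smul hcone h4 ht)
        convert h6 using 1
        ring
    obtain ⟨u, hu, hrec⟩ := hquart
    rw [W_quarter hr hu hrec]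
    exact convex_union hC _
  · push Not at hA
    by_cases hB : ∃ z₁ z₂, p + z₁ ∈ C₂ ∧ p + z₂ ∈ C₂ ∧ ((starRingEnd ℂ) z₁ * z₂).re < 0
    · -- a line
      obtain ⟨z₁, z₂, h1, h2, hre⟩ := hB
      have him := hA z₁ z₂ h1 h2 hre
      have hz₁ : z₁ ≠ 0 := by
        rintro rfl
        simp at hre
      have hn : 0 < ‖z₁‖ ^ 2 := by
        have := norm_pos_iff.2 hz₁
        positivity
      set A := ((starRingEnd ℂ) z₁ * z₂).re with hAdef
      have hAz : p + (A : ℂ) * z₁ ∈ C₂ := by
        have := cone_smul hcone h2 hn.le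
        rw [coord z₂, him, ← hAdef] at this
        simpa using this
      have hline : ∀ z, p + z ∈ C₂ → ((starRingEnd ℂ) z₁ * z).im = 0 := by
        intro z hz
        by_contra hne
        set k : ℝ := (|((starRingEnd ℂ) z₁ * z).re| + 1) / (-A * ‖z₁‖ ^ 2) with hk
        have hk0 : 0 ≤ k := by
          apply div_nonneg (by positivity)
          exact mul_nonneg (by linarith) hn.le
        have h3 := cone_add hC hcone hz (cone_smul hcone hAz hk0)
        have h4 : (starRingEnd ℂ) z₁ * (z + k * (A * z₁)) =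
            (starRingEnd ℂ) z₁ * z + ((k * A * ‖z₁‖ ^ 2 : ℝ) : ℂ) := by
          have : (starRingEnd ℂ) z₁ * z₁ = ((‖z₁‖ ^ 2 : ℝ) : ℂ) := by
            rw [mul_comm, Complex.mul_conj, Complex.normSq_eq_norm_sq]
          calc (starRingEnd ℂ) z₁ * (z + k * (A * z₁)) =
              (starRingEnd ℂ) z₁ * z + k * A * ((starRingEnd ℂ) z₁ * z₁) := by ring
            _ = _ := by rw [this]; push_cast; ring
        have h5 : k * A * ‖z₁‖ ^ 2 = -(|((starRingEnd ℂ) z₁ * z).re| + 1) := by
          rw [hk]
          have hA0 : A ≠ 0 := hre.ne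
          have hn0 : ‖z₁‖ ≠ 0 := (norm_pos_iff.2 hz₁).ne'
          field_simp
        have h6 := hA z₁ _ h1 h3 (by
          rw [h4, Complex.add_re, Complex.ofReal_re, h5]
          linarith [le_abs_self ((starRingEnd ℂ) z₁ * z).re])
        rw [h4, Complex.add_im, Complex.ofReal_im, add_zero] at h6
        exact hne h6
      have hWC : W (closedBall c r) C₂ = C₂ := by
        refine Subset.antisymm (fun w hw => ?_) (subset_W (mem_closedBall_self hr.le))
        have h7 := W_line hr (v := -I * (starRingEnd ℂ) z₁) (p := p) (fun a ha => by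
          have := hline (a - p) (by rwa [add_sub_cancel])
          rw [mul_assoc]
          simpa using this) hw
        have h8 : ((starRingEnd ℂ) z₁ * (w - p)).im = 0 := by
          rw [mul_assoc] at h7
          simpa using h7
        have h9 := coord (z₁ := z₁) (w - p)
        rw [h8] at h9
        set x := ((starRingEnd ℂ) z₁ * (w - p)).re with hx
        have hnc : ((‖z₁‖ ^ 2 : ℝ) : ℂ) ≠ 0 := by exact_mod_cast hn.ne'
        have h10 : w - p = ((x / ‖z₁‖ ^ 2 : ℝ) : ℂ) * z₁ := by
          apply mul_left_cancel₀ hnc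
          have hzn : (‖z₁‖ : ℂ) ≠ 0 := by exact_mod_cast (norm_pos_iff.2 hz₁).ne'
          rw [h9]
          push_cast
          field_simp
          ring
        rcases le_total 0 x with hx0 | hx0
        · have := cone_smul hcone h1 (s := x / ‖z₁‖ ^ 2) (by positivity)
          rw [← h10, add_sub_cancel] at this
          exact this
        · have := cone_smul hcone hAz (s := x / (‖z₁‖ ^ 2 * A))
            (div_nonneg_of_nonpos hx0 (mul_nonpos_of_nonneg_of_nonpos hn.le hre.le))
          have h11 : ((x / (‖z₁‖ ^ 2 * A) : ℝ) : ℂ) * (A * z₁) = w - p := by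
            rw [h10, ← mul_assoc, ← Complex.ofReal_mul]
            congr 2
            have := hre.ne
            field_simp
          rw [h11, add_sub_cancel] at this
          exact this
      rw [hWC]
      exact hC
    · push Not at hB
      by_cases hD : ∃ z₀, p + z₀ ∈ C₂ ∧ z₀ ≠ 0
      · -- acute cone
        obtain ⟨z₀, hz₀, hne₀⟩ := hD
        set K : Set ℂ := (fun z => p + z) ⁻¹' C₂ ∩ sphere 0 1 with hK
        have hKc : IsCompact K :=
          (isCompact_sphere (0 : ℂ) 1).inter_left (hcl.preimage (by fun_prop))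
        have hn₀ : 0 < ‖z₀‖ := norm_pos_iff.2 hne₀
        have hunit : ∀ z, p + z ∈ C₂ → z ≠ 0 → ((‖z‖⁻¹ : ℝ) : ℂ) * z ∈ K := by
          intro z hz hne
          have hn : 0 < ‖z‖ := norm_pos_iff.2 hne
          refine ⟨cone_smul hcone hz (inv_nonneg.2 hn.le), ?_⟩
          rw [mem_sphere, dist_zero_right, norm_mul, Complex.norm_real, Real.norm_eq_abs,
            abs_of_pos (inv_pos.2 hn), inv_mul_cancel₀ hn.ne']
        have hKne : K.Nonempty := ⟨_, hunit z₀ hz₀ hne₀⟩
        obtain ⟨z₁, hz₁K⟩ := hKne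
        obtain ⟨u, huK, humin⟩ := hKc.exists_isMinOn ⟨z₁, hz₁K⟩
          (f := fun z => ((starRingEnd ℂ) z₁ * z).im) (by fun_prop)
        have hz₁n : ‖z₁‖ = 1 := by simpa using hz₁K.2
        have hun : ‖u‖ = 1 := by simpa using huK.2
        have hreall : ∀ z, p + z ∈ C₂ → 0 ≤ ((starRingEnd ℂ) u * z).re := fun z hz =>
          hB u z huK.1 hz
        have himall : ∀ z, p + z ∈ C₂ → 0 ≤ ((starRingEnd ℂ) u * z).im := by
          intro z hz
          by_cases hz0 : z = 0
          · simp [hz0]
          have hn : 0 < ‖z‖ := norm_pos_iff.2 hz0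
          have hzK := hunit z hz hz0
          set y := ((‖z‖⁻¹ : ℝ) : ℂ) * z with hy
          have hyn : ‖y‖ = 1 := by simpa using hzK.2
          have h1 : ((starRingEnd ℂ) z₁ * u).im ≤ ((starRingEnd ℂ) z₁ * y).im := humin hzK
          have h2 : 0 ≤ ((starRingEnd ℂ) z₁ * u).re := hB z₁ u hz₁K.1 huK.1
          have h3 : 0 ≤ ((starRingEnd ℂ) z₁ * y).re := hB z₁ y hz₁K.1 hzK.1
          have h4 : ((starRingEnd ℂ) z₁ * u).re ^ 2 + ((starRingEnd ℂ) z₁ * u).im ^ 2 = 1 := by
            have : ‖(starRingEnd ℂ) z₁ * u‖ ^ 2 = 1 := by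
              rw [norm_mul, RCLike.norm_conj, hz₁n, hun]; norm_num
            rw [← this, ← Complex.normSq_eq_norm_sq, Complex.normSq_apply]; ring
          have h5 : ((starRingEnd ℂ) z₁ * y).re ^ 2 + ((starRingEnd ℂ) z₁ * y).im ^ 2 = 1 := by
            have : ‖(starRingEnd ℂ) z₁ * y‖ ^ 2 = 1 := by
              rw [norm_mul, RCLike.norm_conj, hz₁n, hyn]; norm_num
            rw [← this, ← Complex.normSq_eq_norm_sq, Complex.normSq_apply]; ring
          have h6 : ((starRingEnd ℂ) u * y).im = ((starRingEnd ℂ) z₁ * u).re *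
              ((starRingEnd ℂ) z₁ * y).im - ((starRingEnd ℂ) z₁ * u).im *
              ((starRingEnd ℂ) z₁ * y).re := by
            have h7 : (starRingEnd ℂ) u * y = (starRingEnd ℂ) ((starRingEnd ℂ) z₁ * u) *
                ((starRingEnd ℂ) z₁ * y) := by
              rw [map_mul, Complex.conj_conj]
              have : z₁ * (starRingEnd ℂ) z₁ = 1 := by
                rw [Complex.mul_conj, Complex.normSq_eq_norm_sq, hz₁n]; simp
              calc (starRingEnd ℂ) u * y = (z₁ * (starRingEnd ℂ) z₁) * ((starRingEnd ℂ) u * y) := by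
                    rw [this, one_mul]
                _ = _ := by ring
            rw [h7, Complex.mul_im, Complex.conj_re, Complex.conj_im]
            ring
          set a1 := ((starRingEnd ℂ) z₁ * u).re
          set a2 := ((starRingEnd ℂ) z₁ * u).im
          set b1 := ((starRingEnd ℂ) z₁ * y).re
          set b2 := ((starRingEnd ℂ) z₁ * y).im
          have h8 : 0 ≤ a1 * b2 - a2 * b1 := by
            rcases le_total a2 0 with ha | ha
            · rcases le_total 0 b2 with hb | hb
              · nlinarith [mul_nonneg h2 hb, mul_nonneg h3 (by linarith : (0 : ℝ) ≤ -a2)]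
              · have : a1 ≤ b1 := by
                  refine (sq_le_sq₀ h2 h3).1 ?_
                  nlinarith
                nlinarith [mul_nonneg (by linarith : (0 : ℝ) ≤ -b2) (by linarith : (0 : ℝ) ≤ b1 - a1),
                  mul_nonneg h3 (by linarith : (0 : ℝ) ≤ b2 - a2)]
            · have hb : 0 ≤ b2 := ha.trans h1
              have : b1 ≤ a1 := by
                refine (sq_le_sq₀ h3 h2).1 ?_
                nlinarith
              nlinarith [mul_nonneg ha (by linarith : (0 : ℝ) ≤ a1 - b1),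
                mul_nonneg h2 (by linarith : (0 : ℝ) ≤ b2 - a2)]
          rw [← h6] at h8
          have h9 : (starRingEnd ℂ) u * z = ((‖z‖ : ℝ) : ℂ) * ((starRingEnd ℂ) u * y) := by
            rw [hy]
            have : (‖z‖ : ℂ) ≠ 0 := by exact_mod_cast hn.ne'
            push_cast
            field_simp
          rw [h9, Complex.im_ofReal_mul]
          exact mul_nonneg hn.le h8
        exact convex_W_acute hr hC hcone hun huK.1 hreall himall
      · -- a point
        push Not at hD
        have hpt : ∀ a ∈ C₂, a = p := by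
          intro a ha
          have := hD (a - p) (by rwa [add_sub_cancel])
          exact sub_eq_zero.1 this
        have hWC : W (closedBall c r) C₂ = {p} := by
          refine Subset.antisymm (fun w hw => ?_) ?_
          · have h1 := W_line hr (v := 1) (p := p) (fun a ha => by rw [hpt a ha]; simp) hw
            have h2 := W_line hr (v := -I) (p := p) (fun a ha => by rw [hpt a ha]; simp) hw
            have h3 : w - p = 0 := by
              apply Complex.ext
              · simpa using h1
              · simpa using h2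
            exact sub_eq_zero.1 h3
          · rintro _ rfl
            exact subset_W (mem_closedBall_self hr.le) hp
        rw [hWC]
        exact convex_singleton p

end cone

end Pool.Agent.Lib.MP_c3d375_an
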