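import Pool.Agent.Lib.MP_c3d375_an.Shapes

/-!
# Conclusion for cones and strips
-/

open Complex Metric Set Filter Topology Polynomial

namespace Pool.Agent.Lib.MP_c3d375_an

/-- If `C₂` has empty interior then all admissible functions are constant. -/
theorem W_eq_of_interior_empty {C₁ C₂ : Set ℂ} (hcl : IsClosed C₁) (hconv : Convex ℝ C₁) {c₀ : ℂ}
    (hc₀ : c₀ ∈ interior C₁) (hint : interior C₂ = ∅) : W C₁ C₂ = C₂ := by
  refine Subset.antisymm ?_ (subset_W (interior_subset hc₀))
  rintro w ⟨H, i1, i2, i3, T, f, A, V, hT, hV, hsub, hf, hfC, ⟨p, U, hU, hTU, hp1, hp2⟩, x, hx,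
    rfl⟩
  have hc₁ : c₀ ∈ C₁ := interior_subset hc₀
  have hfa : AnalyticOnNhd ℂ f V := hf.analyticOnNhd hV
  have hconst : ∀ᶠ z in 𝓝 c₀, f z = f c₀ := by
    rcases (hfa c₀ (hsub hc₁)).eventually_constant_or_nhds_le_map_nhds with h | h
    · exact h
    · exfalso
      have h1 : f '' C₁ ∈ map f (𝓝 c₀) := image_mem_map (mem_interior_iff_mem_nhds.1 hc₀)
      have h2 : C₂ ∈ 𝓝 (f c₀) := mem_of_superset (h h1) hfC
      have h3 := mem_interior_iff_mem_nhds.2 h2
      rw [hint] at h3
      exact notMem_empty _ h3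
  set V₀ := connectedComponentIn V c₀ with hV₀
  have hV₀o : IsOpen V₀ := hV.connectedComponentIn
  have hC₁V₀ : C₁ ⊆ V₀ := hconv.isPreconnected.subset_connectedComponentIn hc₁ hsub
  have heq : EqOn f (fun _ => f c₀) V₀ :=
    (hfa.mono (connectedComponentIn_subset V c₀)).eqOn_of_preconnected_of_eventuallyEq
      analyticOnNhd_const isPreconnected_connectedComponentIn (hC₁V₀ hc₁) hconst
  have hA : A = (f c₀) • (1 : H →L[ℂ] H) :=
    Calc.unique ⟨p, hp1, hp2⟩ (Calc.const (U := V₀) (f c₀)) hU hV₀o hTU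
      ((spectrum_subset_of_numRange hcl hconv hT).trans hC₁V₀) fun z hz => heq hz.2
  rw [hA, smul_apply, inner_smul_right, inner_one_apply, hx]
  simpa using hfC ⟨c₀, hc₁, rfl⟩

/-- Convexity of `W(C₁, C₂)` itself when `C₂` is a cone. -/
theorem convex_W_of_cone {C₁ C₂ : Set ℂ} {c₀ : ℂ} (hc₀ : c₀ ∈ C₁)
    (hcc : Convex ℝ (closure (W C₁ C₂))) (hint : interior (closure (W C₁ C₂)) ⊆ W C₁ C₂)
    {k₀ : ℂ} (hk₀ : k₀ ∈ interior C₂) {q : ℂ} (hq : q ∈ C₂)
    (hcone : ∀ w ∈ C₂, ∀ s : ℝ, 0 ≤ s → q + s * (w - q) ∈ C₂) : Convex ℝ (W C₁ C₂) := by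
  rw [convex_iff_forall_pos]
  intro x hx y hy s t hs ht hst
  have hWK : W C₁ C₂ ⊆ closure (W C₁ C₂) := subset_closure
  by_cases hz : s • x + t • y ∈ interior (closure (W C₁ C₂))
  · exact hint hz
  obtain ⟨g, hg⟩ := geometric_hahn_banach_open_point hcc.interior isOpen_interior hz
  have hk : k₀ ∈ interior (closure (W C₁ C₂)) :=
    interior_mono ((subset_W hc₀).trans hWK) hk₀
  have hg' : ∀ a ∈ closure (W C₁ C₂), g a ≤ g (s • x + t • y) := by
    intro a ha
    have h1 : closure (interior (closure (W C₁ C₂))) ⊆ {a | g a ≤ g (s • x + t • y)} :=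
      closure_minimal (fun b hb => (hg b hb).le) (isClosed_le g.continuous continuous_const)
    have h2 : closure (W C₁ C₂) ⊆ closure (interior (closure (W C₁ C₂))) := by
      have := hcc.closure_interior_eq_closure_of_nonempty_interior ⟨k₀, hk⟩
      rw [closure_closure] at this
      exact this.ge
    exact h1 (h2 ha)
  obtain ⟨v, hv⟩ := exists_re_mul g
  have hv0 : v ≠ 0 := by
    rintro rfl
    have := hg k₀ hk
    rw [hv, hv, zero_mul, zero_mul] at this
    exact lt_irrefl _ this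
  have hgx := hg' x (hWK hx)
  have hgy := hg' y (hWK hy)
  have hgz : g (s • x + t • y) = s * g x + t * g y := by
    rw [map_add, map_smul, map_smul, smul_eq_mul, smul_eq_mul]
  have hqW : q ∈ W C₁ C₂ := subset_W hc₀ hq
  have hgq := hg' q (hWK hqW)
  have hx1 : g x = g (s • x + t • y) := by
    refine le_antisymm hgx ?_
    by_contra hcon
    push Not at hcon
    have e1 := mul_lt_mul_of_pos_left hcon hs
    have e2 := mul_le_mul_of_nonneg_left hgy ht.le
    have e3 : s * g (s • x + t • y) + t * g (s • x + t • y) = g (s • x + t • y) := by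
      rw [← add_mul, hst, one_mul]
    linarith
  have hy1 : g y = g (s • x + t • y) := by
    refine le_antisymm hgy ?_
    by_contra hcon
    push Not at hcon
    have e1 := mul_lt_mul_of_pos_left hcon ht
    have e2 := mul_le_mul_of_nonneg_left hgx hs.le
    have e3 : s * g (s • x + t • y) + t * g (s • x + t • y) = g (s • x + t • y) := by
      rw [← add_mul, hst, one_mul]
    linarith
  have hq1 : g q = g (s • x + t • y) := by
    refine le_antisymm hgq ?_
    have h1 := hg' _ (hWK (scale_W hcone hx (zero_le_two : (0 : ℝ) ≤ 2)))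
    have h2 : g (q + ((2 : ℝ) : ℂ) * (x - q)) = g q + 2 * (g x - g q) := by
      rw [← Complex.real_smul, map_add, map_smul, map_sub, smul_eq_mul]
    rw [h2, hx1] at h1
    linarith
  -- coordinates along the supporting line
  have hre : ∀ w, g w = g q → v * (w - q) = ((v * (w - q)).im : ℂ) * I := by
    intro w hw
    rw [hv, hv] at hw
    apply Complex.ext
    · rw [mul_sub, Complex.sub_re, hw]
      simp
    · simp
  have ex := hre x (hx1.trans hq1.symm)
  have ey := hre y (hy1.trans hq1.symm)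
  set ξ : ℝ := (v * (x - q)).im with hξ
  set υ : ℝ := (v * (y - q)).im with hυ
  have hstc : (s : ℂ) + t = 1 := by exact_mod_cast hst
  have ez : v * (s • x + t • y - q) = ((s * ξ + t * υ : ℝ) : ℂ) * I := by
    rw [Complex.real_smul, Complex.real_smul]
    have : v * ((s : ℂ) * x + (t : ℂ) * y - q) = (s : ℂ) * (v * (x - q)) + (t : ℂ) * (v * (y - q)) := by
      linear_combination (v * q) * hstc
    rw [this, ex, ey]
    push_cast
    ring
  set ζ : ℝ := s * ξ + t * υ with hζ
  have key : ∀ (w : ℂ) (ω : ℝ), w ∈ W C₁ C₂ → v * (w - q) = (ω : ℂ) * I → 0 < ζ * ω →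
      s • x + t • y ∈ W C₁ C₂ := by
    intro w ω hw hwω hpos
    have hω : ω ≠ 0 := by
      rintro rfl
      simp at hpos
    have h0 : 0 ≤ ζ / ω := by
      have : ζ / ω = ζ * ω / ω ^ 2 := by field_simp
      rw [this]
      positivity
    have h1 := scale_W hcone hw h0
    have h2 : s • x + t • y = q + ((ζ / ω : ℝ) : ℂ) * (w - q) := by
      have h3 : v * (s • x + t • y - q) = v * (((ζ / ω : ℝ) : ℂ) * (w - q)) := by
        have : v * (((ζ / ω : ℝ) : ℂ) * (w - q)) = ((ζ / ω : ℝ) : ℂ) * (v * (w - q)) := by ring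
        rw [ez, this, hwω, ← mul_assoc, ← Complex.ofReal_mul, div_mul_cancel₀ _ hω]
      have h4 := mul_left_cancel₀ hv0 h3
      rw [← h4]
      ring
    rw [h2]
    exact h1
  by_cases h0 : ζ = 0
  · have : s • x + t • y = q := by
      rw [h0, Complex.ofReal_zero, zero_mul] at ez
      rcases mul_eq_zero.1 ez with h | h
      · exact absurd h hv0
      · exact sub_eq_zero.1 h
    rw [this]
    exact hqW
  · have h1 : 0 < s * (ζ * ξ) + t * (ζ * υ) := by
      have : s * (ζ * ξ) + t * (ζ * υ) = ζ ^ 2 := by rw [hζ]; ring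
      rw [this]
      positivity
    by_cases h2 : 0 < ζ * ξ
    · exact key x ξ hx ex h2
    · by_cases h3 : 0 < ζ * υ
      · exact key y υ hy ey h3
      · exfalso
        push Not at h2 h3
        nlinarith [mul_nonneg hs.le (neg_nonneg.2 h2), mul_nonneg ht.le (neg_nonneg.2 h3)]

/-- The closure of `W(C₁, C₂)` is convex, `W(C₁, C₂)` contains its interior, and `W(C₁, C₂)` is
convex if `C₂` is a cone. -/
theorem conclusion {C₁ C₂ : Set ℂ} (hcl : IsClosed C₁) (hconv : Convex ℝ C₁) {c₀ : ℂ}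
    (hc₀ : c₀ ∈ interior C₁) (hmix : Mixable C₁) (hcl₂ : IsClosed C₂) (hconv₂ : Convex ℝ C₂) :
    Convex ℝ (closure (W C₁ C₂)) ∧ interior (closure (W C₁ C₂)) ⊆ W C₁ C₂ ∧
    (∀ q ∈ C₂, (∀ w ∈ C₂, ∀ s : ℝ, 0 ≤ s → q + s * (w - q) ∈ C₂) → Convex ℝ (W C₁ C₂)) := by
  rcases (interior C₂).eq_empty_or_nonempty with hint | ⟨k₀, hk₀⟩
  · have h := W_eq_of_interior_empty hcl hconv hc₀ hint
    rw [h, hcl₂.closure_eq]
    exact ⟨hconv₂, interior_subset, fun _ _ _ => hconv₂⟩
  · obtain ⟨r, hr, hball⟩ := Metric.isOpen_iff.1 isOpen_interior k₀ hk₀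
    have hk : closedBall k₀ (r / 2) ⊆ C₂ :=
      (closedBall_subset_ball (by linarith)).trans (hball.trans interior_subset)
    have hr2 : 0 < r / 2 := by positivity
    have h1 := convex_closure_W hcl hconv hc₀ hmix hconv₂ hr2 hk
    have h2 := interior_closure_subset_W (C₁ := C₁) hconv₂ hr2 hk
    exact ⟨h1, h2, fun q hq hcone => convex_W_of_cone (interior_subset hc₀) h1 h2 hk₀ hq hcone⟩

theorem strip_closed (c d : ℂ) : IsClosed {z : ℂ | |((z - c) / d).im| ≤ 1} :=
  isClosed_le (by fun_prop) continuous_const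

theorem strip_convex (c d : ℂ) : Convex ℝ {z : ℂ | |((z - c) / d).im| ≤ 1} := by
  intro x hx y hy s t hs ht hst
  simp only [Set.mem_ofPred_eq] at hx hy ⊢
  have hstc : (s : ℂ) + t = 1 := by exact_mod_cast hst
  have e : (s • x + t • y - c) / d = (s : ℂ) * ((x - c) / d) + (t : ℂ) * ((y - c) / d) := by
    rw [Complex.real_smul, Complex.real_smul]
    have : (s : ℂ) * x + (t : ℂ) * y - c = (s : ℂ) * (x - c) + (t : ℂ) * (y - c) := by
      linear_combination c * hstc
    rw [this]
    ring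
  rw [e, Complex.add_im, Complex.im_ofReal_mul, Complex.im_ofReal_mul]
  calc |s * ((x - c) / d).im + t * ((y - c) / d).im|
      ≤ |s * ((x - c) / d).im| + |t * ((y - c) / d).im| := abs_add_le _ _
    _ = s * |((x - c) / d).im| + t * |((y - c) / d).im| := by
        rw [abs_mul, abs_mul, abs_of_nonneg hs, abs_of_nonneg ht]
    _ ≤ s * 1 + t * 1 := by gcongr
    _ = 1 := by linarith

theorem strip_interior (c d : ℂ) : c ∈ interior {z : ℂ | |((z - c) / d).im| ≤ 1} := by
  rw [mem_interior]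
  refine ⟨{z : ℂ | |((z - c) / d).im| < 1}, fun z hz => ?_,
    isOpen_lt (by fun_prop) continuous_const, ?_⟩
  · simp only [Set.mem_ofPred_eq] at hz ⊢
    exact hz.le
  · simp

/-- The case `C₁ = ℂ` (Liouville's theorem). -/
theorem W_univ {C₂ : Set ℂ} (hcl₂ : IsClosed C₂) (hconv₂ : Convex ℝ C₂) : W univ C₂ = C₂ := by
  refine Subset.antisymm ?_ (subset_W (mem_univ (0 : ℂ)))
  by_cases hne : C₂ = univ
  · rw [hne]; exact subset_univ _
  obtain ⟨z₁, hz₁⟩ := (ne_univ_iff_exists_notMem C₂).1 hne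
  obtain ⟨g, u, hg1, hg2⟩ := geometric_hahn_banach_closed_point hconv₂ hcl₂ hz₁
  obtain ⟨v, hv⟩ := exists_re_mul g
  rintro w ⟨H, i1, i2, i3, T, f, A, V, hT, hV, hsub, hf, hfC, ⟨p, U, hU, hTU, hp1, hp2⟩, x, hx,
    rfl⟩
  have hVu : V = univ := univ_subset_iff.1 hsub
  rw [hVu, differentiableOn_univ] at hf
  have hfm : ∀ z, f z ∈ C₂ := fun z => hfC ⟨z, mem_univ z, rfl⟩
  have hv0 : v ≠ 0 := by
    rintro rfl
    have h1 := hg1 _ (hfm 0)
    rw [hv, zero_mul] at h1
    rw [hv, zero_mul] at hg2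
    linarith
  have hconst : ∀ z, f z = f 0 := by
    have hE : Differentiable ℂ fun z => Complex.exp (v * f z) := (hf.const_mul v).cexp
    have hEb : Bornology.IsBounded (range fun z => Complex.exp (v * f z)) := by
      refine isBounded_iff_forall_norm_le.2 ⟨Real.exp u, ?_⟩
      rintro _ ⟨z, rfl⟩
      rw [Complex.norm_exp]
      have := hg1 _ (hfm z)
      rw [hv] at this
      exact Real.exp_le_exp.2 this.le
    have hEc : ∀ z, Complex.exp (v * f z) = Complex.exp (v * f 0) := fun z =>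
      hE.apply_eq_apply_of_bounded hEb z 0
    have hder : ∀ z, deriv f z = 0 := by
      intro z
      have h1 : HasDerivAt (fun z => Complex.exp (v * f z))
          (Complex.exp (v * f z) * (v * deriv f z)) z :=
        ((hf z).hasDerivAt.const_mul v).cexp
      have h2 : HasDerivAt (fun z => Complex.exp (v * f z)) 0 z := by
        have : (fun z => Complex.exp (v * f z)) = fun _ => Complex.exp (v * f 0) := funext hEc
        rw [this]
        exact hasDerivAt_const _ _
      have h3 := h1.unique h2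
      rcases mul_eq_zero.1 h3 with h | h
      · exact absurd h (Complex.exp_ne_zero _)
      · exact (mul_eq_zero.1 h).resolve_left hv0
    intro z
    exact is_const_of_deriv_eq_zero hf hder z 0
  have hA : A = (f 0) • (1 : H →L[ℂ] H) :=
    Calc.unique ⟨p, hp1, hp2⟩ (Calc.const (U := univ) (f 0)) hU isOpen_univ hTU
      (subset_univ _) fun z _ => hconst z
  rw [hA, smul_apply, inner_smul_right, inner_one_apply, hx]
  simpa using hfm 0

end Pool.Agent.Lib.MP_c3d375_an
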