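import Mathlib

/-!
# Holomorphic functions with nonnegative real part on the closed disc
-/

open Complex Metric Set Filter Topology

namespace Pool.Agent.Lib.MP_c3d375_an

variable {V : Set ℂ} {k f : ℂ → ℂ}

theorem diffContOnCl_of (hsub : closedBall (0 : ℂ) 1 ⊆ V) (hk : DifferentiableOn ℂ k V) :
    DiffContOnCl ℂ k (ball 0 1) := by
  refine ⟨hk.mono (ball_subset_closedBall.trans hsub), ?_⟩
  rw [closure_ball _ one_ne_zero]
  exact hk.continuousOn.mono hsub

/-- If `Re k ≥ 0` and `Re k` vanishes at an interior point then `k` is constant. -/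
theorem const_of_re_eq_zero (hsub : closedBall (0 : ℂ) 1 ⊆ V) (hk : DifferentiableOn ℂ k V)
    (hre : ∀ z ∈ closedBall (0 : ℂ) 1, 0 ≤ (k z).re) {z₀ : ℂ} (hz₀ : z₀ ∈ ball (0 : ℂ) 1)
    (h0 : (k z₀).re = 0) : ∀ z ∈ closedBall (0 : ℂ) 1, k z = k z₀ := by
  set c := k z₀ with hc
  have hden : ∀ z ∈ closedBall (0 : ℂ) 1, k z - c + 1 ≠ 0 := by
    intro z hz h
    have h1 := congrArg Complex.re h
    have h2 := hre z hz
    simp only [Complex.add_re, Complex.sub_re, Complex.one_re, Complex.zero_re, h0] at h1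
    linarith
  set g : ℂ → ℂ := fun z => (k z - c - 1) / (k z - c + 1) with hg
  have hgd : DifferentiableOn ℂ g (closedBall 0 1) :=
    ((((hk.mono hsub).sub_const c).sub_const 1)).div (((hk.mono hsub).sub_const c).add_const 1) hden
  have hgd' : DiffContOnCl ℂ g (ball 0 1) := by
    refine ⟨hgd.mono ball_subset_closedBall, ?_⟩
    rw [closure_ball _ one_ne_zero]
    exact hgd.continuousOn
  have hgn : ∀ z ∈ closedBall (0 : ℂ) 1, ‖g z‖ ≤ 1 := by
    intro z hz
    rw [hg, norm_div, div_le_one (norm_pos_iff.2 (hden z hz)),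
      ← sq_le_sq₀ (norm_nonneg _) (norm_nonneg _), ← Complex.normSq_eq_norm_sq,
      ← Complex.normSq_eq_norm_sq]
    simp only [Complex.normSq_apply, Complex.add_re, Complex.sub_re, Complex.add_im,
      Complex.sub_im, Complex.one_re, Complex.one_im, h0]
    have := hre z hz
    nlinarith
  have hg0 : g z₀ = -1 := by
    simp [hg, ← hc]
  have hmax : IsMaxOn (norm ∘ g) (ball 0 1) z₀ := by
    intro z hz
    simp only [Function.comp, mem_ofPred_eq, hg0, norm_neg, norm_one]
    exact hgn z (ball_subset_closedBall hz)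
  have := Complex.eqOn_closure_of_isPreconnected_of_isMaxOn_norm
    (convex_ball (0 : ℂ) 1).isPreconnected isOpen_ball hgd' hz₀ hmax
  rw [closure_ball _ one_ne_zero] at this
  intro z hz
  have h1 := this hz
  simp only [Function.const, hg0] at h1
  simp only [hg] at h1
  rw [div_eq_iff (hden z hz)] at h1
  have : 2 * (k z - c) = 0 := by linear_combination h1
  have h3 := (mul_eq_zero.1 this).resolve_left two_ne_zero
  exact sub_eq_zero.1 h3

/-- Harnack's inequality. -/
theorem harnack (hsub : closedBall (0 : ℂ) 1 ⊆ V) (hk : DifferentiableOn ℂ k V)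
    (hre : ∀ z ∈ closedBall (0 : ℂ) 1, 0 ≤ (k z).re) (h0 : 0 < (k 0).re) {z : ℂ}
    (hz : ‖z‖ < 1) : (1 - ‖z‖) / 2 * (k 0).re ≤ (k z).re := by
  set b := k 0 with hb
  have hden : ∀ z ∈ closedBall (0 : ℂ) 1, k z + (starRingEnd ℂ) b ≠ 0 := by
    intro z hz h
    have h1 := congrArg Complex.re h
    have h2 := hre z hz
    simp only [Complex.add_re, Complex.conj_re, Complex.zero_re] at h1
    linarith
  set g : ℂ → ℂ := fun z => (k z - b) / (k z + (starRingEnd ℂ) b) with hg
  have hgd : DifferentiableOn ℂ g (closedBall 0 1) :=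
    ((hk.mono hsub).sub_const b).div ((hk.mono hsub).add_const _) hden
  have hgn : ∀ z ∈ closedBall (0 : ℂ) 1, ‖g z‖ ≤ 1 := by
    intro z hz
    rw [hg, norm_div, div_le_one (norm_pos_iff.2 (hden z hz)),
      ← sq_le_sq₀ (norm_nonneg _) (norm_nonneg _), ← Complex.normSq_eq_norm_sq,
      ← Complex.normSq_eq_norm_sq]
    simp only [Complex.normSq_apply, Complex.add_re, Complex.sub_re, Complex.add_im,
      Complex.sub_im, Complex.conj_re, Complex.conj_im]
    have := hre z hz
    nlinarith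
  have h1 : ‖g z‖ ≤ ‖z‖ := by
    refine Complex.norm_le_norm_of_mapsTo_ball (R := 1) (hgd.mono ball_subset_closedBall) ?_ ?_ hz
    · intro w hw
      have := hgn w (ball_subset_closedBall hw)
      simpa using this
    · simp [hg, ← hb]
  have hzb : z ∈ closedBall (0 : ℂ) 1 := by simp [hz.le]
  rw [hg, norm_div, div_le_iff₀ (norm_pos_iff.2 (hden z hzb))] at h1
  replace h1 : ‖k z - b‖ ^ 2 ≤ ‖z‖ ^ 2 * ‖k z + (starRingEnd ℂ) b‖ ^ 2 := by
    rw [← mul_pow]
    exact pow_le_pow_left₀ (norm_nonneg _) h1 2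
  rw [← Complex.normSq_eq_norm_sq (k z - b),
    ← Complex.normSq_eq_norm_sq (k z + (starRingEnd ℂ) b)] at h1
  simp only [Complex.normSq_apply, Complex.add_re, Complex.sub_re, Complex.add_im,
    Complex.sub_im, Complex.conj_re, Complex.conj_im] at h1
  have hu := hre z hzb
  set u := (k z).re
  set r := ‖z‖ with hr
  have hr0 : 0 ≤ r := norm_nonneg _
  have h2 : (u - b.re) ^ 2 ≤ (r * (u + b.re)) ^ 2 := by
    have : 0 ≤ (1 - r ^ 2) * ((k z).im - b.im) ^ 2 := by
      refine mul_nonneg ?_ (sq_nonneg _)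
      nlinarith
    nlinarith
  have h3 := (abs_le_of_sq_le_sq' h2 (by positivity)).1
  have h4 : b.re * (1 - r) ≤ u * (1 + r) := by nlinarith
  nlinarith

/-- A function with values in a sector of opening `π / 2` does not vanish on the circle. -/
theorem ne_zero_of_sector (hV : IsOpen V) (hsub : closedBall (0 : ℂ) 1 ⊆ V)
    (hf : DifferentiableOn ℂ f V)
    (hsec : ∀ z ∈ closedBall (0 : ℂ) 1, |(f z).im| ≤ (f z).re) (h0 : f 0 ≠ 0) :
    ∀ z ∈ closedBall (0 : ℂ) 1, f z ≠ 0 := by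
  have h0b : (0 : ℂ) ∈ ball (0 : ℂ) 1 := by simp
  have h0c : (0 : ℂ) ∈ closedBall (0 : ℂ) 1 := by simp
  have hh : DifferentiableOn ℂ (fun z => f z ^ 2) V := hf.pow 2
  have hhre : ∀ z ∈ closedBall (0 : ℂ) 1, 0 ≤ (f z ^ 2).re := by
    intro z hz
    have h := hsec z hz
    rw [pow_two, Complex.mul_re]
    have h1 : (f z).im ^ 2 ≤ (f z).re ^ 2 := by
      rw [sq_le_sq]
      exact h.trans (le_abs_self _)
    nlinarith
  intro ζ hζ hfζ
  rcases eq_or_lt_of_le (hhre 0 h0c) with hz | hpos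
  · have h1 := const_of_re_eq_zero hsub hh hhre h0b hz.symm ζ hζ
    simp only [hfζ] at h1
    have h2 : f 0 ^ 2 = 0 := by rw [← h1]; ring
    exact h0 (pow_eq_zero_iff two_ne_zero |>.1 h2)
  · have hζ1 : ‖ζ‖ = 1 := by
      by_contra hne
      have hlt : ‖ζ‖ < 1 := lt_of_le_of_ne (by simpa using hζ) hne
      have := harnack hsub hh hhre hpos hlt
      simp only [hfζ] at this
      have h2 : 0 < (1 - ‖ζ‖) / 2 * (f 0 ^ 2).re := mul_pos (by linarith) hpos
      simp at this
      linarith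
    have hd : DifferentiableAt ℂ f ζ := (hf ζ (hsub hζ)).differentiableAt (hV.mem_nhds (hsub hζ))
    obtain ⟨C, hC⟩ := hd.isBigO_sub.bound
    have hten : Tendsto (fun r : ℝ => (r : ℂ) * ζ) (𝓝[<] 1) (𝓝 ζ) := by
      have hc : Continuous fun r : ℝ => (r : ℂ) * ζ := by fun_prop
      have := (hc.tendsto 1).mono_left (nhdsWithin_le_nhds (s := Iio (1 : ℝ)))
      simpa using this
    have h3 := hten.eventually hC
    have h4 : Ioo (0 : ℝ) 1 ∈ 𝓝[<] (1 : ℝ) := Ioo_mem_nhdsLT one_pos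
    have h5 : ∀ᶠ r : ℝ in 𝓝[<] 1, (f 0 ^ 2).re / 2 ≤ C ^ 2 * (1 - r) := by
      filter_upwards [h3, h4] with r hr hr01
      have e1 : ‖(r : ℂ) * ζ‖ = r := by
        rw [norm_mul, hζ1, mul_one]; simp [abs_of_pos hr01.1]
      have e2 : ‖(r : ℂ) * ζ - ζ‖ = 1 - r := by
        rw [show (r : ℂ) * ζ - ζ = -(((1 - r : ℝ) : ℂ) * ζ) by push_cast; ring, norm_neg,
          norm_mul, hζ1, mul_one, Complex.norm_real, Real.norm_eq_abs,
          abs_of_pos (by linarith [hr01.2])]
      rw [hfζ, sub_zero, e2] at hr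
      have h6 := harnack hsub hh hhre hpos (z := (r : ℂ) * ζ) (by rw [e1]; exact hr01.2)
      rw [e1] at h6
      have h7 : (f ((r : ℂ) * ζ) ^ 2).re ≤ (C * (1 - r)) ^ 2 := by
        refine (Complex.re_le_norm _).trans ?_
        rw [norm_pow]
        exact pow_le_pow_left₀ (norm_nonneg _) hr 2
      have h8 : 0 < 1 - r := by linarith [hr01.2]
      have h9 : (1 - r) * ((f 0 ^ 2).re / 2) ≤ (1 - r) * (C ^ 2 * (1 - r)) := by
        nlinarith
      exact le_of_mul_le_mul_left h9 h8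
    have h6 : Tendsto (fun r : ℝ => C ^ 2 * (1 - r)) (𝓝[<] 1) (𝓝 0) := by
      have hc : Continuous fun r : ℝ => C ^ 2 * (1 - r) := by fun_prop
      have := (hc.tendsto 1).mono_left (nhdsWithin_le_nhds (s := Iio (1 : ℝ)))
      simpa using this
    have h7 := ge_of_tendsto h6 h5
    linarith

/-- The real part of a nonconstant function with `Re k ≥ 0` has finitely many zeros on the
closed disc, all on the circle. -/
theorem finite_zeros (hV : IsOpen V) (hsub : closedBall (0 : ℂ) 1 ⊆ V)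
    (hk : DifferentiableOn ℂ k V)
    (hre : ∀ z ∈ closedBall (0 : ℂ) 1, 0 ≤ (k z).re) (h0 : 0 < (k 0).re) :
    {z | z ∈ closedBall (0 : ℂ) 1 ∧ (k z).re = 0}.Finite ∧
      ∀ z ∈ closedBall (0 : ℂ) 1, (k z).re = 0 → ‖z‖ = 1 := by
  have hone : ∀ z ∈ closedBall (0 : ℂ) 1, (k z).re = 0 → ‖z‖ = 1 := by
    intro z hz hkz
    by_contra hne
    have hlt : ‖z‖ < 1 := lt_of_le_of_ne (by simpa using hz) hne
    have := harnack hsub hk hre h0 hlt
    rw [hkz] at this
    have h2 : 0 < (1 - ‖z‖) / 2 * (k 0).re := mul_pos (by linarith) h0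
    linarith
  refine ⟨?_, hone⟩
  by_contra hinf
  have hinf : {z | z ∈ closedBall (0 : ℂ) 1 ∧ (k z).re = 0}.Infinite := hinf
  set ψ : ℝ → ℝ := fun θ => (k (exp (θ * I))).re with hψ
  have hmem : ∀ θ : ℝ, exp (θ * I) ∈ closedBall (0 : ℂ) 1 := fun θ => by
    simp [Complex.norm_exp_ofReal_mul_I]
  have hψa : AnalyticOnNhd ℝ ψ univ := by
    intro θ _
    have h1 : AnalyticAt ℂ k (exp (θ * I)) := hk.analyticAt (hV.mem_nhds (hsub (hmem θ)))
    have h2 : AnalyticAt ℝ (fun θ : ℝ => exp (θ * I)) θ := by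
      have h3 : AnalyticAt ℂ (fun z : ℂ => exp (z * I)) (θ : ℂ) := by fun_prop
      have h4 : AnalyticAt ℝ (fun θ : ℝ => (θ : ℂ)) θ := Complex.ofRealCLM.analyticAt θ
      exact AnalyticAt.comp (g := fun z : ℂ => exp (z * I)) (f := fun θ : ℝ => (θ : ℂ)) (x := θ)
        (h3.restrictScalars (𝕜 := ℝ)) h4
    have h5 : AnalyticAt ℝ (fun θ : ℝ => k (exp (θ * I))) θ :=
      AnalyticAt.comp (g := k) (f := fun θ : ℝ => exp (θ * I)) (x := θ)
        (h1.restrictScalars (𝕜 := ℝ)) h2
    exact (Complex.reCLM.analyticAt _).comp h5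
  have hΘ : {θ : ℝ | θ ∈ Icc 0 (2 * Real.pi) ∧ ψ θ = 0}.Infinite := by
    intro hfin
    apply hinf
    refine (hfin.image fun θ : ℝ => exp (θ * I)).subset ?_
    rintro z ⟨hz, hkz⟩
    have hz1 := hone z hz hkz
    have : z = exp ((Complex.arg z : ℂ) * I) := by
      have := Complex.norm_mul_exp_arg_mul_I z
      rw [hz1] at this
      simpa using this.symm
    by_cases harg : 0 ≤ Complex.arg z
    · refine ⟨Complex.arg z, ⟨⟨harg, ?_⟩, ?_⟩, this.symm⟩
      · linarith [Complex.arg_le_pi z, Real.pi_pos]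
      · simp only [hψ, ← this, hkz]
    · push Not at harg
      have h6 : exp (((Complex.arg z + 2 * Real.pi : ℝ) : ℂ) * I) = z := by
        rw [show (((Complex.arg z + 2 * Real.pi : ℝ) : ℂ) * I) =
          (Complex.arg z : ℂ) * I + 2 * Real.pi * I by push_cast; ring, Complex.exp_periodic]
        exact this.symm
      refine ⟨Complex.arg z + 2 * Real.pi, ⟨⟨?_, ?_⟩, ?_⟩, h6⟩
      · linarith [Complex.neg_pi_lt_arg z, Real.pi_pos]
      · linarith
      · simp only [hψ, h6, hkz]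
  obtain ⟨θ₀, _, hacc⟩ := hΘ.exists_accPt_of_subset_isCompact isCompact_Icc
    (fun θ hθ => hθ.1)
  have hfreq : ∃ᶠ θ in 𝓝[≠] θ₀, ψ θ = 0 := by
    rw [accPt_iff_frequently_nhdsNE] at hacc
    exact hacc.mono fun θ hθ => hθ.2
  have hzero := hψa.eqOn_zero_of_preconnected_of_frequently_eq_zero isPreconnected_univ
    (mem_univ θ₀) hfreq
  have hcirc : ∀ z ∈ sphere (0 : ℂ) 1, (k z).re = 0 := by
    intro z hz
    have hz1 : ‖z‖ = 1 := by simpa using hz
    have : z = exp ((Complex.arg z : ℂ) * I) := by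
      have := Complex.norm_mul_exp_arg_mul_I z
      rw [hz1] at this
      simpa using this.symm
    have h7 := hzero (mem_univ (Complex.arg z))
    simp only [hψ, ← this, Pi.zero_apply] at h7
    exact h7
  have hd : DiffContOnCl ℂ (fun z => exp (k z)) (ball 0 1) := by
    have := diffContOnCl_of hsub (k := fun z => exp (k z)) hk.cexp
    exact this
  have h8 := Complex.norm_le_of_forall_mem_frontier_norm_le (f := fun z => exp (k z))
    isBounded_ball hd (C := 1) (fun z hz => by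
      rw [frontier_ball _ one_ne_zero] at hz
      rw [Complex.norm_exp, hcirc z hz, Real.exp_zero]) (z := 0)
      (subset_closure (by simp))
  rw [Complex.norm_exp, Real.exp_le_one_iff] at h8
  linarith

end Pool.Agent.Lib.MP_c3d375_an
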