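import Pool.Agent.Lib.MP_c3d375_an.Calc2

/-!
# The Berger-Kato inequality

If `w(T) ≤ 1` and `Re f ≥ 0` on the closed unit disc, then `Re f(T) ≥ - Re f(0)`.
-/

open Complex Metric Set Filter Topology Polynomial MeasureTheory

namespace Pool.Agent.Lib.MP_c3d375_an

variable {H : Type*} [NormedAddCommGroup H] [InnerProductSpace ℂ H]

/-- `exp(k i θ)` -/
noncomputable def ee (k : ℤ) (θ : ℝ) : ℂ := exp ((k : ℂ) * θ * I)

theorem ee_zero (θ : ℝ) : ee 0 θ = 1 := by simp [ee]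

theorem ee_add (k l : ℤ) (θ : ℝ) : ee (k + l) θ = ee k θ * ee l θ := by
  rw [ee, ee, ee, ← exp_add]; congr 1; push_cast; ring

theorem norm_ee (k : ℤ) (θ : ℝ) : ‖ee k θ‖ = 1 := by
  rw [ee, show (k : ℂ) * θ * I = ((k * θ : ℝ) : ℂ) * I by push_cast; ring]
  exact norm_exp_ofReal_mul_I _

theorem continuous_ee (k : ℤ) : Continuous (ee k) := by
  unfold ee; fun_prop

theorem conj_ee (k : ℤ) (θ : ℝ) : (starRingEnd ℂ) (ee k θ) = ee (-k) θ := by
  rw [ee, ee, ← exp_conj]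
  congr 1
  simp

theorem ee_natCast (k : ℕ) (θ : ℝ) : ee k θ = ee 1 θ ^ k := by
  rw [ee, ee, ← exp_nat_mul]
  congr 1
  push_cast
  ring

theorem integral_ee (k : ℤ) :
    ∫ θ in (0 : ℝ)..2 * Real.pi, ee k θ = if k = 0 then (2 * Real.pi : ℂ) else 0 := by
  split_ifs with hk
  · subst hk
    simp [ee_zero]
  · have hk0 : (k : ℂ) * I ≠ 0 := mul_ne_zero (by exact_mod_cast hk) I_ne_zero
    have h1 : ∀ θ : ℝ, ee k θ = exp ((k : ℂ) * I * θ) := by
      intro θ
      rw [ee]; congr 1; ring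
    simp_rw [h1]
    rw [integral_exp_mul_complex hk0]
    have h2 : exp ((k : ℂ) * I * ((2 * Real.pi : ℝ) : ℂ)) = 1 := by
      rw [show (k : ℂ) * I * ((2 * Real.pi : ℝ) : ℂ) = k * (2 * Real.pi * I) by push_cast; ring]
      exact exp_int_mul_two_pi_mul_I k
    rw [h2]
    simp

/-- truncated resolvent vector -/
noncomputable def vv (S : H →L[ℂ] H) (y : H) (N : ℕ) (θ : ℝ) : H :=
  ∑ m ∈ Finset.range N, ee (-(m : ℤ)) θ • (S ^ m) y

theorem vv_eq (S : H →L[ℂ] H) (y : H) (N : ℕ) (θ : ℝ) :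
    (1 - ee (-1) θ • S) (vv S y N θ) = y - ee (-(N : ℤ)) θ • (S ^ N) y := by
  induction N with
  | zero => simp [vv, ee_zero]
  | succ N ih =>
    have h1 : vv S y (N + 1) θ = vv S y N θ + ee (-(N : ℤ)) θ • (S ^ N) y := by
      rw [vv, Finset.sum_range_succ, ← vv]
    rw [h1, map_add, ih]
    have h2 : ee (-((N + 1 : ℕ) : ℤ)) θ = ee (-1) θ * ee (-(N : ℤ)) θ := by
      rw [← ee_add]; congr 1; push_cast; ring
    rw [h2]
    have h3 : (S ^ (N + 1)) y = S ((S ^ N) y) := by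
      rw [pow_succ']; rfl
    rw [h3]
    have h4 : (1 - ee (-1) θ • S) (ee (-(N : ℤ)) θ • (S ^ N) y) =
        ee (-(N : ℤ)) θ • (S ^ N) y - (ee (-1) θ * ee (-(N : ℤ)) θ) • S ((S ^ N) y) := by
      have h5 : ∀ u : H, (1 - ee (-1) θ • S) u = u - ee (-1) θ • S u := fun u => rfl
      rw [h5, map_smul, smul_smul]
    rw [h4]
    abel

theorem norm_vv_le (S : H →L[ℂ] H) (y : H) (N : ℕ) (θ : ℝ) :
    ‖vv S y N θ‖ ≤ ∑ m ∈ Finset.range N, ‖(S ^ m) y‖ := by
  refine (norm_sum_le _ _).trans (Finset.sum_le_sum fun m _ => ?_)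
  rw [norm_smul, norm_ee, one_mul]

/-- the scalar function `∑ e(mθ) ⟨S^m y, y⟩` -/
noncomputable def GG (S : H →L[ℂ] H) (y : H) (N : ℕ) (θ : ℝ) : ℂ :=
  ∑ m ∈ Finset.range N, ee m θ * inner ℂ ((S ^ m) y) y

theorem inner_vv (S : H →L[ℂ] H) (y : H) (N : ℕ) (θ : ℝ) :
    inner ℂ (vv S y N θ) y = GG S y N θ := by
  rw [vv, GG, sum_inner]
  refine Finset.sum_congr rfl fun m _ => ?_
  rw [inner_smul_left, conj_ee, neg_neg]

theorem re_GG_ge {S : H →L[ℂ] H} (hS : NumContr S) (y : H) (N : ℕ) (θ : ℝ) :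
    -((∑ m ∈ Finset.range N, ‖(S ^ m) y‖) * ‖(S ^ N) y‖) ≤ (GG S y N θ).re := by
  have h1 := hS.re_one_sub (ee (-1) θ) (vv S y N θ)
  rw [norm_ee, sub_self, zero_mul, vv_eq, inner_sub_right, Complex.sub_re, inner_vv,
    inner_smul_right] at h1
  have h2 : -(ee (-(N : ℤ)) θ * inner ℂ (vv S y N θ) ((S ^ N) y)).re
      ≤ (∑ m ∈ Finset.range N, ‖(S ^ m) y‖) * ‖(S ^ N) y‖ := by
    refine (neg_le_abs _).trans ((Complex.abs_re_le_norm _).trans ?_)
    rw [norm_mul, norm_ee, one_mul]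
    refine (norm_inner_le_norm _ _).trans ?_
    gcongr
    exact norm_vv_le S y N θ
  linarith

/-- evaluation on the circle -/
theorem eval_ee (q : ℂ[X]) (θ : ℝ) {N : ℕ} (hN : q.natDegree < N) :
    q.eval (ee 1 θ) = ∑ k ∈ Finset.range N, q.coeff k * ee k θ := by
  rw [eval_eq_sum_range' hN]
  refine Finset.sum_congr rfl fun k _ => ?_
  rw [← ee_natCast]

theorem integral_sum_sum (a : ℕ → ℕ → ℂ) (κ : ℕ → ℕ → ℤ) (N : ℕ) :
    ∫ θ in (0 : ℝ)..2 * Real.pi,
      ∑ k ∈ Finset.range N, ∑ m ∈ Finset.range N, a k m * ee (κ k m) θ =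
    ∑ k ∈ Finset.range N, ∑ m ∈ Finset.range N,
      a k m * (if κ k m = 0 then (2 * Real.pi : ℂ) else 0) := by
  have hc : ∀ k m, Continuous fun θ => a k m * ee (κ k m) θ := fun k m =>
    continuous_const.mul (continuous_ee _)
  have hc2 : ∀ k, Continuous fun θ => ∑ m ∈ Finset.range N, a k m * ee (κ k m) θ := fun k =>
    continuous_finsetSum _ fun m _ => hc k m
  rw [intervalIntegral.integral_finsetSum (fun k _ => (hc2 k).intervalIntegrable _ _)]
  refine Finset.sum_congr rfl fun k _ => ?_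
  rw [intervalIntegral.integral_finsetSum (fun m _ => (hc k m).intervalIntegrable _ _)]
  refine Finset.sum_congr rfl fun m _ => ?_
  rw [intervalIntegral.integral_const_mul, integral_ee]

theorem integral_main (q : ℂ[X]) (S : H →L[ℂ] H) (y : H) {N : ℕ} (hN : q.natDegree < N) :
    ∫ θ in (0 : ℝ)..2 * Real.pi,
      (q.eval (ee 1 θ) + (starRingEnd ℂ) (q.eval (ee 1 θ))) * GG S y N θ =
    2 * Real.pi * (q.coeff 0 * inner ℂ y y +
      ∑ k ∈ Finset.range N, (starRingEnd ℂ) (q.coeff k) * inner ℂ ((S ^ k) y) y) := by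
  have hN0 : 0 < N := by omega
  have h1 : ∀ θ : ℝ, (q.eval (ee 1 θ) + (starRingEnd ℂ) (q.eval (ee 1 θ))) * GG S y N θ =
      (∑ k ∈ Finset.range N, ∑ m ∈ Finset.range N,
        (q.coeff k * inner ℂ ((S ^ m) y) y) * ee (k + m) θ) +
      ∑ k ∈ Finset.range N, ∑ m ∈ Finset.range N,
        ((starRingEnd ℂ) (q.coeff k) * inner ℂ ((S ^ m) y) y) * ee (m - k) θ := by
    intro θ
    rw [add_mul, eval_ee q θ hN, GG, map_sum, Finset.sum_mul_sum, Finset.sum_mul_sum]
    congr 1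
    · refine Finset.sum_congr rfl fun k _ => Finset.sum_congr rfl fun m _ => ?_
      rw [ee_add]; ring
    · refine Finset.sum_congr rfl fun k _ => Finset.sum_congr rfl fun m _ => ?_
      rw [map_mul, conj_ee, sub_eq_add_neg, ee_add]; ring
  simp_rw [h1]
  rw [intervalIntegral.integral_add, integral_sum_sum, integral_sum_sum]
  rotate_left
  · exact (continuous_finsetSum _ fun k _ => continuous_finsetSum _ fun m _ =>
      continuous_const.mul (continuous_ee _)).intervalIntegrable _ _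
  · exact (continuous_finsetSum _ fun k _ => continuous_finsetSum _ fun m _ =>
      continuous_const.mul (continuous_ee _)).intervalIntegrable _ _
  have e1 : ∀ k : ℕ, ∑ m ∈ Finset.range N,
      (q.coeff k * inner ℂ ((S ^ m) y) y) * (if (k : ℤ) + m = 0 then (2 * Real.pi : ℂ) else 0) =
      if k = 0 then 2 * Real.pi * (q.coeff 0 * inner ℂ y y) else 0 := by
    intro k
    split_ifs with hk
    · subst hk
      rw [Finset.sum_eq_single_of_mem 0 (Finset.mem_range.2 hN0)]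
      · simp; ring
      · intro m _ hm
        simp [hm]
    · refine Finset.sum_eq_zero fun m _ => ?_
      rw [if_neg (by omega), mul_zero]
  have e2 : ∀ k ∈ Finset.range N, ∑ m ∈ Finset.range N,
      ((starRingEnd ℂ) (q.coeff k) * inner ℂ ((S ^ m) y) y) *
        (if (m : ℤ) - k = 0 then (2 * Real.pi : ℂ) else 0) =
      2 * Real.pi * ((starRingEnd ℂ) (q.coeff k) * inner ℂ ((S ^ k) y) y) := by
    intro k hk
    rw [Finset.sum_eq_single_of_mem k hk]
    · simp; ring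
    · intro m _ hm
      rw [if_neg (by omega), mul_zero]
  rw [Finset.sum_congr rfl e2]
  simp_rw [e1]
  rw [Finset.sum_ite_eq' (Finset.range N) 0 (fun _ => 2 * Real.pi * (q.coeff 0 * inner ℂ y y)),
    if_pos (Finset.mem_range.2 hN0), ← Finset.mul_sum]
  ring

end Pool.Agent.Lib.MP_c3d375_an
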