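import Pool.Agent.Lib.MP_c3d375_an.Kato

/-!
# The Berger-Kato inequality, conclusion
-/

open Complex Metric Set Filter Topology Polynomial MeasureTheory

namespace Pool.Agent.Lib.MP_c3d375_an

variable {H : Type*} [NormedAddCommGroup H] [InnerProductSpace ℂ H]

theorem inner_self_eq (y : H) : inner ℂ y y = ((‖y‖ ^ 2 : ℝ) : ℂ) := by
  rw [inner_self_eq_norm_sq_to_K]
  push_cast
  rfl

theorem kato_poly_aux {S : H →L[ℂ] H} (hS : NumContr S) (y : H) (q : ℂ[X])
    (hq : ∀ z : ℂ, ‖z‖ = 1 → 0 ≤ (q.eval z).re)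
    (hlim : Tendsto (fun N => (∑ m ∈ Finset.range N, ‖(S ^ m) y‖) * ‖(S ^ N) y‖) atTop (𝓝 0)) :
    -((q.eval 0).re * ‖y‖ ^ 2) ≤ (inner ℂ y (aeval S q y)).re := by
  obtain ⟨W, hW⟩ := (isCompact_sphere (0 : ℂ) 1).exists_bound_of_continuousOn
    (f := fun z => q.eval z) q.continuous.continuousOn
  have hW' : ∀ θ : ℝ, (q.eval (ee 1 θ)).re ≤ W := fun θ =>
    (Complex.re_le_norm _).trans (hW _ (by simp [norm_ee]))
  have hw0 : ∀ θ : ℝ, 0 ≤ (q.eval (ee 1 θ)).re := fun θ => hq _ (norm_ee _ _)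
  have hW0 : 0 ≤ W := (hw0 0).trans (hW' 0)
  have key : ∀ N, q.natDegree < N → -(2 * W * ((∑ m ∈ Finset.range N, ‖(S ^ m) y‖) * ‖(S ^ N) y‖))
      ≤ (q.eval 0).re * ‖y‖ ^ 2 + (inner ℂ y (aeval S q y)).re := by
    intro N hN
    set ε := (∑ m ∈ Finset.range N, ‖(S ^ m) y‖) * ‖(S ^ N) y‖ with hε
    have hε0 : 0 ≤ ε := mul_nonneg (Finset.sum_nonneg fun _ _ => norm_nonneg _) (norm_nonneg _)
    have hmain := integral_main q S y hN
    have hqc : Continuous fun θ : ℝ => q.eval (ee 1 θ) := q.continuous.comp (continuous_ee 1)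
    have hGc : Continuous fun θ : ℝ => GG S y N θ := by
      unfold GG
      exact continuous_finsetSum _ fun m _ => (continuous_ee _).mul continuous_const
    have hre : (∫ θ in (0 : ℝ)..2 * Real.pi,
        (q.eval (ee 1 θ) + (starRingEnd ℂ) (q.eval (ee 1 θ))) * GG S y N θ).re =
        ∫ θ in (0 : ℝ)..2 * Real.pi, 2 * (q.eval (ee 1 θ)).re * (GG S y N θ).re := by
      have h1 := Complex.reCLM.intervalIntegral_comp_comm (a := 0) (b := 2 * Real.pi)
        (μ := volume) (f := fun θ : ℝ => (q.eval (ee 1 θ) + (starRingEnd ℂ) (q.eval (ee 1 θ))) *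
          GG S y N θ) (((hqc.add (continuous_conj.comp hqc)).mul hGc).intervalIntegrable _ _)
      simp only [Complex.reCLM_apply] at h1
      rw [← h1]
      refine intervalIntegral.integral_congr fun θ _ => ?_
      simp only [Complex.add_conj]
      rw [Complex.re_ofReal_mul]
    have hge : -(2 * Real.pi * (2 * W * ε)) ≤
        ∫ θ in (0 : ℝ)..2 * Real.pi, 2 * (q.eval (ee 1 θ)).re * (GG S y N θ).re := by
      have h2 : ∫ θ in (0 : ℝ)..2 * Real.pi, (-(2 * W * ε) : ℝ) = -(2 * Real.pi * (2 * W * ε)) := by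
        rw [intervalIntegral.integral_const]
        simp
      rw [← h2]
      refine intervalIntegral.integral_mono_on (by positivity) (by simp) ?_ fun θ _ => ?_
      · exact ((continuous_const.mul (Complex.continuous_re.comp hqc)).mul
          (Complex.continuous_re.comp hGc)).intervalIntegrable _ _
      · have h3 := re_GG_ge hS y N θ
        rw [← hε] at h3
        have h4 := hw0 θ
        have h5 := hW' θ
        nlinarith
    rw [← hre, hmain] at hge
    have h6 : (∑ k ∈ Finset.range N, (starRingEnd ℂ) (q.coeff k) * inner ℂ ((S ^ k) y) y) =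
        (starRingEnd ℂ) (inner ℂ y (aeval S q y)) := by
      rw [aeval_eq_sum_range' hN, sum_apply, inner_sum, map_sum]
      refine Finset.sum_congr rfl fun k _ => ?_
      rw [smul_apply, inner_smul_right, map_mul, inner_conj_symm]
    rw [h6] at hge
    have h7 : (2 * Real.pi * (q.coeff 0 * inner ℂ y y + (starRingEnd ℂ)
        (inner ℂ y (aeval S q y))) : ℂ).re =
        2 * Real.pi * ((q.eval 0).re * ‖y‖ ^ 2 + (inner ℂ y (aeval S q y)).re) := by
      rw [show (2 * Real.pi : ℂ) = ((2 * Real.pi : ℝ) : ℂ) by push_cast; ring,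
        Complex.re_ofReal_mul, Complex.add_re, Complex.conj_re, inner_self_eq,
        coeff_zero_eq_eval_zero, Complex.re_mul_ofReal]
    rw [h7] at hge
    have hpi := Real.pi_pos
    have h8 : 2 * Real.pi * (-(2 * W * ε)) ≤
        2 * Real.pi * ((q.eval 0).re * ‖y‖ ^ 2 + (inner ℂ y (aeval S q y)).re) := by linarith
    exact le_of_mul_le_mul_left h8 (by positivity)
  have hlim2 : Tendsto (fun N => -(2 * W * ((∑ m ∈ Finset.range N, ‖(S ^ m) y‖) * ‖(S ^ N) y‖)))
      atTop (𝓝 0) := by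
    simpa using (hlim.const_mul (2 * W)).neg
  have := le_of_tendsto hlim2 (by
    filter_upwards [eventually_gt_atTop q.natDegree] with N hN
    exact key N hN)
  linarith

theorem kato_poly [CompleteSpace H] {T : H →L[ℂ] H} (hT : NumContr T) (y : H) (q : ℂ[X])
    (hq : ∀ z : ℂ, ‖z‖ = 1 → 0 ≤ (q.eval z).re) :
    -((q.eval 0).re * ‖y‖ ^ 2) ≤ (inner ℂ y (aeval T q y)).re := by
  have key : ∀ r : ℝ, 0 < r → r < 1 →
      -((q.eval 0).re * ‖y‖ ^ 2) ≤ (inner ℂ y (aeval ((r : ℂ) • T) q y)).re := by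
    intro r hr0 hr1
    refine kato_poly_aux (hT.smul (by simp [abs_of_pos hr0, hr1.le])) y q hq ?_
    have h1 : 1 < 1 / r := by rw [lt_div_iff₀ hr0]; linarith
    obtain ⟨ρ, hρ1, hρ2⟩ := exists_between h1
    obtain ⟨C, hC, hgr⟩ := hT.growth hρ1
    have hρ0 : 0 < ρ := by linarith
    set s := r * ρ with hs
    have hs0 : 0 ≤ s := by positivity
    have hs1 : s < 1 := by
      rw [hs]
      rw [lt_div_iff₀ hr0] at hρ2
      linarith
    have hb : ∀ m, ‖(((r : ℂ) • T) ^ m) y‖ ≤ C * ‖y‖ * s ^ m := by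
      intro m
      rw [_root_.smul_pow, smul_apply, norm_smul]
      have h2 : ‖((r : ℂ)) ^ m‖ = r ^ m := by
        rw [norm_pow]; simp [abs_of_pos hr0]
      rw [h2]
      calc r ^ m * ‖(T ^ m) y‖ ≤ r ^ m * ((C * ρ ^ m) * ‖y‖) := by
            gcongr
            exact ((T ^ m).le_opNorm y).trans (by gcongr; exact hgr m)
        _ = _ := by rw [hs, mul_pow]; ring
    have hsum := summable_geometric_of_lt_one hs0 hs1
    have hbound : ∀ N, (∑ m ∈ Finset.range N, ‖(((r : ℂ) • T) ^ m) y‖) ≤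
        C * ‖y‖ * ∑' m, s ^ m := by
      intro N
      calc _ ≤ ∑ m ∈ Finset.range N, C * ‖y‖ * s ^ m := Finset.sum_le_sum fun m _ => hb m
        _ = C * ‖y‖ * ∑ m ∈ Finset.range N, s ^ m := by rw [Finset.mul_sum]
        _ ≤ _ := by
          gcongr
          exact hsum.sum_le_tsum _ (fun i _ => by positivity)
    have hz : Tendsto (fun N => (C * ‖y‖ * ∑' m, s ^ m) * (C * ‖y‖ * s ^ N)) atTop (𝓝 0) := by
      have := (tendsto_pow_atTop_nhds_zero_of_lt_one hs0 hs1)
      simpa using (this.const_mul (C * ‖y‖)).const_mul (C * ‖y‖ * ∑' m, s ^ m)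
    refine squeeze_zero (fun N => mul_nonneg (Finset.sum_nonneg fun _ _ => norm_nonneg _)
      (norm_nonneg _)) (fun N => ?_) hz
    exact mul_le_mul (hbound N) (hb N) (norm_nonneg _)
      (mul_nonneg (by positivity) (tsum_nonneg fun _ => by positivity))
  have hcont : Continuous fun r : ℝ => (inner ℂ y (aeval ((r : ℂ) • T) q y)).re := by
    have h1 : Continuous fun r : ℝ => aeval ((r : ℂ) • T) q :=
      q.continuous_aeval.comp (by fun_prop)
    have h2 : Continuous fun r : ℝ => (aeval ((r : ℂ) • T) q) y := by fun_prop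
    exact Complex.continuous_re.comp (continuous_const.inner h2)
  have ht : Tendsto (fun r : ℝ => (inner ℂ y (aeval ((r : ℂ) • T) q y)).re) (𝓝[<] 1)
      (𝓝 (inner ℂ y (aeval T q y)).re) := by
    have := (hcont.tendsto 1).mono_left (nhdsWithin_le_nhds (s := Iio (1 : ℝ)))
    simpa using this
  refine ge_of_tendsto ht ?_
  have : Ioo (0 : ℝ) 1 ∈ 𝓝[<] (1 : ℝ) := Ioo_mem_nhdsLT one_pos
  filter_upwards [this] with r hr
  exact key r hr.1 hr.2

theorem kato [CompleteSpace H] {T A : H →L[ℂ] H} (hT : NumContr T) {U : Set ℂ}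
    (hU : closedBall 0 1 ⊆ U) {f : ℂ → ℂ}
    (h : Calc T U f A) (hre : ∀ z ∈ closedBall (0 : ℂ) 1, 0 ≤ (f z).re) (y : H) :
    -((f 0).re * ‖y‖ ^ 2) ≤ (inner ℂ y (A y)).re := by
  obtain ⟨p, h1, h2⟩ := h
  have key : ∀ ε : ℝ, 0 < ε → -(((f 0).re + 3 * ε) * ‖y‖ ^ 2) ≤ (inner ℂ y (A y)).re := by
    intro ε hε
    rw [Metric.tendstoUniformlyOn_iff] at h1
    have h3 : Tendsto (fun n => (inner ℂ y (aeval T (p n) y)).re) atTop
        (𝓝 (inner ℂ y (A y)).re) := by
      have h4 : Tendsto (fun n => (aeval T (p n)) y) atTop (𝓝 (A y)) :=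
        (ContinuousLinearMap.apply ℂ H y).continuous.tendsto A |>.comp h2
      exact (Complex.continuous_re.tendsto _).comp (tendsto_const_nhds.inner h4)
    refine ge_of_tendsto h3 ?_
    filter_upwards [h1 ε hε] with n hn
    have h5 := kato_poly hT y (p n + C (ε : ℂ)) (fun z hz => by
      have hz' : z ∈ closedBall (0 : ℂ) 1 := by simp [hz]
      have h6 := hn z (hU hz')
      rw [dist_eq_norm] at h6
      have h7 := (Complex.abs_re_le_norm (f z - (p n).eval z)).trans h6.le
      rw [Complex.sub_re, abs_le] at h7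
      have h8 := hre z hz'
      simp only [eval_add, eval_C, Complex.add_re, Complex.ofReal_re]
      linarith [h7.2])
    have h9 : aeval T (p n + C (ε : ℂ)) y = aeval T (p n) y + (ε : ℂ) • y := by
      simp [Algebra.algebraMap_eq_smul_one]
    rw [h9, inner_add_right, inner_smul_right, inner_self_eq] at h5
    simp only [eval_add, eval_C, Complex.add_re, Complex.ofReal_re, Complex.re_ofReal_mul] at h5
    have h11 := hn 0 (hU (by simp))
    rw [dist_eq_norm] at h11
    have h12 := (Complex.abs_re_le_norm (f 0 - (p n).eval 0)).trans h11.le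
    rw [Complex.sub_re, abs_le] at h12
    have h13 : 0 ≤ ‖y‖ ^ 2 := by positivity
    have h14 : ((p n).eval 0).re ≤ (f 0).re + ε := by linarith [h12.1]
    have h15 : (((p n).eval 0).re + ε) * ‖y‖ ^ 2 ≤ ((f 0).re + 2 * ε) * ‖y‖ ^ 2 :=
      mul_le_mul_of_nonneg_right (by linarith) h13
    nlinarith
  have hlim : Tendsto (fun ε : ℝ => -(((f 0).re + 3 * ε) * ‖y‖ ^ 2)) (𝓝[>] 0)
      (𝓝 (-((f 0).re * ‖y‖ ^ 2))) := by
    have hc : Continuous fun ε : ℝ => -(((f 0).re + 3 * ε) * ‖y‖ ^ 2) := by fun_prop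
    have := (hc.tendsto 0).mono_left (nhdsWithin_le_nhds (s := Ioi (0 : ℝ)))
    simpa using this
  exact le_of_tendsto hlim (eventually_nhdsWithin_of_forall fun ε hε => key ε hε)

end Pool.Agent.Lib.MP_c3d375_an
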