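import Pool.Agent.Lib.MP_c3d375_an.Sets

/-!
# Points of `W(D, C₂)` obtained from Jordan blocks
-/

open Complex Metric Set Filter Topology Polynomial

namespace Pool.Agent.Lib.MP_c3d375_an

abbrev E2 := EuclideanSpace ℂ (Fin 2)

/-- the linear map `(x₀, x₁) ↦ (2 x₁, 0)` -/
noncomputable def Jmat : Matrix (Fin 2) (Fin 2) ℂ := !![0, 2; 0, 0]

noncomputable def J : E2 →L[ℂ] E2 := Matrix.toEuclideanCLM (𝕜 := ℂ) Jmat

theorem J_apply_zero (x : E2) : (J x) 0 = 2 * x 1 := by
  have := congrFun (Matrix.ofLp_toEuclideanCLM (𝕜 := ℂ) Jmat x) 0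
  rw [J, this]
  simp [Jmat, Matrix.mulVec, dotProduct, Fin.sum_univ_two]

theorem J_apply_one (x : E2) : (J x) 1 = 0 := by
  have := congrFun (Matrix.ofLp_toEuclideanCLM (𝕜 := ℂ) Jmat x) 1
  rw [J, this]
  simp [Jmat, Matrix.mulVec, dotProduct, Fin.sum_univ_two]

theorem J_sq : J * J = 0 := by
  ext x i
  have : (J * J) x = J (J x) := rfl
  rw [this]
  fin_cases i
  · simp [J_apply_zero, J_apply_one]
  · simp [J_apply_one]

theorem inner_J (x : E2) : inner ℂ x (J x) = 2 * ((starRingEnd ℂ) (x 0) * x 1) := by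
  rw [PiLp.inner_apply, Fin.sum_univ_two, J_apply_zero, J_apply_one]
  simp
  ring

theorem norm_sq_E2 (x : E2) : ‖x‖ ^ 2 = ‖x 0‖ ^ 2 + ‖x 1‖ ^ 2 := by
  rw [EuclideanSpace.norm_sq_eq, Fin.sum_univ_two]

theorem aeval_jordan (c k : ℂ) (q : ℂ[X]) :
    aeval (c • (1 : E2 →L[ℂ] E2) + k • J) q = (q.eval c) • 1 + (k * (derivative q).eval c) • J := by
  induction q using Polynomial.induction_on' with
  | add p q hp hq =>
    rw [map_add, hp, hq, eval_add, derivative_add, eval_add]
    module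
  | monomial n a =>
    have key : ∀ n : ℕ, (c • (1 : E2 →L[ℂ] E2) + k • J) ^ n =
        (c ^ n) • 1 + (k * (n * c ^ (n - 1))) • J := by
      intro n
      induction n with
      | zero =>
        have h0 : (0 : ℂ) • J = 0 := zero_smul ℂ J
        simp [h0]
      | succ n ih =>
        have hJ : J * J = (0 : ℂ) • J := by rw [J_sq, zero_smul ℂ J]
        rw [pow_succ, ih, add_mul, mul_add, mul_add]
        simp only [smul_mul_assoc, mul_smul_comm, one_mul, mul_one, hJ]
        rcases n with _ | n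
        · simp only [pow_zero, Nat.cast_zero, zero_mul, mul_zero, zero_add, Nat.sub_self,
            Nat.cast_one, mul_one, pow_one]
          module
        · simp only [Nat.add_sub_cancel, Nat.cast_add, Nat.cast_one]
          module
    rw [aeval_monomial, key, eval_monomial, derivative_monomial, eval_monomial, ← Algebra.smul_def,
      smul_add, smul_smul, smul_smul]
    congr 2
    ring

theorem exists_unit_vector {ζ : ℂ} (hζ : ‖ζ‖ ≤ 1) :
    ∃ x : E2, ‖x‖ = 1 ∧ inner ℂ x (J x) = ζ := by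
  set q : ℝ := Real.sqrt (1 - ‖ζ‖ ^ 2) with hq
  have h1 : 0 ≤ 1 - ‖ζ‖ ^ 2 := by nlinarith [norm_nonneg ζ]
  have hq0 : 0 ≤ q := Real.sqrt_nonneg _
  have hq2 : q ^ 2 = 1 - ‖ζ‖ ^ 2 := Real.sq_sqrt h1
  set a : ℝ := Real.sqrt ((1 + q) / 2) with ha
  have ha2 : a ^ 2 = (1 + q) / 2 := Real.sq_sqrt (by positivity)
  have ha0 : 0 < a := Real.sqrt_pos.2 (by positivity)
  have hac : (a : ℂ) ≠ 0 := by exact_mod_cast ha0.ne'
  refine ⟨!₂[(a : ℂ), ζ / (2 * a)], ?_, ?_⟩
  · have h2 : ‖(!₂[(a : ℂ), ζ / (2 * a)] : E2)‖ ^ 2 = 1 := by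
      rw [norm_sq_E2]
      simp only [Matrix.cons_val_zero, Matrix.cons_val_one, norm_div,
        norm_mul, Complex.norm_real, Real.norm_eq_abs, abs_of_pos ha0, Complex.norm_ofNat]
      have h3 : ‖ζ‖ ^ 2 = (1 - q) * (1 + q) := by linarith [hq2]
      rw [div_pow, mul_pow, ha2, h3]
      have : (1 : ℝ) + q ≠ 0 := by positivity
      field_simp
      ring
    exact (pow_eq_one_iff_of_nonneg (norm_nonneg _) two_ne_zero).1 h2
  · rw [inner_J]
    simp only [Matrix.cons_val_zero, Matrix.cons_val_one, Complex.conj_ofReal]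
    field_simp

/-- constants belong to `W(C₁, C₂)` -/
theorem subset_W {C₁ C₂ : Set ℂ} {c : ℂ} (hc : c ∈ C₁) : C₂ ⊆ W C₁ C₂ := by
  intro k hk
  refine ⟨E2, inferInstance, inferInstance, inferInstance, c • 1, fun _ => k, k • 1, univ,
    fun x hx => ?_, isOpen_univ, subset_univ _, differentiableOn_const _, ?_, ?_, ?_⟩
  · rw [smul_apply, inner_smul_right, inner_one_apply, hx]
    simpa using hc
  · rintro _ ⟨z, _, rfl⟩
    exact hk
  · obtain ⟨p, hp1, hp2⟩ := Calc.const (T := c • (1 : E2 →L[ℂ] E2)) (U := univ) k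
    exact ⟨p, univ, isOpen_univ, subset_univ _, hp1, hp2⟩
  · obtain ⟨x, hx, _⟩ := exists_unit_vector (ζ := 0) (by simp)
    refine ⟨x, hx, ?_⟩
    rw [smul_apply, inner_smul_right, inner_one_apply, hx]
    simp

theorem disc_mem_W {c : ℂ} {r : ℝ} (hr : 0 < r) {C₂ V : Set ℂ} (hV : IsOpen V)
    (hsub : closedBall c r ⊆ V) {f : ℂ → ℂ} (hf : DifferentiableOn ℂ f V)
    (hfC : f '' closedBall c r ⊆ C₂) {ζ : ℂ} (hζ : ‖ζ‖ ≤ 1) :
    f c + r * deriv f c * ζ ∈ W (closedBall c r) C₂ := by
  obtain ⟨x, hx, hxζ⟩ := exists_unit_vector hζ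
  refine ⟨E2, inferInstance, inferInstance, inferInstance, c • 1 + (r : ℂ) • J, f,
    (f c) • 1 + ((r : ℂ) * deriv f c) • J, V, fun y hy => ?_, hV, hsub, hf, hfC, ?_, x, hx, ?_⟩
  · rw [add_apply, inner_add_right, smul_apply, smul_apply, inner_smul_right, inner_smul_right,
      inner_one_apply, inner_J, hy, mem_closedBall, dist_eq_norm]
    have h1 := norm_sq_E2 y
    rw [hy] at h1
    have h2 : ‖(2 * ((starRingEnd ℂ) (y 0) * y 1) : ℂ)‖ ≤ 1 := by
      rw [norm_mul, norm_mul, RCLike.norm_conj, Complex.norm_ofNat]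
      nlinarith [sq_nonneg (‖y 0‖ - ‖y 1‖)]
    have h3 : c * ((1 ^ 2 : ℝ) : ℂ) + r * (2 * ((starRingEnd ℂ) (y 0) * y 1)) - c =
        r * (2 * ((starRingEnd ℂ) (y 0) * y 1)) := by
      push_cast; ring
    rw [h3, norm_mul, Complex.norm_real, Real.norm_eq_abs, abs_of_pos hr]
    nlinarith
  · -- polynomials
    have hcV : c ∈ V := hsub (mem_closedBall_self hr.le)
    obtain ⟨ε, hε, hball⟩ := Metric.isOpen_iff.1 hV c hcV
    obtain ⟨p, hp⟩ := exists_poly_approx (R := ε / 2) (by positivity) (by linarith)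
      (hf.mono hball)
    have hp' : TendstoUniformlyOn (fun n z => (p n).eval z) f atTop (ball c (ε / 2)) :=
      hp.mono ball_subset_closedBall
    refine ⟨p, ball c (ε / 2), isOpen_ball, ?_, hp', ?_⟩
    · intro z hz
      -- spectrum of a Jordan block
      by_contra hcon
      have hzc : z - c ≠ 0 := by
        intro h
        apply hcon
        rw [mem_ball, dist_eq_norm, h, norm_zero]
        positivity
      apply spectrum.mem_iff.1 hz
      have hJ : J * J = (0 : ℂ) • J := by rw [J_sq, zero_smul ℂ J]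
      refine isUnit_iff_exists.2 ⟨(z - c)⁻¹ • 1 + (r * ((z - c)⁻¹ * (z - c)⁻¹)) • J, ?_, ?_⟩
      · rw [Algebra.algebraMap_eq_smul_one]
        simp only [sub_mul, add_mul, mul_add, smul_mul_assoc, mul_smul_comm, one_mul, mul_one,
          hJ]
        have e1 : z * (z - c)⁻¹ - c * (z - c)⁻¹ = 1 := by
          rw [← sub_mul, mul_inv_cancel₀ hzc]
        have e2 : z * (r * ((z - c)⁻¹ * (z - c)⁻¹)) - c * (r * ((z - c)⁻¹ * (z - c)⁻¹)) -
            r * (z - c)⁻¹ = 0 := by
          rw [← sub_mul]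
          field_simp
          ring
        have : (z * (z - c)⁻¹ - c * (z - c)⁻¹) • (1 : E2 →L[ℂ] E2) +
          (z * (r * ((z - c)⁻¹ * (z - c)⁻¹)) - c * (r * ((z - c)⁻¹ * (z - c)⁻¹)) -
            r * (z - c)⁻¹) • J = 1 := by
          rw [e1, e2, zero_smul ℂ J, one_smul, add_zero]
        refine Eq.trans ?_ this
        module
      · rw [Algebra.algebraMap_eq_smul_one]
        simp only [mul_sub, add_mul, mul_add, smul_mul_assoc, mul_smul_comm, one_mul, mul_one,
          hJ]
        have e1 : z * (z - c)⁻¹ - c * (z - c)⁻¹ = 1 := by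
          rw [← sub_mul, mul_inv_cancel₀ hzc]
        have e2 : z * (r * ((z - c)⁻¹ * (z - c)⁻¹)) - c * (r * ((z - c)⁻¹ * (z - c)⁻¹)) -
            r * (z - c)⁻¹ = 0 := by
          rw [← sub_mul]
          field_simp
          ring
        have : (z * (z - c)⁻¹ - c * (z - c)⁻¹) • (1 : E2 →L[ℂ] E2) +
          (z * (r * ((z - c)⁻¹ * (z - c)⁻¹)) - c * (r * ((z - c)⁻¹ * (z - c)⁻¹)) -
            r * (z - c)⁻¹) • J = 1 := by
          rw [e1, e2, zero_smul ℂ J, one_smul, add_zero]
        refine Eq.trans ?_ this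
        module
    · have hcb : c ∈ ball c (ε / 2) := mem_ball_self (by positivity)
      have h1 : Tendsto (fun n => (p n).eval c) atTop (𝓝 (f c)) := hp'.tendsto_at hcb
      have h2 : Tendsto (fun n => (derivative (p n)).eval c) atTop (𝓝 (deriv f c)) := by
        have := hp'.tendstoLocallyUniformlyOn.deriv
          (Eventually.of_forall fun n => (p n).differentiable.differentiableOn) isOpen_ball
        have h3 := (this.tendsto_at hcb)
        refine h3.congr fun n => ?_
        simp only [Function.comp, Polynomial.deriv]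
      have h3 : (fun n => aeval (c • (1 : E2 →L[ℂ] E2) + (r : ℂ) • J) (p n)) =
          fun n => ((p n).eval c) • (1 : E2 →L[ℂ] E2) + (r * (derivative (p n)).eval c) • J := by
        funext n
        exact aeval_jordan c r (p n)
      rw [h3]
      exact (h1.smul_const _).add ((h2.const_mul _).smul_const _)
  · rw [add_apply, inner_add_right, smul_apply, smul_apply, inner_smul_right, inner_smul_right,
      inner_one_apply, hxζ, hx]
    simp

end Pool.Agent.Lib.MP_c3d375_an
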