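import Pool.Agent.Lib.MP_c3d375_an.Lower

/-!
# Lower bound for quarter planes
-/

open Complex Metric Set Filter Topology Polynomial

namespace Pool.Agent.Lib.MP_c3d375_an

/-- principal square root -/
noncomputable def sq (h : ℂ) : ℂ := exp (log h / 2)

theorem sq_sq {h : ℂ} (hh : h ≠ 0) : sq h ^ 2 = h := by
  rw [sq, ← Complex.exp_nat_mul]
  rw [show ((2 : ℕ) : ℂ) * (log h / 2) = log h by push_cast; ring, Complex.exp_log hh]

theorem sq_re_pos {h : ℂ} (hh : 0 < h.re) : 0 < (sq h).re := by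
  rw [sq, Complex.exp_re]
  refine mul_pos (Real.exp_pos _) ?_
  have h1 : (log h / 2).im = Complex.arg h / 2 := by
    rw [show (2 : ℂ) = ((2 : ℝ) : ℂ) by norm_num, Complex.div_ofReal_im, Complex.log_im]
  rw [h1]
  have h2 := Complex.abs_arg_lt_pi_div_two_iff.2 (Or.inl hh)
  rw [abs_lt] at h2
  exact Real.cos_pos_of_mem_Ioo ⟨by linarith [h2.1, Real.pi_pos], by linarith [h2.2, Real.pi_pos]⟩

theorem sq_sector {h : ℂ} (hh : 0 < h.re) : |(sq h).im| < (sq h).re := by
  have h0 : h ≠ 0 := by rintro rfl; simp at hh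
  have h1 := sq_re_pos hh
  have h2 := congrArg Complex.re (sq_sq h0)
  rw [pow_two, Complex.mul_re] at h2
  rw [← abs_of_pos h1, ← sq_lt_sq]
  nlinarith

theorem sq_ofReal {m : ℝ} (hm : 0 < m) : sq ((m ^ 2 : ℝ) : ℂ) = m := by
  have h0 : ((m ^ 2 : ℝ) : ℂ) ≠ 0 := by
    have : (m ^ 2 : ℝ) ≠ 0 := by positivity
    exact_mod_cast this
  have h1 : 0 < (((m ^ 2 : ℝ) : ℂ)).re := by
    rw [Complex.ofReal_re]; positivity
  have h2 := sq_sq h0
  have h3 := sq_re_pos h1
  have h4 : (sq ((m ^ 2 : ℝ) : ℂ) - m) * (sq ((m ^ 2 : ℝ) : ℂ) + m) = 0 := by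
    have : (sq ((m ^ 2 : ℝ) : ℂ) - m) * (sq ((m ^ 2 : ℝ) : ℂ) + m) =
      sq ((m ^ 2 : ℝ) : ℂ) ^ 2 - (m : ℂ) ^ 2 := by ring
    rw [this, h2]; push_cast; ring
  rcases mul_eq_zero.1 h4 with h | h
  · exact sub_eq_zero.1 h
  · exfalso
    have := congrArg Complex.re h
    rw [Complex.add_re, Complex.ofReal_re, Complex.zero_re] at this
    linarith

theorem hasDerivAt_sq {h : ℂ} (hh : 0 < h.re) : HasDerivAt sq (sq h / (2 * h)) h := by
  have h0 : h ≠ 0 := by rintro rfl; simp at hh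
  have hs : h ∈ Complex.slitPlane := Or.inl hh
  have := ((Complex.hasDerivAt_log hs).div_const 2).cexp
  refine this.congr_deriv ?_
  rw [sq]
  field_simp

/-- the choice of parameters -/
theorem exists_params {δ : ℂ} (hδ : 0 < δ.re) {M : ℝ} (hM : 0 < M) :
    ∃ m t : ℝ, M < m ∧ 0 < t ∧ t < 1 ∧ ‖δ - m‖ ≤ (m ^ 2 - M ^ 2) * t / m := by
  set m : ℝ := M + 1 + (‖δ‖ ^ 2 + 2 * M ^ 2) / δ.re with hm
  have hq : 0 ≤ (‖δ‖ ^ 2 + 2 * M ^ 2) / δ.re := by positivity
  have hmM : M < m := by rw [hm]; linarith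
  have hm0 : 0 < m := hM.trans hmM
  have h1 : ‖δ‖ ^ 2 + 2 * M ^ 2 < 2 * m * δ.re := by
    have h2 : (‖δ‖ ^ 2 + 2 * M ^ 2) ≤ m * δ.re := by
      have : (‖δ‖ ^ 2 + 2 * M ^ 2) / δ.re ≤ m := by rw [hm]; linarith
      rwa [div_le_iff₀ hδ] at this
    have h3 : 0 < m * δ.re := by positivity
    nlinarith
  have h4 : ‖δ - m‖ ^ 2 = ‖δ‖ ^ 2 - 2 * m * δ.re + m ^ 2 := by
    rw [← Complex.normSq_eq_norm_sq, ← Complex.normSq_eq_norm_sq, Complex.normSq_apply,
      Complex.normSq_apply]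
    simp only [Complex.sub_re, Complex.sub_im, Complex.ofReal_re, Complex.ofReal_im]
    ring
  have h5 : 0 < (m ^ 2 - M ^ 2) / m := by
    apply div_pos _ hm0
    nlinarith
  have h6 : ‖δ - m‖ < (m ^ 2 - M ^ 2) / m := by
    rw [← sq_lt_sq₀ (norm_nonneg _) h5.le, h4, div_pow, lt_div_iff₀ (by positivity)]
    have h7 : 0 < M ^ 2 * M ^ 2 := by positivity
    have h8 : 0 < m ^ 2 := by positivity
    nlinarith
  set s : ℝ := ‖δ - m‖ / ((m ^ 2 - M ^ 2) / m) with hs
  have hs1 : s < 1 := by rw [hs, div_lt_one h5]; exact h6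
  have hs0 : 0 ≤ s := by positivity
  refine ⟨m, (s + 1) / 2, hmM, by linarith, by linarith, ?_⟩
  have h9 : ‖δ - m‖ = s * ((m ^ 2 - M ^ 2) / m) := by
    rw [hs, div_mul_cancel₀ _ h5.ne']
  rw [h9, mul_div_right_comm, mul_comm]
  gcongr
  linarith

/-- points of the open half plane are attained -/
theorem W_lower {c : ℂ} {r : ℝ} (hr : 0 < r) {C₂ : Set ℂ} {u : ℂ} (hu : u ≠ 0)
    (hrec : ∀ w ∈ C₂, ∀ s t : ℝ, 0 ≤ s → 0 ≤ t → w + s * u + t * (I * u) ∈ C₂)
    {a b w : ℂ} (ha : a ∈ C₂) (hb : b ∈ C₂)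
    (hw : ((starRingEnd ℂ) u * a).re + ((starRingEnd ℂ) u * b).im <
      ((starRingEnd ℂ) u * w).re + ((starRingEnd ℂ) u * w).im) : w ∈ W (closedBall c r) C₂ := by
  have hu' : (starRingEnd ℂ) u ≠ 0 := by simpa using hu
  set n : ℝ := ‖u‖ ^ 2 with hn
  have hn0 : 0 < n := by
    have := norm_pos_iff.2 hu
    positivity
  have hun : (starRingEnd ℂ) u * u = n := by
    rw [mul_comm, Complex.mul_conj, Complex.normSq_eq_norm_sq]
  -- membership criterion
  have hmemC : ∀ {e v : ℂ}, e ∈ C₂ → ((starRingEnd ℂ) u * e).re ≤ v.re →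
      ((starRingEnd ℂ) u * e).im ≤ v.im → v / (starRingEnd ℂ) u ∈ C₂ := by
    intro e v he h1 h2
    have h3 := hrec e he ((v.re - ((starRingEnd ℂ) u * e).re) / n)
      ((v.im - ((starRingEnd ℂ) u * e).im) / n) (div_nonneg (by linarith) hn0.le)
      (div_nonneg (by linarith) hn0.le)
    convert h3 using 1
    rw [div_eq_iff hu']
    have h4 : (e + ((v.re - ((starRingEnd ℂ) u * e).re) / n : ℝ) * u +
        ((v.im - ((starRingEnd ℂ) u * e).im) / n : ℝ) * (I * u)) * (starRingEnd ℂ) u =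
        (starRingEnd ℂ) u * e + ((v.re - ((starRingEnd ℂ) u * e).re) / n : ℝ) *
          ((starRingEnd ℂ) u * u) + ((v.im - ((starRingEnd ℂ) u * e).im) / n : ℝ) *
          (I * ((starRingEnd ℂ) u * u)) := by ring
    rw [h4, hun]
    have hnc : (n : ℂ) ≠ 0 := by exact_mod_cast hn0.ne'
    apply Complex.ext
    · simp only [Complex.add_re, Complex.ofReal_re, Complex.mul_re,
        Complex.I_re, Complex.I_im, Complex.ofReal_im]
      field_simp
      ring
    · simp only [Complex.add_im, Complex.ofReal_re, Complex.mul_im,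
        Complex.I_re, Complex.I_im, Complex.ofReal_im]
      field_simp
      ring
  set a' := (starRingEnd ℂ) u * a with ha'
  set b' := (starRingEnd ℂ) u * b with hb'
  set w' := (starRingEnd ℂ) u * w with hw'
  set p' : ℂ := a'.re + b'.im * I with hp'
  -- δ
  set δ : ℂ := (w' - p') * (1 - I) with hδ
  have hδre : 0 < δ.re := by
    have : δ.re = w'.re + w'.im - (a'.re + b'.im) := by
      simp [hδ, hp']
      ring
    rw [this]; linarith
  set L : ℝ := max (b'.re - a'.re) (a'.im - b'.im) with hL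
  set M : ℝ := 2 * |L| + 1 with hM
  have hM0 : 0 < M := by positivity
  obtain ⟨m, t, hMm, ht0, ht1, hδm⟩ := exists_params hδre hM0
  have hm0 : 0 < m := hM0.trans hMm
  set ρ2 : ℝ := m ^ 2 - M ^ 2 with hρ2
  have hρ2p : 0 < ρ2 := by rw [hρ2]; nlinarith
  -- the function
  set mob : ℂ → ℂ := fun z => (1 + (t / r : ℝ) * (z - c)) / (1 - (t / r : ℝ) * (z - c)) with hmob
  set hh : ℂ → ℂ := fun z => ρ2 * mob z + ((M ^ 2 : ℝ) : ℂ) with hhh
  set F : ℂ → ℂ := fun z => p' + (1 + I) / 2 * sq (hh z) with hF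
  have htr : 0 < t / r := by positivity
  have hden : ∀ z ∈ ball c (r / t), 1 - ((t / r : ℝ) : ℂ) * (z - c) ≠ 0 ∧ 0 ≤ (mob z).re := by
    intro z hz
    rw [mem_ball, dist_eq_norm] at hz
    have h1 : ‖((t / r : ℝ) : ℂ) * (z - c)‖ < 1 := by
      rw [norm_mul, Complex.norm_real, Real.norm_eq_abs, abs_of_pos htr]
      calc t / r * ‖z - c‖ < t / r * (r / t) := by gcongr
        _ = 1 := by field_simp
    constructor
    · intro h
      have h2 : ((t / r : ℝ) : ℂ) * (z - c) = 1 := by linear_combination -h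
      rw [h2] at h1
      simp at h1
    · rw [hmob]
      simp only []
      set y := ((t / r : ℝ) : ℂ) * (z - c)
      rw [Complex.div_re, ← add_div]
      refine div_nonneg ?_ (Complex.normSq_nonneg _)
      rw [← sq_lt_one_iff₀ (norm_nonneg _), ← Complex.normSq_eq_norm_sq,
        Complex.normSq_apply] at h1
      simp only [Complex.add_re, Complex.one_re, Complex.sub_re, Complex.add_im, Complex.one_im,
        Complex.sub_im]
      nlinarith
  have hhre : ∀ z ∈ ball c (r / t), M ^ 2 ≤ (hh z).re := by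
    intro z hz
    have := (hden z hz).2
    simp only [hhh]
    rw [Complex.add_re, Complex.re_ofReal_mul, Complex.ofReal_re]
    nlinarith [mul_nonneg hρ2p.le this]
  have hhpos : ∀ z ∈ ball c (r / t), 0 < (hh z).re := fun z hz =>
    lt_of_lt_of_le (by positivity) (hhre z hz)
  have hmobd : DifferentiableOn ℂ mob (ball c (r / t)) := by
    rw [hmob]
    exact DifferentiableOn.div (by fun_prop) (by fun_prop) fun z hz => (hden z hz).1
  have hhd : DifferentiableOn ℂ hh (ball c (r / t)) :=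
    ((differentiableOn_const _).mul hmobd).add (differentiableOn_const _)
  have hFd : DifferentiableOn ℂ F (ball c (r / t)) := by
    refine (differentiableOn_const _).add ((differentiableOn_const _).mul ?_)
    intro z hz
    exact ((hasDerivAt_sq (hhpos z hz)).differentiableAt.comp_differentiableWithinAt z (hhd z hz))
  have hsub : closedBall c r ⊆ ball c (r / t) :=
    closedBall_subset_ball (by rw [lt_div_iff₀ ht0]; nlinarith)
  have hFC : (fun z => F z / (starRingEnd ℂ) u) '' closedBall c r ⊆ C₂ := by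
    rintro _ ⟨z, hz, rfl⟩
    have hz' := hsub hz
    have h1 := sq_sector (hhpos z hz')
    have h2 := sq_re_pos (hhpos z hz')
    set g := sq (hh z) with hg
    have hgre : (F z).re = a'.re + (g.re - g.im) / 2 := by
      simp only [hF, hp', Complex.add_re, Complex.mul_re, Complex.ofReal_re, Complex.ofReal_im,
        Complex.I_re, Complex.I_im, ← hg]
      have e1 : ((1 + I) / 2 : ℂ).re = 1 / 2 := by simp
      have e2 : ((1 + I) / 2 : ℂ).im = 1 / 2 := by simp
      rw [e1, e2]; ring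
    have hgim : (F z).im = b'.im + (g.re + g.im) / 2 := by
      simp only [hF, hp', Complex.add_im, Complex.mul_im, Complex.ofReal_re, Complex.ofReal_im,
        Complex.I_re, Complex.I_im, ← hg]
      have e1 : ((1 + I) / 2 : ℂ).re = 1 / 2 := by simp
      have e2 : ((1 + I) / 2 : ℂ).im = 1 / 2 := by simp
      rw [e1, e2]; ring
    have hgM : M ≤ g.re := by
      have h0 : hh z ≠ 0 := by
        intro h
        have := hhpos z hz'
        rw [h] at this
        simp at this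
      have h3 := congrArg Complex.re (sq_sq h0)
      rw [← hg, pow_two, Complex.mul_re] at h3
      have h4 := hhre z hz'
      have h5 : M ^ 2 ≤ g.re ^ 2 := by nlinarith [sq_nonneg g.im]
      exact (sq_le_sq₀ hM0.le h2.le).1 h5
    have hLM : L ≤ M / 2 := by
      rw [hM]; linarith [le_abs_self L, abs_nonneg L]
    rw [abs_lt] at h1
    rcases le_total 0 g.im with hi | hi
    · -- use `a`
      refine hmemC ha ?_ ?_
      · rw [hgre]; linarith [h1.2]
      · rw [hgim]
        have : a'.im - b'.im ≤ L := le_max_right _ _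
        linarith
    · refine hmemC hb ?_ ?_
      · rw [hgre]
        have : b'.re - a'.re ≤ L := le_max_left _ _
        linarith
      · rw [hgim]; linarith [h1.1]
  have hfd : DifferentiableOn ℂ (fun z => F z / (starRingEnd ℂ) u) (ball c (r / t)) :=
    hFd.div_const _
  -- ζ
  set ζ : ℂ := (δ - m) / ((ρ2 * t / m : ℝ) : ℂ) with hζ
  have hk0 : 0 < ρ2 * t / m := by positivity
  have hζ1 : ‖ζ‖ ≤ 1 := by
    rw [hζ, norm_div, Complex.norm_real, Real.norm_eq_abs, abs_of_pos hk0, div_le_one hk0]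
    exact hδm
  have hmem := disc_mem_W hr isOpen_ball hsub hfd hFC hζ1
  -- compute value and derivative at the centre
  have hmobc : mob c = 1 := by simp [hmob]
  have hhc : hh c = ((m ^ 2 : ℝ) : ℂ) := by
    simp only [hhh, hmobc, hρ2]
    push_cast; ring
  have hsqc : sq (hh c) = m := by rw [hhc, sq_ofReal hm0]
  have hdmob : HasDerivAt mob ((2 * (t / r : ℝ) : ℝ) : ℂ) c := by
    have h1 : HasDerivAt (fun z : ℂ => 1 + ((t / r : ℝ) : ℂ) * (z - c)) ((t / r : ℝ) : ℂ) c := by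
      have := (((hasDerivAt_id c).sub_const c).const_mul ((t / r : ℝ) : ℂ)).const_add 1
      simpa using this
    have h2 : HasDerivAt (fun z : ℂ => 1 - ((t / r : ℝ) : ℂ) * (z - c)) (-((t / r : ℝ) : ℂ)) c := by
      have := (((hasDerivAt_id c).sub_const c).const_mul ((t / r : ℝ) : ℂ)).const_sub 1
      simpa using this
    have h3 := h1.div h2 (by simp)
    refine h3.congr_deriv ?_
    simp
    ring
  have hdh : HasDerivAt hh (ρ2 * ((2 * (t / r : ℝ) : ℝ) : ℂ)) c := by
    have := (hdmob.const_mul (ρ2 : ℂ)).add_const (((M ^ 2 : ℝ) : ℂ))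
    exact this
  have hcb : c ∈ ball c (r / t) := mem_ball_self (by positivity)
  have hdF : HasDerivAt (fun z => F z / (starRingEnd ℂ) u)
      ((1 + I) / 2 * (sq (hh c) / (2 * hh c) * (ρ2 * ((2 * (t / r : ℝ) : ℝ) : ℂ))) /
        (starRingEnd ℂ) u) c := by
    have h1 := (hasDerivAt_sq (hhpos c hcb)).comp c hdh
    have h2 := ((h1.const_mul ((1 + I) / 2)).const_add p').div_const ((starRingEnd ℂ) u)
    exact h2
  rw [hdF.deriv] at hmem
  convert hmem using 1
  simp only [hF]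
  rw [hsqc, hhc]
  have hmc : (m : ℂ) ≠ 0 := by exact_mod_cast hm0.ne'
  have hrc : (r : ℂ) ≠ 0 := by exact_mod_cast hr.ne'
  have hkc : ((ρ2 * t / m : ℝ) : ℂ) ≠ 0 := by exact_mod_cast hk0.ne'
  have hζ2 : ((ρ2 * t / m : ℝ) : ℂ) * ζ = δ - m := by
    rw [hζ, mul_div_cancel₀ _ hkc]
  have e1 : (r : ℂ) * ((1 + I) / 2 * ((m : ℂ) / (2 * ((m ^ 2 : ℝ) : ℂ)) *
      (ρ2 * ((2 * (t / r : ℝ) : ℝ) : ℂ))) / (starRingEnd ℂ) u) * ζ =
      (1 + I) / 2 * (((ρ2 * t / m : ℝ) : ℂ) * ζ) / (starRingEnd ℂ) u := by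
    push_cast
    field_simp
  rw [e1, hζ2, eq_comm, ← add_div, div_eq_iff hu']
  rw [show w * (starRingEnd ℂ) u = w' by rw [hw', mul_comm]]
  have e2 : (1 + I) / 2 * (δ - m) = (w' - p') - (1 + I) / 2 * m := by
    rw [hδ]
    have : (1 + I) / 2 * ((w' - p') * (1 - I)) = (w' - p') := by
      have h3 : (1 + I) * (1 - I) = 2 := by
        rw [show (1 + I) * (1 - I) = 1 - I * I by ring, Complex.I_mul_I]; ring
      calc (1 + I) / 2 * ((w' - p') * (1 - I)) = (w' - p') * ((1 + I) * (1 - I)) / 2 := by ring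
        _ = w' - p' := by rw [h3]; ring
    rw [mul_sub, this]
  rw [e2]
  ring

end Pool.Agent.Lib.MP_c3d375_an
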