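import Pool.Agent.Lib.MP_c3d375_an.Lower2

/-!
# Discs and cones: conclusion
-/

open Complex Metric Set Filter Topology Polynomial

namespace Pool.Agent.Lib.MP_c3d375_an

theorem W_quarter {c : ℂ} {r : ℝ} (hr : 0 < r) {C₂ : Set ℂ} {u : ℂ} (hu : u ≠ 0)
    (hrec : ∀ w ∈ C₂, ∀ s t : ℝ, 0 ≤ s → 0 ≤ t → w + s * u + t * (I * u) ∈ C₂) :
    W (closedBall c r) C₂ = C₂ ∪ {w | ∃ a ∈ C₂, ∃ b ∈ C₂,
      ((starRingEnd ℂ) u * a).re + ((starRingEnd ℂ) u * b).im <
      ((starRingEnd ℂ) u * w).re + ((starRingEnd ℂ) u * w).im} := by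
  apply Subset.antisymm
  · intro w hw
    by_contra hcon
    rw [mem_union, not_or] at hcon
    obtain ⟨h1, h2⟩ := hcon
    have h3 : ∀ a ∈ C₂, ∀ b ∈ C₂, ((starRingEnd ℂ) u * w).re + ((starRingEnd ℂ) u * w).im ≤
        ((starRingEnd ℂ) u * a).re + ((starRingEnd ℂ) u * b).im := by
      intro a ha b hb
      by_contra h
      exact h2 ⟨a, ha, b, hb, not_le.1 h⟩
    obtain ⟨a₀, ha₀⟩ : C₂.Nonempty := by
      obtain ⟨H, _, _, _, T, f, A, V, _, _, _, _, hfC, _, _⟩ := hw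
      exact ⟨f c, hfC ⟨c, mem_closedBall_self hr.le, rfl⟩⟩
    set α := sInf ((fun a => ((starRingEnd ℂ) u * a).re) '' C₂) with hα
    set β := sInf ((fun a => ((starRingEnd ℂ) u * a).im) '' C₂) with hβ
    have hbα : BddBelow ((fun a => ((starRingEnd ℂ) u * a).re) '' C₂) := by
      refine ⟨((starRingEnd ℂ) u * w).re + ((starRingEnd ℂ) u * w).im -
        ((starRingEnd ℂ) u * a₀).im, ?_⟩
      rintro _ ⟨a, ha, rfl⟩
      have := h3 a ha a₀ ha₀
      simp only []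
      linarith
    have hbβ : BddBelow ((fun a => ((starRingEnd ℂ) u * a).im) '' C₂) := by
      refine ⟨((starRingEnd ℂ) u * w).re + ((starRingEnd ℂ) u * w).im -
        ((starRingEnd ℂ) u * a₀).re, ?_⟩
      rintro _ ⟨a, ha, rfl⟩
      have := h3 a₀ ha₀ a ha
      simp only []
      linarith
    have h4 : ∀ b ∈ C₂, ((starRingEnd ℂ) u * w).re + ((starRingEnd ℂ) u * w).im -
        ((starRingEnd ℂ) u * b).im ≤ α := by
      intro b hb
      refine le_csInf ⟨_, a₀, ha₀, rfl⟩ ?_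
      rintro _ ⟨a, ha, rfl⟩
      have := h3 a ha b hb
      simp only []
      linarith
    have h5 : ((starRingEnd ℂ) u * w).re + ((starRingEnd ℂ) u * w).im - α ≤ β := by
      refine le_csInf ⟨_, a₀, ha₀, rfl⟩ ?_
      rintro _ ⟨b, hb, rfl⟩
      have := h4 b hb
      simp only []
      linarith
    rcases W_upper hr hu (α := α) (β := β) (fun a ha => csInf_le hbα ⟨a, ha, rfl⟩)
      (fun a ha => csInf_le hbβ ⟨a, ha, rfl⟩) hw with h | h
    · linarith
    · exact h1 h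
  · rintro w (hw | ⟨a, ha, b, hb, hab⟩)
    · exact subset_W (mem_closedBall_self hr.le) hw
    · exact W_lower hr hu hrec ha hb hab

theorem convex_union {C₂ : Set ℂ} (hC : Convex ℝ C₂) (v : ℂ) :
    Convex ℝ (C₂ ∪ {w | ∃ a ∈ C₂, ∃ b ∈ C₂, (v * a).re + (v * b).im < (v * w).re + (v * w).im}) := by
  rw [convex_iff_forall_pos]
  intro x hx y hy s t hs ht hst
  have hre : ∀ p q : ℂ, (v * (s • p + t • q)).re = s * (v * p).re + t * (v * q).re := by
    intro p q
    simp only [mul_add, Complex.add_re, mul_smul_comm, Complex.smul_re, smul_eq_mul]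
  have him : ∀ p q : ℂ, (v * (s • p + t • q)).im = s * (v * p).im + t * (v * q).im := by
    intro p q
    simp only [mul_add, Complex.add_im, mul_smul_comm, Complex.smul_im, smul_eq_mul]
  rcases hx with hx | ⟨a, ha, b, hb, hab⟩
  · rcases hy with hy | ⟨a', ha', b', hb', hab'⟩
    · exact Or.inl (hC hx hy hs.le ht.le hst)
    · refine Or.inr ⟨s • x + t • a', hC hx ha' hs.le ht.le hst, s • x + t • b',
        hC hx hb' hs.le ht.le hst, ?_⟩
      rw [hre, him, hre, him]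
      nlinarith
  · rcases hy with hy | ⟨a', ha', b', hb', hab'⟩
    · refine Or.inr ⟨s • a + t • y, hC ha hy hs.le ht.le hst, s • b + t • y,
        hC hb hy hs.le ht.le hst, ?_⟩
      rw [hre, him, hre, him]
      nlinarith
    · refine Or.inr ⟨s • a + t • a', hC ha ha' hs.le ht.le hst, s • b + t • b',
        hC hb hb' hs.le ht.le hst, ?_⟩
      rw [hre, him, hre, him]
      nlinarith

/-- `W(C₁, C₂)` is star-shaped with respect to every point of `C₂`. -/
theorem star_W {C₁ C₂ : Set ℂ} (hC : Convex ℝ C₂) {w k : ℂ} (hw : w ∈ W C₁ C₂) (hk : k ∈ C₂)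
    {s t : ℝ} (hs : 0 ≤ s) (ht : 0 ≤ t) (hst : s + t = 1) : (s : ℂ) * w + t * k ∈ W C₁ C₂ := by
  obtain ⟨H, i1, i2, i3, T, f, A, V, hT, hV, hsub, hf, hfC, ⟨p, U, hU, hTU, hp1, hp2⟩, x, hx, rfl⟩ :=
    hw
  have hcalc : Calc T U (fun z => (s : ℂ) * f z + t * k) ((s : ℂ) • A + (t * k : ℂ) • 1) :=
    (Calc.smul (s : ℂ) ⟨p, hp1, hp2⟩).add (Calc.const _)
  obtain ⟨q, hq1, hq2⟩ := hcalc
  refine ⟨H, i1, i2, i3, T, fun z => (s : ℂ) * f z + t * k, _, V, hT, hV, hsub,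
    ((differentiableOn_const _).mul hf).add (differentiableOn_const _), ?_,
    ⟨q, U, hU, hTU, hq1, hq2⟩, x, hx, ?_⟩
  · rintro _ ⟨z, hz, rfl⟩
    have := hC (hfC ⟨z, hz, rfl⟩) hk hs ht hst
    simpa [Complex.real_smul] using this
  · rw [add_apply, inner_add_right, smul_apply, smul_apply, inner_smul_right, inner_smul_right,
      inner_one_apply, hx]
    simp

theorem scale_W {C₁ C₂ : Set ℂ} {p : ℂ} (hcone : ∀ w ∈ C₂, ∀ s : ℝ, 0 ≤ s → p + s * (w - p) ∈ C₂)
    {w : ℂ} (hw : w ∈ W C₁ C₂) {s : ℝ} (hs : 0 ≤ s) : p + s * (w - p) ∈ W C₁ C₂ := by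
  obtain ⟨H, i1, i2, i3, T, f, A, V, hT, hV, hsub, hf, hfC, ⟨q, U, hU, hTU, hq1, hq2⟩, x, hx, rfl⟩ :=
    hw
  have hcalc : Calc T U (fun z => (s : ℂ) * f z + (p - s * p)) ((s : ℂ) • A + (p - s * p : ℂ) • 1) :=
    (Calc.smul (s : ℂ) ⟨q, hq1, hq2⟩).add (Calc.const _)
  obtain ⟨q', hq1', hq2'⟩ := hcalc
  refine ⟨H, i1, i2, i3, T, fun z => (s : ℂ) * f z + (p - s * p), _, V, hT, hV, hsub,
    ((differentiableOn_const _).mul hf).add (differentiableOn_const _), ?_,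
    ⟨q', U, hU, hTU, hq1', hq2'⟩, x, hx, ?_⟩
  · rintro _ ⟨z, hz, rfl⟩
    have := hcone _ (hfC ⟨z, hz, rfl⟩) s hs
    convert this using 1
    ring
  · rw [add_apply, inner_add_right, smul_apply, smul_apply, inner_smul_right, inner_smul_right,
      inner_one_apply, hx]
    simp
    ring

/-- if `C₂` lies on a line then so does `W(D, C₂)` -/
theorem W_line {c : ℂ} {r : ℝ} (hr : 0 < r) {C₂ : Set ℂ} {v p : ℂ}
    (hline : ∀ w ∈ C₂, (v * (w - p)).re = 0) {w : ℂ} (hw : w ∈ W (closedBall c r) C₂) :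
    (v * (w - p)).re = 0 := by
  obtain ⟨H, _, _, _, T, f, A, V, hT, hV, hsub, hf, hfC, ⟨q, U, hU, hTU, hp1, hp2⟩, x, hx, rfl⟩ := hw
  obtain ⟨V', R, hV', hsub', hd, hR, hA⟩ :=
    exists_calc_normalised hr hT hV hsub hf hU hTU ⟨q, hp1, hp2⟩
  have hS := numContr_of_closedBall hr hT
  have hmem : ∀ z ∈ closedBall (0 : ℂ) 1, f (c + r * z) ∈ C₂ := by
    intro z hz
    apply hfC
    refine ⟨_, ?_, rfl⟩
    rw [mem_closedBall, dist_zero_right] at hz
    rw [mem_closedBall, dist_eq_norm, add_sub_cancel_left, norm_mul, Complex.norm_real,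
      Real.norm_eq_abs, abs_of_pos hr]
    nlinarith
  have h1 := re_eq_of_const hS hR ((hA.smul v).add (Calc.const (-(v * p)))) (c := 0)
    (fun z hz => by
      have := hline _ (hmem z hz)
      rw [mul_sub] at this
      rw [← sub_eq_add_neg]
      exact this) x
  rw [add_apply, inner_add_right, smul_apply, smul_apply, inner_smul_right, inner_smul_right,
    inner_one_apply, hx] at h1
  rw [mul_sub, sub_eq_add_neg]
  simpa using h1

end Pool.Agent.Lib.MP_c3d375_an
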