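import Pool.Agent.Lib.MP_c3d375_an.Sum

/-!
# Mixing two admissible pairs
-/

open Complex Metric Set Filter Topology Polynomial

namespace Pool.Agent.Lib.MP_c3d375_an

/-- `C₁` carries holomorphic functions which are almost real with values in `[0, 1]`, almost `0` on
a given compact set and almost `1` on an affine copy of it, and holomorphic self-maps with
relatively compact range which are almost the identity on a given compact set. -/
def Mixable (C₁ : Set ℂ) : Prop :=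
  ∀ K : Set ℂ, IsCompact K → K ⊆ interior C₁ → ∀ ε : ℝ, 0 < ε →
    (∃ (θ : ℂ → ℂ) (V L : Set ℂ), IsOpen V ∧ C₁ ⊆ V ∧ DifferentiableOn ℂ θ V ∧ IsCompact L ∧
      L ⊆ C₁ ∧ (∀ z ∈ C₁, θ z ∈ L) ∧ ∀ z ∈ K, ‖θ z - z‖ ≤ ε) ∧
    (∃ (a b : ℂ) (χ : ℂ → ℂ) (V : Set ℂ), a ≠ 0 ∧ (∀ z ∈ C₁, a * z + b ∈ C₁) ∧
      (∀ z ∈ C₁, a⁻¹ * (z - b) ∈ C₁) ∧ IsOpen V ∧ C₁ ⊆ V ∧ DifferentiableOn ℂ χ V ∧
      (∀ z ∈ C₁, 0 ≤ (χ z).re ∧ (χ z).re ≤ 1 ∧ |(χ z).im| ≤ ε) ∧ (∀ z ∈ K, ‖χ z‖ ≤ ε) ∧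
      ∀ z ∈ K, ‖χ (a * z + b) - 1‖ ≤ ε)

theorem mix_value {C₂ : Set ℂ} (hconv₂ : Convex ℝ C₂) {k₀ : ℂ} {ρ : ℝ}
    (hk : closedBall k₀ ρ ⊆ C₂) {g₁ g₂ x : ℂ} (hg₁ : g₁ ∈ C₂) (hg₂ : g₂ ∈ C₂) {δ M ε : ℝ}
    (hδ0 : 0 < δ) (hδ1 : δ < 1) (hM₁ : ‖g₁‖ ≤ M) (hM₂ : ‖g₂‖ ≤ M) (hε : 2 * M * ε ≤ δ * ρ)
    (hx0 : 0 ≤ x.re) (hx1 : x.re ≤ 1) (hxi : |x.im| ≤ ε) :
    ((1 - δ : ℝ) : ℂ) * ((1 - x) * g₁ + x * g₂) + (δ : ℂ) * k₀ ∈ C₂ := by
  have h1 : ((1 - x.re : ℝ) : ℂ) * g₁ + (x.re : ℂ) * g₂ ∈ C₂ := by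
    have := hconv₂ hg₁ hg₂ (sub_nonneg.2 hx1) hx0 (by ring)
    simpa only [Complex.real_smul] using this
  have hδc : (δ : ℂ) ≠ 0 := by exact_mod_cast hδ0.ne'
  set k : ℂ := k₀ + ((1 - δ : ℝ) : ℂ) * (x.im * I * (g₂ - g₁)) / δ with hkdef
  have h2 : k ∈ C₂ := by
    apply hk
    rw [mem_closedBall, dist_eq_norm, hkdef, add_sub_cancel_left, norm_div, norm_mul,
      Complex.norm_real, Complex.norm_real, Real.norm_eq_abs, Real.norm_eq_abs, abs_of_pos hδ0,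
      abs_of_pos (by linarith : (0 : ℝ) < 1 - δ), div_le_iff₀ hδ0, norm_mul, norm_mul,
      Complex.norm_real, Complex.norm_I, mul_one, Real.norm_eq_abs]
    have h3 : ‖g₂ - g₁‖ ≤ 2 * M := (norm_sub_le _ _).trans (by linarith)
    have h4 : 0 ≤ |x.im| := abs_nonneg _
    have h5 : |x.im| * ‖g₂ - g₁‖ ≤ ε * (2 * M) := by
      have : 0 ≤ ε := h4.trans hxi
      gcongr
    have h6 : (1 - δ) * (|x.im| * ‖g₂ - g₁‖) ≤ 1 * (|x.im| * ‖g₂ - g₁‖) := by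
      gcongr
      linarith
    linarith
  have h3 := hconv₂ h1 h2 (sub_nonneg.2 hδ1.le) hδ0.le (by ring)
  simp only [Complex.real_smul] at h3
  convert h3 using 1
  rw [hkdef, mul_add (δ : ℂ), mul_div_cancel₀ _ hδc]
  have e1 : x = (x.re : ℂ) + x.im * I := (Complex.re_add_im x).symm
  have e2 : ((1 - δ : ℝ) : ℂ) * ((1 - x) * g₁ + x * g₂) = ((1 - δ : ℝ) : ℂ) *
      ((1 - ((x.re : ℂ) + x.im * I)) * g₁ + ((x.re : ℂ) + x.im * I) * g₂) := by rw [← e1]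
  rw [e2]
  push_cast
  ring

theorem mix_mem {C₁ C₂ : Set ℂ} (hcl : IsClosed C₁) (hconv : Convex ℝ C₁) {c₀ : ℂ}
    (hc₀ : c₀ ∈ interior C₁) (hmix : Mixable C₁) (hconv₂ : Convex ℝ C₂) {k₀ : ℂ} {ρ : ℝ}
    (hρ : 0 < ρ) (hk : closedBall k₀ ρ ⊆ C₂) {w₁ w₂ : ℂ} (hw₁ : w₁ ∈ W C₁ C₂) (hw₂ : w₂ ∈ W C₁ C₂)
    {s t : ℝ} (hs : 0 ≤ s) (ht : 0 ≤ t) (hst : s + t = 1) :
    (s : ℂ) * w₁ + (t : ℂ) * w₂ ∈ closure (W C₁ C₂) := by
  rw [Metric.mem_closure_iff]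
  intro ε hε
  set η : ℝ := ε / 4 with hη
  have hη0 : 0 < η := by positivity
  obtain ⟨H₁, i1, i2, i3, S₁, f₁, B₁, V₁, x₁, U₁, hS₁, hσ₁, hV₁, hsub₁, hf₁, hfC₁, hU₁, hSU₁, hB₁,
    hx₁, hv₁⟩ := approx1 hcl hconv hc₀ hw₁ hη0
  obtain ⟨H₂, j1, j2, j3, S₂, f₂, B₂, V₂, x₂, U₂, hS₂, hσ₂, hV₂, hsub₂, hf₂, hfC₂, hU₂, hSU₂, hB₂,
    hx₂, hv₂⟩ := approx1 hcl hconv hc₀ hw₂ hη0
  have hn₁ : Nontrivial H₁ := ⟨x₁, 0, fun h => by rw [h, norm_zero] at hx₁; exact zero_ne_one hx₁⟩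
  have hn₂ : Nontrivial H₂ := ⟨x₂, 0, fun h => by rw [h, norm_zero] at hx₂; exact zero_ne_one hx₂⟩
  obtain ⟨G, hG, hσG, hGint, hGc⟩ := exists_open_between_and_isCompact_closure
    ((spectrum.isCompact S₁).union (spectrum.isCompact S₂)) isOpen_interior
    (union_subset hσ₁ hσ₂)
  set K := closure G with hK
  have hGK : G ⊆ K := subset_closure
  have hKC : K ⊆ C₁ := hGint.trans interior_subset
  obtain ⟨κ₁, hκ₁, hb₁⟩ := exists_bound_open (hG.inter hU₁)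
    (subset_inter (subset_union_left.trans hσG) hSU₁)
  obtain ⟨κ₂, hκ₂, hb₂⟩ := exists_bound_open (hG.inter hU₂)
    (subset_inter (subset_union_right.trans hσG) hSU₂)
  set e : ℝ := η / (κ₁ + κ₂) with he
  have he0 : 0 < e := by positivity
  have hκe₁ : κ₁ * e ≤ η := by
    rw [he, mul_div_assoc', div_le_iff₀ (by positivity)]
    nlinarith
  have hκe₂ : κ₂ * e ≤ η := by
    rw [he, mul_div_assoc', div_le_iff₀ (by positivity)]
    nlinarith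
  -- bounds of `f₁`, `f₂` on `K`
  obtain ⟨m₁, hm₁⟩ := hGc.exists_bound_of_continuousOn (hf₁.continuousOn.mono (hKC.trans hsub₁))
  obtain ⟨m₂, hm₂⟩ := hGc.exists_bound_of_continuousOn (hf₂.continuousOn.mono (hKC.trans hsub₂))
  set m : ℝ := max 0 (max m₁ m₂) with hm
  have hm0 : 0 ≤ m := le_max_left _ _
  have hm₁' : ∀ z ∈ K, ‖f₁ z‖ ≤ m := fun z hz =>
    (hm₁ z hz).trans ((le_max_left _ _).trans (le_max_right _ _))
  have hm₂' : ∀ z ∈ K, ‖f₂ z‖ ≤ m := fun z hz =>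
    (hm₂ z hz).trans ((le_max_right _ _).trans (le_max_right _ _))
  obtain ⟨δ, hδ0, hδ⟩ := exists_between
    (show (0 : ℝ) < min 1 (e / 3 / (‖k₀‖ + m + 1)) by positivity)
  have hδ1 : δ < 1 := hδ.trans_le (min_le_left _ _)
  have hδe : δ * (‖k₀‖ + m) ≤ e / 3 := by
    have h1 : δ * (‖k₀‖ + m + 1) < e / 3 := by
      rw [← lt_div_iff₀ (by positivity)]
      exact hδ.trans_le (min_le_right _ _)
    nlinarith
  -- uniform continuity near `K`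
  obtain ⟨r, hr, hrV⟩ := hGc.exists_cthickening_subset_open (hV₁.inter hV₂)
    (subset_inter (hKC.trans hsub₁) (hKC.trans hsub₂))
  have hKr : IsCompact (cthickening r K) := hGc.cthickening
  have huc₁ := hKr.uniformContinuousOn_of_continuous
    (hf₁.continuousOn.mono (hrV.trans inter_subset_left))
  have huc₂ := hKr.uniformContinuousOn_of_continuous
    (hf₂.continuousOn.mono (hrV.trans inter_subset_right))
  rw [Metric.uniformContinuousOn_iff] at huc₁ huc₂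
  obtain ⟨d₁, hd₁, hdf₁⟩ := huc₁ (e / 3) (by positivity)
  obtain ⟨d₂, hd₂, hdf₂⟩ := huc₂ (e / 3) (by positivity)
  obtain ⟨⟨θ, Vθ, L, hVθ, hsubθ, hθd, hL, hLC, hθL, hθK⟩, -⟩ := hmix K hGc hGint
    (min r (min (d₁ / 2) (d₂ / 2))) (by positivity)
  have hθK' : ∀ z ∈ K, θ z ∈ cthickening r K ∧ dist (θ z) z < d₁ ∧ dist (θ z) z < d₂ := by
    intro z hz
    have h1 := hθK z hz
    rw [← dist_eq_norm] at h1
    refine ⟨?_, ?_, ?_⟩
    · refine closedBall_subset_cthickening hz r ?_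
      rw [mem_closedBall]
      exact h1.trans (min_le_left _ _)
    · refine lt_of_le_of_lt (h1.trans ((min_le_right _ _).trans (min_le_left _ _))) (by linarith)
    · refine lt_of_le_of_lt (h1.trans ((min_le_right _ _).trans (min_le_right _ _))) (by linarith)
  have hKr' : K ⊆ cthickening r K := self_subset_cthickening K
  have hfθ₁ : ∀ z ∈ K, ‖f₁ (θ z) - f₁ z‖ ≤ e / 3 := fun z hz => by
    have h1 := hdf₁ _ (hθK' z hz).1 _ (hKr' hz) (hθK' z hz).2.1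
    rw [dist_eq_norm] at h1
    exact h1.le
  have hfθ₂ : ∀ z ∈ K, ‖f₂ (θ z) - f₂ z‖ ≤ e / 3 := fun z hz => by
    have h1 := hdf₂ _ (hθK' z hz).1 _ (hKr' hz) (hθK' z hz).2.2
    rw [dist_eq_norm] at h1
    exact h1.le
  -- bounds of `f₁ ∘ θ`, `f₂ ∘ θ` on `C₁`
  obtain ⟨M₁, hM₁⟩ := hL.exists_bound_of_continuousOn (hf₁.continuousOn.mono (hLC.trans hsub₁))
  obtain ⟨M₂, hM₂⟩ := hL.exists_bound_of_continuousOn (hf₂.continuousOn.mono (hLC.trans hsub₂))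
  set M : ℝ := max 0 (max M₁ M₂) with hM
  have hM0 : 0 ≤ M := le_max_left _ _
  have hM₁' : ∀ z ∈ C₁, ‖f₁ (θ z)‖ ≤ M := fun z hz =>
    (hM₁ _ (hθL z hz)).trans ((le_max_left _ _).trans (le_max_right _ _))
  have hM₂' : ∀ z ∈ C₁, ‖f₂ (θ z)‖ ≤ M := fun z hz =>
    (hM₂ _ (hθL z hz)).trans ((le_max_right _ _).trans (le_max_right _ _))
  set ε₂ : ℝ := min (e / 3) (δ * ρ) / (2 * M + 1) with hε₂
  have hε₂0 : 0 < ε₂ := by positivity
  have hε₂1 : 2 * M * ε₂ ≤ min (e / 3) (δ * ρ) := by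
    rw [hε₂, mul_div_assoc', div_le_iff₀ (by positivity)]
    have : 0 < min (e / 3) (δ * ρ) := by positivity
    nlinarith
  obtain ⟨-, a, b, χ, Vχ, ha, hab, hab', hVχ, hsubχ, hχd, hχC, hχK, hχA⟩ := hmix K hGc hGint
    ε₂ hε₂0
  -- the mixed function
  set F : ℂ → ℂ := fun z => ((1 - δ : ℝ) : ℂ) * ((1 - χ z) * f₁ (θ z) +
    χ z * f₂ (θ (a⁻¹ * (z - b)))) + (δ : ℂ) * k₀ with hF
  set W₁ : Set ℂ := Vθ ∩ θ ⁻¹' V₁ with hW₁
  set W₂ : Set ℂ := Vθ ∩ θ ⁻¹' V₂ with hW₂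
  have hW₁o : IsOpen W₁ := hθd.continuousOn.isOpen_inter_preimage hVθ hV₁
  have hW₂o : IsOpen W₂ := hθd.continuousOn.isOpen_inter_preimage hVθ hV₂
  have hC₁W₁ : C₁ ⊆ W₁ := fun z hz => ⟨hsubθ hz, hsub₁ (hLC (hθL z hz))⟩
  have hC₁W₂ : C₁ ⊆ W₂ := fun z hz => ⟨hsubθ hz, hsub₂ (hLC (hθL z hz))⟩
  have hg₁d : DifferentiableOn ℂ (fun z => f₁ (θ z)) W₁ :=
    hf₁.comp (hθd.mono inter_subset_left) fun z hz => hz.2
  have hg₂d : DifferentiableOn ℂ (fun z => f₂ (θ z)) W₂ :=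
    hf₂.comp (hθd.mono inter_subset_left) fun z hz => hz.2
  have hAinv : Continuous fun z : ℂ => a⁻¹ * (z - b) := by fun_prop
  set W₃ : Set ℂ := (fun z : ℂ => a⁻¹ * (z - b)) ⁻¹' W₂ with hW₃
  have hW₃o : IsOpen W₃ := hW₂o.preimage hAinv
  have hC₁W₃ : C₁ ⊆ W₃ := fun z hz => hC₁W₂ (hab' z hz)
  have hg₃d : DifferentiableOn ℂ (fun z => f₂ (θ (a⁻¹ * (z - b)))) W₃ :=
    hg₂d.comp (f := fun z : ℂ => a⁻¹ * (z - b)) (by fun_prop) fun z hz => hz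
  set VF : Set ℂ := (Vχ ∩ W₁) ∩ W₃ with hVF
  have hVFo : IsOpen VF := (hVχ.inter hW₁o).inter hW₃o
  have hC₁VF : C₁ ⊆ VF := subset_inter (subset_inter hsubχ hC₁W₁) hC₁W₃
  have hFd : DifferentiableOn ℂ F VF := by
    have e1 : DifferentiableOn ℂ χ VF := hχd.mono (inter_subset_left.trans inter_subset_left)
    have e2 := hg₁d.mono ((inter_subset_left.trans inter_subset_right : VF ⊆ W₁))
    have e3 := hg₃d.mono (inter_subset_right : VF ⊆ W₃)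
    exact ((differentiableOn_const _).mul ((((differentiableOn_const _).sub e1).mul e2).add
      (e1.mul e3))).add (differentiableOn_const _)
  have hFC : F '' C₁ ⊆ C₂ := by
    rintro _ ⟨z, hz, rfl⟩
    obtain ⟨h1, h2, h3⟩ := hχC z hz
    exact mix_value hconv₂ hk (hfC₁ ⟨_, hLC (hθL z hz), rfl⟩)
      (hfC₂ ⟨_, hLC (hθL _ (hab' z hz)), rfl⟩) hδ0 hδ1 (hM₁' z hz) (hM₂' _ (hab' z hz))
      (hε₂1.trans (min_le_right _ _)) h1 h2 h3
  -- `F` is close to `f₁` on `K`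
  have hF₁ : ∀ z ∈ K, ‖F z - f₁ z‖ ≤ e := by
    intro z hz
    have hzC := hKC hz
    have e1 : F z - f₁ z = ((1 - δ : ℝ) : ℂ) * ((f₁ (θ z) - f₁ z) +
        χ z * (f₂ (θ (a⁻¹ * (z - b))) - f₁ (θ z))) + (δ : ℂ) * (k₀ - f₁ z) := by
      simp only [hF]; push_cast; ring
    have e2 : ‖f₂ (θ (a⁻¹ * (z - b))) - f₁ (θ z)‖ ≤ 2 * M :=
      (norm_sub_le _ _).trans (by linarith [hM₁' z hzC, hM₂' _ (hab' z hzC)])
    rw [e1]
    calc _ ≤ ‖((1 - δ : ℝ) : ℂ) * ((f₁ (θ z) - f₁ z) +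
        χ z * (f₂ (θ (a⁻¹ * (z - b))) - f₁ (θ z)))‖ + ‖(δ : ℂ) * (k₀ - f₁ z)‖ := norm_add_le _ _
      _ ≤ 1 * (e / 3 + ε₂ * (2 * M)) + δ * (‖k₀‖ + m) := by
          rw [norm_mul, norm_mul, Complex.norm_real, Complex.norm_real, Real.norm_eq_abs,
            Real.norm_eq_abs, abs_of_pos hδ0, abs_of_pos (by linarith : (0 : ℝ) < 1 - δ)]
          gcongr
          · linarith
          · refine (norm_add_le _ _).trans ?_
            rw [norm_mul]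
            gcongr
            · exact hfθ₁ z hz
            · exact hχK z hz
          · exact (norm_sub_le _ _).trans (by gcongr; exact hm₁' z hz)
      _ ≤ e := by
          have := hε₂1.trans (min_le_left _ _)
          linarith
  have hF₂ : ∀ z ∈ K, ‖F (a * z + b) - f₂ z‖ ≤ e := by
    intro z hz
    have hzC := hKC hz
    have e0 : a⁻¹ * (a * z + b - b) = z := by
      rw [add_sub_cancel_right, ← mul_assoc, inv_mul_cancel₀ ha, one_mul]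
    have e1 : F (a * z + b) - f₂ z = ((1 - δ : ℝ) : ℂ) * ((f₂ (θ z) - f₂ z) +
        (χ (a * z + b) - 1) * (f₂ (θ z) - f₁ (θ (a * z + b)))) + (δ : ℂ) * (k₀ - f₂ z) := by
      simp only [hF, e0]; push_cast; ring
    have e2 : ‖f₂ (θ z) - f₁ (θ (a * z + b))‖ ≤ 2 * M :=
      (norm_sub_le _ _).trans (by linarith [hM₂' z hzC, hM₁' _ (hab z hzC)])
    rw [e1]
    calc _ ≤ ‖((1 - δ : ℝ) : ℂ) * ((f₂ (θ z) - f₂ z) +
        (χ (a * z + b) - 1) * (f₂ (θ z) - f₁ (θ (a * z + b))))‖ + ‖(δ : ℂ) * (k₀ - f₂ z)‖ :=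
          norm_add_le _ _
      _ ≤ 1 * (e / 3 + ε₂ * (2 * M)) + δ * (‖k₀‖ + m) := by
          rw [norm_mul, norm_mul, Complex.norm_real, Complex.norm_real, Real.norm_eq_abs,
            Real.norm_eq_abs, abs_of_pos hδ0, abs_of_pos (by linarith : (0 : ℝ) < 1 - δ)]
          gcongr
          · linarith
          · refine (norm_add_le _ _).trans ?_
            rw [norm_mul]
            gcongr
            · exact hfθ₂ z hz
            · exact hχA z hz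
          · exact (norm_sub_le _ _).trans (by gcongr; exact hm₂' z hz)
      _ ≤ e := by
          have := hε₂1.trans (min_le_left _ _)
          linarith
  -- the mixed operator
  set T := dsum S₁ (a • S₂ + b • (1 : H₂ →L[ℂ] H₂)) with hT
  have hTC : ∀ x : WithLp 2 (H₁ × H₂), ‖x‖ = 1 → inner ℂ x (T x) ∈ C₁ := by
    refine numRange_dsum hconv hS₁ fun y hy => ?_
    rw [add_apply, inner_add_right, smul_apply, smul_apply, inner_smul_right, inner_smul_right,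
      inner_one_apply, hy]
    have := hab _ (hS₂ y hy)
    simpa using this
  obtain ⟨D, hD⟩ := hGc.isBounded.exists_norm_le
  set R : ℝ := ‖T‖ + (|D| + (‖a‖ * |D| + ‖b‖)) with hR
  have hKD : ∀ z ∈ K, ‖z‖ ≤ |D| := fun z hz => (hD z hz).trans (le_abs_self D)
  have hpos : 0 ≤ ‖a‖ * |D| + ‖b‖ := by positivity
  set K₀ : Set ℂ := C₁ ∩ closedBall 0 R with hK₀
  have hK₀c : IsCompact K₀ := (isCompact_closedBall 0 R).inter_left hcl
  have hK₀v : Convex ℝ K₀ := hconv.inter (convex_closedBall 0 R)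
  have hcomp : CompleteSpace (WithLp 2 (H₁ × H₂)) := inferInstance
  obtain ⟨x, hx, hxv⟩ := exists_combination hx₁ hx₂ hs ht hst
  have hnt : Nontrivial (WithLp 2 (H₁ × H₂)) :=
    ⟨x, 0, fun h => by rw [h, norm_zero] at hx; exact zero_ne_one hx⟩
  have hσT : spectrum ℂ T ⊆ K₀ := fun z hz => ⟨spectrum_subset_of_numRange hcl hconv hTC hz, by
    have h1 := spectrum.norm_le_norm_of_mem hz
    simp only [mem_closedBall, dist_zero_right]
    rw [hR]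
    linarith [abs_nonneg D]⟩
  have hKK₀ : K ⊆ K₀ := fun z hz => ⟨hKC hz, by
    simp only [mem_closedBall, dist_zero_right]
    rw [hR]
    linarith [hKD z hz, norm_nonneg T]⟩
  have hAKK₀ : ∀ z ∈ K, a * z + b ∈ K₀ := fun z hz => ⟨hab z (hKC hz), by
    simp only [mem_closedBall, dist_zero_right]
    refine (norm_add_le _ _).trans ?_
    rw [norm_mul, hR]
    have := mul_le_mul_of_nonneg_left (hKD z hz) (norm_nonneg a)
    linarith [abs_nonneg D, norm_nonneg T]⟩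
  obtain ⟨r₀, hr₀, hrV₀⟩ := hK₀c.exists_cthickening_subset_open hVFo (inter_subset_left.trans hC₁VF)
  obtain ⟨p, hp⟩ := (runge hK₀c.cthickening (hK₀v.cthickening r₀) hVFo hrV₀ hFd).exists_seq
  set N := thickening r₀ K₀ with hN
  have hpN : TendstoUniformlyOn (fun n z => (p n).eval z) F atTop N :=
    hp.mono (thickening_subset_cthickening _ _)
  have hK₀N : K₀ ⊆ N := self_subset_thickening hr₀ _
  have hp₁ : TendstoUniformlyOn (fun n z => (p n).eval z) F atTop (G ∩ U₁) :=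
    hpN.mono (inter_subset_left.trans ((hGK.trans hKK₀).trans hK₀N))
  have hp₂ : TendstoUniformlyOn (fun n z => ((p n).comp (C a * X + C b)).eval z)
      (fun z => F (a * z + b)) atTop (G ∩ U₂) := by
    rw [Metric.tendstoUniformlyOn_iff] at hpN ⊢
    intro ε' hε'
    filter_upwards [hpN ε' hε'] with n hn z hz
    have := hn _ (hK₀N (hAKK₀ z (hGK hz.1)))
    simpa using this
  obtain ⟨D₁, hD₁⟩ := exists_aeval_lim hκ₁ hb₁ hp₁
  obtain ⟨D₂, hD₂⟩ := exists_aeval_lim hκ₂ hb₂ hp₂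
  have hDB₁ : ‖D₁ - B₁‖ ≤ κ₁ * e :=
    Calc.norm_sub_le hb₁ ⟨_, hp₁, hD₁⟩ (hB₁.mono inter_subset_right) fun z hz => hF₁ z (hGK hz.1)
  have hDB₂ : ‖D₂ - B₂‖ ≤ κ₂ * e :=
    Calc.norm_sub_le hb₂ ⟨_, hp₂, hD₂⟩ (hB₂.mono inter_subset_right) fun z hz => hF₂ z (hGK hz.1)
  have hlim : Tendsto (fun n => aeval T (p n)) atTop (𝓝 (dsum D₁ D₂)) := by
    have h1 : Tendsto (fun n => (aeval S₁ (p n), aeval S₂ ((p n).comp (C a * X + C b)))) atTop
        (𝓝 (D₁, D₂)) := hD₁.prodMk_nhds hD₂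
    have h2 := (continuous_dsum.tendsto (D₁, D₂)).comp h1
    refine h2.congr fun n => ?_
    simp only [Function.comp]
    rw [hT, aeval_dsum, aeval_affine]
  refine ⟨inner ℂ x (dsum D₁ D₂ x), ⟨WithLp 2 (H₁ × H₂), inferInstance, inferInstance,
    inferInstance, T, F, dsum D₁ D₂, VF, hTC, hVFo, hC₁VF, hFd, hFC,
    ⟨p, N, isOpen_thickening, hσT.trans hK₀N, hpN, hlim⟩, x, hx, rfl⟩, ?_⟩
  have hest : ∀ {H : Type} [NormedAddCommGroup H] [InnerProductSpace ℂ H] (D B : H →L[ℂ] H) (y : H)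
      (w : ℂ) (κ : ℝ), ‖y‖ = 1 → ‖D - B‖ ≤ κ * e → κ * e ≤ η → ‖inner ℂ y (B y) - w‖ ≤ η →
      ‖inner ℂ y (D y) - w‖ ≤ 2 * η := by
    intro H _ _ D B y w κ hy h1 h2 h3
    have h4 : ‖inner ℂ y ((D - B) y)‖ ≤ η := by
      calc ‖inner ℂ y ((D - B) y)‖ ≤ ‖y‖ * ‖(D - B) y‖ := norm_inner_le_norm _ _
        _ ≤ ‖y‖ * (‖D - B‖ * ‖y‖) := by gcongr; exact (D - B).le_opNorm y
        _ ≤ η := by rw [hy]; linarith
    have e1 : inner ℂ y (D y) - w = inner ℂ y ((D - B) y) + (inner ℂ y (B y) - w) := by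
      rw [sub_apply, inner_sub_right]; ring
    rw [e1]
    exact (norm_add_le _ _).trans (by linarith)
  have h1 := hest D₁ B₁ x₁ w₁ κ₁ hx₁ hDB₁ hκe₁ hv₁
  have h2 := hest D₂ B₂ x₂ w₂ κ₂ hx₂ hDB₂ hκe₂ hv₂
  rw [dist_comm, dist_eq_norm, hxv]
  have e1 : (s : ℂ) * inner ℂ x₁ (D₁ x₁) + (t : ℂ) * inner ℂ x₂ (D₂ x₂) - (s * w₁ + t * w₂) =
      (s : ℂ) * (inner ℂ x₁ (D₁ x₁) - w₁) + (t : ℂ) * (inner ℂ x₂ (D₂ x₂) - w₂) := by ring
  rw [e1]
  calc _ ≤ ‖(s : ℂ) * (inner ℂ x₁ (D₁ x₁) - w₁)‖ + ‖(t : ℂ) * (inner ℂ x₂ (D₂ x₂) - w₂)‖ :=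
        norm_add_le _ _
    _ ≤ s * (2 * η) + t * (2 * η) := by
        rw [norm_mul, norm_mul, Complex.norm_real, Complex.norm_real, Real.norm_eq_abs,
          Real.norm_eq_abs, abs_of_nonneg hs, abs_of_nonneg ht]
        gcongr
    _ = 2 * η := by rw [← add_mul, hst, one_mul]
    _ < ε := by rw [hη]; linarith

/-- The closure of `W(C₁, C₂)` is convex when `C₁` is mixable. -/
theorem convex_closure_W {C₁ C₂ : Set ℂ} (hcl : IsClosed C₁) (hconv : Convex ℝ C₁) {c₀ : ℂ}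
    (hc₀ : c₀ ∈ interior C₁) (hmix : Mixable C₁) (hconv₂ : Convex ℝ C₂) {k₀ : ℂ} {ρ : ℝ}
    (hρ : 0 < ρ) (hk : closedBall k₀ ρ ⊆ C₂) : Convex ℝ (closure (W C₁ C₂)) := by
  intro x hx y hy s t hs ht hst
  have hc : Continuous (Function.uncurry fun a b : ℂ => s • a + t • b) := by
    have : (Function.uncurry fun a b : ℂ => s • a + t • b) = fun p : ℂ × ℂ => s • p.1 + t • p.2 :=
      rfl
    rw [this]
    fun_prop
  have := map_mem_closure₂ hc hx hy (u := closure (W C₁ C₂)) fun a ha b hb => by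
    have := mix_mem hcl hconv hc₀ hmix hconv₂ hρ hk ha hb hs ht hst
    simpa only [Complex.real_smul] using this
  rwa [closure_closure] at this

theorem interior_closure_subset_W {C₁ C₂ : Set ℂ} (hconv₂ : Convex ℝ C₂) {k₀ : ℂ} {ρ : ℝ}
    (hρ : 0 < ρ) (hk : closedBall k₀ ρ ⊆ C₂) : interior (closure (W C₁ C₂)) ⊆ W C₁ C₂ := by
  intro z hz
  obtain ⟨r, hr, hball⟩ := Metric.isOpen_iff.1 isOpen_interior z hz
  -- `z' = z + τ (z - k₀)`
  set τ : ℝ := r / (2 * (‖z - k₀‖ + 1)) with hτ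
  have hτ0 : 0 < τ := by positivity
  have hz' : z + τ * (z - k₀) ∈ closure (W C₁ C₂) := by
    apply interior_subset
    apply hball
    rw [mem_ball, dist_eq_norm, add_sub_cancel_left, norm_mul, Complex.norm_real, Real.norm_eq_abs,
      abs_of_pos hτ0, hτ, div_mul_eq_mul_div, div_lt_iff₀ (by positivity)]
    nlinarith [norm_nonneg (z - k₀)]
  rw [Metric.mem_closure_iff] at hz'
  obtain ⟨w, hw, hwd⟩ := hz' (τ * ρ) (by positivity)
  rw [dist_eq_norm] at hwd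
  set k : ℂ := k₀ + (z + τ * (z - k₀) - w) / τ with hkd
  have hτc : (τ : ℂ) ≠ 0 := by exact_mod_cast hτ0.ne'
  have hkC : k ∈ C₂ := by
    apply hk
    rw [mem_closedBall, dist_eq_norm, hkd, add_sub_cancel_left, norm_div, Complex.norm_real,
      Real.norm_eq_abs, abs_of_pos hτ0, div_le_iff₀ hτ0]
    linarith
  have h1 := star_W hconv₂ hw hkC (s := 1 / (1 + τ)) (t := τ / (1 + τ)) (by positivity)
    (by positivity) (by field_simp)
  convert h1 using 1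
  have h2 : (1 + τ : ℂ) ≠ 0 := by
    have : (1 + τ : ℝ) ≠ 0 := by positivity
    exact_mod_cast this
  rw [hkd]
  push_cast
  field_simp
  ring

end Pool.Agent.Lib.MP_c3d375_an
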