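import Mathlib

/-!
# Runge's theorem for compact convex sets
-/

open Complex Metric Set Filter Topology Polynomial

namespace Pool.Agent.Lib.MP_c3d375_an

/-- `g` can be approximated uniformly on `K` by polynomials. -/
def PA (K : Set ℂ) (g : ℂ → ℂ) : Prop :=
  ∀ ε : ℝ, 0 < ε → ∃ p : ℂ[X], ∀ z ∈ K, ‖g z - p.eval z‖ ≤ ε

namespace PA

variable {K : Set ℂ} {g h : ℂ → ℂ}

theorem poly (p : ℂ[X]) : PA K (fun z => p.eval z) := fun ε hε =>
  ⟨p, fun z _ => by simpa using hε.le⟩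

theorem congr (hg : PA K g) (hgh : EqOn g h K) : PA K h := fun ε hε => by
  obtain ⟨p, hp⟩ := hg ε hε
  exact ⟨p, fun z hz => by rw [← hgh hz]; exact hp z hz⟩

theorem add (hg : PA K g) (hh : PA K h) : PA K (fun z => g z + h z) := fun ε hε => by
  obtain ⟨p, hp⟩ := hg (ε / 2) (by positivity)
  obtain ⟨q, hq⟩ := hh (ε / 2) (by positivity)
  refine ⟨p + q, fun z hz => ?_⟩
  calc ‖g z + h z - (p + q).eval z‖ = ‖(g z - p.eval z) + (h z - q.eval z)‖ := by
        rw [eval_add]; congr 1; ring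
    _ ≤ ‖g z - p.eval z‖ + ‖h z - q.eval z‖ := norm_add_le _ _
    _ ≤ ε / 2 + ε / 2 := add_le_add (hp z hz) (hq z hz)
    _ = ε := by ring

theorem bounded (hK : IsCompact K) (hg : PA K g) : ∃ B : ℝ, 0 ≤ B ∧ ∀ z ∈ K, ‖g z‖ ≤ B := by
  obtain ⟨p, hp⟩ := hg 1 one_pos
  obtain ⟨B, hB⟩ := hK.exists_bound_of_continuousOn p.continuous.continuousOn
  refine ⟨max B 0 + 1, by positivity, fun z hz => ?_⟩
  calc ‖g z‖ = ‖p.eval z + (g z - p.eval z)‖ := by congr 1; ring
    _ ≤ ‖p.eval z‖ + ‖g z - p.eval z‖ := norm_add_le _ _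
    _ ≤ max B 0 + 1 := add_le_add ((hB z hz).trans (le_max_left _ _)) (hp z hz)

theorem mul (hK : IsCompact K) (hg : PA K g) (hh : PA K h) : PA K (fun z => g z * h z) := by
  intro ε hε
  obtain ⟨B, hB0, hB⟩ := bounded hK hg
  obtain ⟨B', hB0', hB'⟩ := bounded hK hh
  obtain ⟨q, hq⟩ := hh (min 1 (ε / (2 * (B + 1)))) (by positivity)
  have hqb : ∀ z ∈ K, ‖q.eval z‖ ≤ B' + 1 := by
    intro z hz
    calc ‖q.eval z‖ = ‖h z - (h z - q.eval z)‖ := by congr 1; ring
      _ ≤ ‖h z‖ + ‖h z - q.eval z‖ := norm_sub_le _ _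
      _ ≤ B' + 1 := add_le_add (hB' z hz) ((hq z hz).trans (min_le_left _ _))
  obtain ⟨p, hp⟩ := hg (ε / (2 * (B' + 1))) (by positivity)
  refine ⟨p * q, fun z hz => ?_⟩
  calc ‖g z * h z - (p * q).eval z‖
      = ‖g z * (h z - q.eval z) + (g z - p.eval z) * q.eval z‖ := by
        rw [eval_mul]; congr 1; ring
    _ ≤ ‖g z‖ * ‖h z - q.eval z‖ + ‖g z - p.eval z‖ * ‖q.eval z‖ := by
        refine (norm_add_le _ _).trans ?_
        rw [norm_mul, norm_mul]
    _ ≤ (B + 1) * (ε / (2 * (B + 1))) + (ε / (2 * (B' + 1))) * (B' + 1) := by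
        gcongr
        · linarith [hB z hz]
        · exact (hq z hz).trans (min_le_right _ _)
        · exact hp z hz
        · exact hqb z hz
    _ = ε := by field_simp; ring

theorem sum {ι : Type*} (s : Finset ι) {g : ι → ℂ → ℂ} (hg : ∀ i ∈ s, PA K (g i)) :
    PA K (fun z => ∑ i ∈ s, g i z) := by
  classical
  induction s using Finset.induction_on with
  | empty => simpa using poly (K := K) 0
  | insert i s hi ih =>
    have h1 := (hg i (Finset.mem_insert_self _ _)).add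
      (ih fun j hj => hg j (Finset.mem_insert_of_mem hj))
    refine h1.congr fun z _ => ?_
    simp only [Finset.sum_insert hi]

theorem of_uniform (hg : ∀ ε : ℝ, 0 < ε → ∃ g', PA K g' ∧ ∀ z ∈ K, ‖g z - g' z‖ ≤ ε) :
    PA K g := fun ε hε => by
  obtain ⟨g', h1, h2⟩ := hg (ε / 2) (by positivity)
  obtain ⟨p, hp⟩ := h1 (ε / 2) (by positivity)
  refine ⟨p, fun z hz => ?_⟩
  calc ‖g z - p.eval z‖ = ‖(g z - g' z) + (g' z - p.eval z)‖ := by congr 1; ring
    _ ≤ ‖g z - g' z‖ + ‖g' z - p.eval z‖ := norm_add_le _ _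
    _ ≤ ε / 2 + ε / 2 := add_le_add (h2 z hz) (hp z hz)
    _ = ε := by ring

theorem exists_seq (hg : PA K g) :
    ∃ p : ℕ → ℂ[X], TendstoUniformlyOn (fun n z => (p n).eval z) g atTop K := by
  have h1 : ∀ n : ℕ, ∃ p : ℂ[X], ∀ z ∈ K, ‖g z - p.eval z‖ ≤ 1 / ((n : ℝ) + 1) := fun n =>
    hg _ (by positivity)
  choose p hp using h1
  refine ⟨p, ?_⟩
  rw [Metric.tendstoUniformlyOn_iff]
  intro ε hε
  filter_upwards [tendsto_one_div_add_atTop_nhds_zero_nat.eventually (gt_mem_nhds hε)] with n hn z hz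
  rw [dist_eq_norm]
  exact (hp n z hz).trans_lt hn

end PA

theorem differentiableOn_iteratedDeriv {V : Set ℂ} (hV : IsOpen V) {f : ℂ → ℂ}
    (hf : DifferentiableOn ℂ f V) (k : ℕ) : DifferentiableOn ℂ (iteratedDeriv k f) V := by
  induction k with
  | zero => simpa using hf
  | succ k ih =>
    rw [iteratedDeriv_succ]
    exact ih.deriv hV

theorem runge_step {K V : Set ℂ} (hK : IsCompact K) (hKc : Convex ℝ K) {c : ℂ} (hc : c ∈ K)
    (hV : IsOpen V) {ρ : ℝ} (hρ : 0 < ρ) (hKV : cthickening (2 * ρ) K ⊆ V) {s t : ℝ} (hs : 0 ≤ s)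
    (hs1 : s ≤ 1) (hst : ∀ z ∈ K, |t - s| * ‖z - c‖ ≤ ρ)
    (hP : ∀ f, DifferentiableOn ℂ f V → PA K (fun z => f (c + s * (z - c)))) (f : ℂ → ℂ)
    (hf : DifferentiableOn ℂ f V) : PA K (fun z => f (c + t * (z - c))) := by
  have hw : ∀ z ∈ K, c + s * (z - c) ∈ K := by
    intro z hz
    have := hKc hc hz (sub_nonneg.2 hs1) hs (by ring)
    convert this using 1
    simp only [Complex.real_smul]
    push_cast
    ring
  have hcpt : IsCompact (cthickening (2 * ρ) K) := hK.cthickening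
  obtain ⟨M, hM⟩ := hcpt.exists_bound_of_continuousOn (hf.continuousOn.mono hKV)
  have hball : ∀ w ∈ K, closedBall w (2 * ρ) ⊆ cthickening (2 * ρ) K := fun w hw =>
    closedBall_subset_cthickening hw _
  have hM0 : 0 ≤ M := (norm_nonneg _).trans (hM c (hball c hc (mem_closedBall_self (by positivity))))
  have hder : ∀ w ∈ K, ∀ k : ℕ, ‖iteratedDeriv k f w‖ ≤ k.factorial * M / (2 * ρ) ^ k := by
    intro w hw k
    refine Complex.norm_iteratedDeriv_le_of_forall_mem_sphere_norm_le k (by positivity) ?_ ?_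
    · exact (hf.mono ((hball w hw).trans hKV)).diffContOnCl_ball (le_refl _)
    · intro z hz
      exact hM z (hball w hw (sphere_subset_closedBall hz))
  refine PA.of_uniform fun ε hε => ?_
  obtain ⟨m, hm⟩ : ∃ m : ℕ, M * (1 / 2 : ℝ) ^ m / (1 - 1 / 2) ≤ ε := by
    have : Tendsto (fun m : ℕ => M * (1 / 2 : ℝ) ^ m / (1 - 1 / 2)) atTop (𝓝 (M * 0 / (1 - 1 / 2))) :=
      ((tendsto_pow_atTop_nhds_zero_of_lt_one (by norm_num) (by norm_num)).const_mul M).div_const _
    rw [mul_zero, zero_div] at this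
    exact (this.eventually (ge_mem_nhds hε)).exists
  refine ⟨fun z => ∑ k ∈ Finset.range m, ((k.factorial : ℂ)⁻¹ * ((t - s) * (z - c)) ^ k) *
    iteratedDeriv k f (c + s * (z - c)), ?_, fun z hz => ?_⟩
  · refine PA.sum _ fun k _ => PA.mul hK ?_ (hP _ (differentiableOn_iteratedDeriv hV hf k))
    refine (PA.poly (C ((k.factorial : ℂ)⁻¹) * (C ((t - s : ℂ)) * (X - C c)) ^ k)).congr
      fun z _ => ?_
    simp
  · have hwz := hw z hz
    set w := c + s * (z - c) with hwdef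
    have e1 : c + t * (z - c) - w = (t - s) * (z - c) := by rw [hwdef]; ring
    have hn : ‖((t - s) * (z - c) : ℂ)‖ ≤ ρ := by
      rw [norm_mul, ← Complex.ofReal_sub, Complex.norm_real, Real.norm_eq_abs]
      exact hst z hz
    have hmem : c + t * (z - c) ∈ ball w (2 * ρ) := by
      rw [mem_ball, dist_eq_norm, e1]
      linarith
    have hsum := Complex.hasSum_taylorSeries_on_ball
      (hf.mono ((ball_subset_closedBall.trans (hball w hwz)).trans hKV)) hmem
    rw [e1] at hsum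
    have hterm : ∀ k : ℕ, ‖((k.factorial : ℂ)⁻¹ • ((t - s) * (z - c) : ℂ) ^ k •
        iteratedDeriv k f w)‖ ≤ M * (1 / 2 : ℝ) ^ k := by
      intro k
      rw [norm_smul, norm_smul, norm_inv, Complex.norm_natCast, norm_pow]
      calc (k.factorial : ℝ)⁻¹ * (‖((t - s) * (z - c) : ℂ)‖ ^ k * ‖iteratedDeriv k f w‖)
          ≤ (k.factorial : ℝ)⁻¹ * (ρ ^ k * (k.factorial * M / (2 * ρ) ^ k)) := by
            gcongr
            exact hder w hwz k
        _ = M * (1 / 2 : ℝ) ^ k := by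
            have : (k.factorial : ℝ) ≠ 0 := by exact_mod_cast k.factorial_ne_zero
            rw [mul_pow, one_div, inv_pow]
            field_simp
    have := norm_sub_le_of_geometric_bound_of_hasSum (by norm_num : (1 / 2 : ℝ) < 1) hterm hsum m
    rw [norm_sub_rev] at this
    refine le_trans (le_of_eq ?_) (this.trans hm)
    congr 2
    refine Finset.sum_congr rfl fun k _ => ?_
    simp only [smul_eq_mul]
    ring

/-- **Runge's theorem** for compact convex sets. -/
theorem runge {K V : Set ℂ} (hK : IsCompact K) (hKc : Convex ℝ K) (hV : IsOpen V) (hKV : K ⊆ V)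
    {f : ℂ → ℂ} (hf : DifferentiableOn ℂ f V) : PA K f := by
  rcases K.eq_empty_or_nonempty with rfl | ⟨c, hc⟩
  · exact fun ε _ => ⟨0, fun z hz => absurd hz (notMem_empty z)⟩
  obtain ⟨δ, hδ, hsub⟩ := hK.exists_cthickening_subset_open hV hKV
  set ρ : ℝ := δ / 2 with hρ
  have hρ0 : 0 < ρ := by positivity
  have hsub' : cthickening (2 * ρ) K ⊆ V := by
    rw [hρ, mul_div_cancel₀ _ (two_ne_zero' ℝ)]; exact hsub
  obtain ⟨D, hD⟩ := hK.isBounded.exists_norm_le
  have hD0 : 0 ≤ D := (norm_nonneg _).trans (hD c hc)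
  have hDc : ∀ z ∈ K, ‖z - c‖ ≤ 2 * D := fun z hz =>
    (norm_sub_le _ _).trans (by linarith [hD z hz, hD c hc])
  obtain ⟨N, hN⟩ := exists_nat_gt (2 * D / ρ)
  have hN0 : (0 : ℝ) < N := lt_of_le_of_lt (by positivity) hN
  have key : ∀ n : ℕ, n ≤ N → ∀ f, DifferentiableOn ℂ f V →
      PA K (fun z => f (c + ((n / N : ℝ) : ℂ) * (z - c))) := by
    intro n
    induction n with
    | zero =>
      intro _ f _
      refine (PA.poly (C (f c))).congr fun z _ => ?_
      simp
    | succ n ih =>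
      intro hn f hf
      refine runge_step hK hKc hc hV hρ0 hsub' (s := n / N) (t := ((n + 1 : ℕ) : ℝ) / N)
        (by positivity) ?_ ?_ (ih (by omega)) f hf
      · rw [div_le_one hN0]
        exact_mod_cast (by omega : n ≤ N)
      · intro z hz
        have e1 : ((n + 1 : ℕ) : ℝ) / N - n / N = 1 / N := by
          push_cast; ring
        rw [e1, abs_of_pos (by positivity), one_div, inv_mul_le_iff₀ hN0]
        rw [div_lt_iff₀ hρ0] at hN
        linarith [hDc z hz]
  refine (key N le_rfl f hf).congr fun z _ => ?_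
  have : ((N / N : ℝ) : ℂ) = 1 := by
    rw [div_self hN0.ne']; simp
  simp only [this, one_mul, add_sub_cancel]

end Pool.Agent.Lib.MP_c3d375_an
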