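import Pool.Agent.Lib.MP_c3d375_an.Main
import Pool.Agent.Lib.MP_c3d375_an.Bound
import Pool.Agent.Lib.MP_c3d375_an.Runge

/-!
# Spectrum and functional calculus for operators with numerical range in a closed convex set
-/

open Complex Metric Set Filter Topology Polynomial

namespace Pool.Agent.Lib.MP_c3d375_an

theorem exists_re_mul (g : StrongDual ℝ ℂ) : ∃ v : ℂ, ∀ w : ℂ, g w = (v * w).re := by
  refine ⟨g 1 - g I * I, fun w => ?_⟩
  have h1 : w = w.re • (1 : ℂ) + w.im • I := by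
    apply Complex.ext <;> simp
  have h2 : g w = w.re * g 1 + w.im * g I := by
    conv_lhs => rw [h1]
    rw [map_add, map_smul, map_smul, smul_eq_mul, smul_eq_mul]
  rw [h2]
  simp
  ring

variable {H : Type*} [NormedAddCommGroup H] [InnerProductSpace ℂ H]

theorem re_inner_ge_of_unit {S : H →L[ℂ] H} {c : ℝ}
    (h : ∀ x : H, ‖x‖ = 1 → c ≤ (inner ℂ x (S x)).re) (x : H) :
    c * ‖x‖ ^ 2 ≤ (inner ℂ x (S x)).re := by
  by_cases hx : x = 0
  · simp [hx]
  have hxn : 0 < ‖x‖ := norm_pos_iff.2 hx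
  set y : H := ((‖x‖ : ℂ)⁻¹) • x with hy
  have hyn : ‖y‖ = 1 := by
    rw [hy, norm_smul, norm_inv, Complex.norm_real, norm_norm, inv_mul_cancel₀ hxn.ne']
  have hxy : x = (‖x‖ : ℂ) • y := by
    rw [hy, smul_smul, mul_inv_cancel₀ (by exact_mod_cast hxn.ne'), one_smul]
  have h1 := h y hyn
  have h2 : inner ℂ x (S x) = ((‖x‖ ^ 2 : ℝ) : ℂ) * inner ℂ y (S y) := by
    conv_lhs => rw [hxy]
    rw [map_smul, inner_smul_left, inner_smul_right, Complex.conj_ofReal]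
    push_cast
    ring
  rw [h2, Complex.re_ofReal_mul, mul_comm]
  gcongr

/-- The spectrum lies in every closed convex set containing the numerical range. -/
theorem spectrum_subset_of_numRange [CompleteSpace H] {T : H →L[ℂ] H} {C : Set ℂ}
    (hcl : IsClosed C) (hconv : Convex ℝ C) (hT : ∀ x : H, ‖x‖ = 1 → inner ℂ x (T x) ∈ C) :
    spectrum ℂ T ⊆ C := by
  intro z hz
  by_contra hzC
  obtain ⟨g, u, hg1, hg2⟩ := geometric_hahn_banach_closed_point hconv hcl hzC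
  obtain ⟨v, hv⟩ := exists_re_mul g
  apply spectrum.mem_iff.1 hz
  rcases subsingleton_or_nontrivial H with hs | hn
  · exact isUnit_of_subsingleton _
  obtain ⟨x₀, hx₀⟩ := exists_norm_eq H (zero_le_one : (0 : ℝ) ≤ 1)
  have hv0 : v ≠ 0 := by
    rintro rfl
    have h1 := hg1 _ (hT x₀ hx₀)
    rw [hv, zero_mul] at h1
    rw [hv, zero_mul] at hg2
    linarith
  have hu : IsUnit (v • (algebraMap ℂ (H →L[ℂ] H) z - T)) := by
    refine isUnit_of_coercive _ (g z - u) (by linarith) (re_inner_ge_of_unit fun x hx => ?_)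
    have h1 := hg1 _ (hT x hx)
    rw [hv] at h1
    rw [hv z, smul_apply, sub_apply, inner_smul_right, inner_sub_right,
      Algebra.algebraMap_eq_smul_one, smul_apply, inner_smul_right, inner_one_apply, hx]
    have : (v * (z * ((1 ^ 2 : ℝ) : ℂ) - inner ℂ x (T x))).re =
        (v * z).re - (v * inner ℂ x (T x)).re := by
      rw [mul_sub, Complex.sub_re]
      simp
    rw [this]
    linarith
  have h3 := hu.smul (Units.mk0 v hv0)⁻¹
  rwa [Units.smul_def, Units.val_inv_eq_inv_val, Units.val_mk0, smul_smul, inv_mul_cancel₀ hv0,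
    one_smul] at h3

section calculus

variable {T A B : H →L[ℂ] H} {U : Set ℂ} {f g : ℂ → ℂ}

theorem Calc.norm_sub_le {C : ℝ}
    (hC : ∀ (q : ℂ[X]) (M : ℝ), (∀ z ∈ U, ‖q.eval z‖ ≤ M) → ‖aeval T q‖ ≤ C * M)
    (h : Calc T U f A) (h' : Calc T U g B) {M : ℝ} (hM : ∀ z ∈ U, ‖f z - g z‖ ≤ M) :
    ‖A - B‖ ≤ C * M := by
  obtain ⟨p, h1, h2⟩ := h
  obtain ⟨q, h3, h4⟩ := h'
  have key : ∀ ε : ℝ, 0 < ε → ‖A - B‖ ≤ C * (M + (ε + ε)) := by
    intro ε hε
    rw [Metric.tendstoUniformlyOn_iff] at h1 h3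
    refine le_of_tendsto (h2.sub h4).norm ?_
    filter_upwards [h1 ε hε, h3 ε hε] with n hn hn'
    rw [← map_sub]
    refine hC _ _ fun z hz => ?_
    have e1 := hn z hz
    have e2 := hn' z hz
    rw [dist_eq_norm] at e1 e2
    rw [eval_sub]
    calc ‖(p n).eval z - (q n).eval z‖
        = ‖(f z - g z) - (f z - (p n).eval z) + (g z - (q n).eval z)‖ := by congr 1; ring
      _ ≤ ‖f z - g z‖ + ‖f z - (p n).eval z‖ + ‖g z - (q n).eval z‖ := by
          refine (norm_add_le _ _).trans ?_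
          gcongr
          exact _root_.norm_sub_le _ _
      _ ≤ M + ε + ε := by gcongr; exact hM z hz
      _ = M + (ε + ε) := by ring
  have : Tendsto (fun ε : ℝ => C * (M + (ε + ε))) (𝓝[>] 0) (𝓝 (C * (M + (0 + 0)))) := by
    refine Tendsto.mono_left ?_ nhdsWithin_le_nhds
    exact (continuous_const.mul (continuous_const.add (continuous_id.add continuous_id))).tendsto 0
  rw [add_zero, add_zero] at this
  exact ge_of_tendsto this (eventually_nhdsWithin_of_forall fun ε hε => key ε hε)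

theorem exists_aeval_lim [CompleteSpace H] {C : ℝ} (hC0 : 0 < C)
    (hC : ∀ (q : ℂ[X]) (M : ℝ), (∀ z ∈ U, ‖q.eval z‖ ≤ M) → ‖aeval T q‖ ≤ C * M)
    {p : ℕ → ℂ[X]} (hp : TendstoUniformlyOn (fun n z => (p n).eval z) f atTop U) :
    ∃ A, Tendsto (fun n => aeval T (p n)) atTop (𝓝 A) := by
  have hcau : CauchySeq (fun n => aeval T (p n)) := by
    rw [Metric.cauchySeq_iff]
    intro ε hε
    rw [Metric.tendstoUniformlyOn_iff] at hp
    obtain ⟨N, hN⟩ := eventually_atTop.1 (hp (ε / (4 * C)) (by positivity))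
    refine ⟨N, fun m hm n hn => ?_⟩
    rw [dist_eq_norm, ← map_sub]
    have : ‖aeval T (p m - p n)‖ ≤ C * (ε / (2 * C)) := by
      refine hC _ _ fun z hz => ?_
      have h1 := hN m hm z hz
      have h2 := hN n hn z hz
      rw [eval_sub]
      rw [dist_eq_norm] at h1 h2
      calc ‖(p m).eval z - (p n).eval z‖
          = ‖(f z - (p n).eval z) - (f z - (p m).eval z)‖ := by congr 1; ring
        _ ≤ _ := norm_sub_le _ _
        _ ≤ ε / (4 * C) + ε / (4 * C) := by linarith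
        _ = ε / (2 * C) := by field_simp; ring
    refine this.trans_lt ?_
    have : C * (ε / (2 * C)) = ε / 2 := by field_simp
    rw [this]; linarith
  exact cauchySeq_tendsto_of_complete hcau

theorem aeval_affine (T : H →L[ℂ] H) (a b : ℂ) (p : ℂ[X]) :
    aeval (a • T + b • (1 : H →L[ℂ] H)) p = aeval T (p.comp (C a * X + C b)) := by
  rw [aeval_comp]
  congr 1
  simp [Algebra.algebraMap_eq_smul_one]

end calculus

/-- perturbation into the interior -/
theorem approx1 {C₁ C₂ : Set ℂ} (hcl : IsClosed C₁) (hconv : Convex ℝ C₁) {c₀ : ℂ}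
    (hc₀ : c₀ ∈ interior C₁) {w : ℂ} (hw : w ∈ W C₁ C₂) {η : ℝ} (hη : 0 < η) :
    ∃ (H : Type) (_ : NormedAddCommGroup H) (_ : InnerProductSpace ℂ H) (_ : CompleteSpace H)
      (S : H →L[ℂ] H) (f : ℂ → ℂ) (B : H →L[ℂ] H) (V : Set ℂ) (x : H) (U : Set ℂ),
      (∀ x : H, ‖x‖ = 1 → inner ℂ x (S x) ∈ C₁) ∧ spectrum ℂ S ⊆ interior C₁ ∧
      IsOpen V ∧ C₁ ⊆ V ∧ DifferentiableOn ℂ f V ∧ f '' C₁ ⊆ C₂ ∧ IsOpen U ∧ spectrum ℂ S ⊆ U ∧
      Calc S U f B ∧ ‖x‖ = 1 ∧ ‖inner ℂ x (B x) - w‖ ≤ η := by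
  obtain ⟨H, i1, i2, i3, T, f, A, V, hT, hV, hsub, hf, hfC, ⟨p₀, U₀, hU₀, hTU₀, hp1, hp2⟩, x, hx,
    rfl⟩ := hw
  have hne : Nontrivial H := ⟨x, 0, fun h => by rw [h, norm_zero] at hx; exact zero_ne_one hx⟩
  have hc₁ : c₀ ∈ C₁ := interior_subset hc₀
  set R : ℝ := ‖T‖ + ‖c₀‖ with hR
  have hR0 : 0 ≤ R := by positivity
  set K₀ : Set ℂ := C₁ ∩ closedBall 0 R with hK₀
  have hK₀c : IsCompact K₀ := (isCompact_closedBall 0 R).inter_left hcl
  have hK₀v : Convex ℝ K₀ := hconv.inter (convex_closedBall 0 R)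
  have hc₀K : c₀ ∈ K₀ := ⟨hc₁, by simp [hR]⟩
  have hσ : spectrum ℂ T ⊆ K₀ := fun z hz => ⟨spectrum_subset_of_numRange hcl hconv hT hz, by
    have h1 := spectrum.norm_le_norm_of_mem hz
    simp only [mem_closedBall, dist_zero_right]
    rw [hR]
    linarith [norm_nonneg c₀]⟩
  obtain ⟨r, hr, hrV⟩ := hK₀c.exists_cthickening_subset_open hV (inter_subset_left.trans hsub)
  have hKc : IsCompact (cthickening r K₀) := hK₀c.cthickening
  obtain ⟨p, hp⟩ := (runge hKc (hK₀v.cthickening r) hV hrV hf).exists_seq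
  set N := thickening r K₀ with hN
  have hNo : IsOpen N := isOpen_thickening
  have hNv : Convex ℝ N := hK₀v.thickening r
  have hNK : N ⊆ cthickening r K₀ := thickening_subset_cthickening _ _
  have hK₀N : K₀ ⊆ N := self_subset_thickening hr _
  have hpN : TendstoUniformlyOn (fun n z => (p n).eval z) f atTop N := hp.mono hNK
  obtain ⟨κ, hC0, hC⟩ := exists_bound_open hNo (hσ.trans hK₀N)
  -- uniform continuity
  have huc := hKc.uniformContinuousOn_of_continuous (hf.continuousOn.mono hrV)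
  rw [Metric.uniformContinuousOn_iff] at huc
  obtain ⟨d, hd, hdf⟩ := huc (η / κ) (by positivity)
  obtain ⟨D, hD⟩ := hKc.isBounded.exists_norm_le
  have hD0 : 0 ≤ D := (norm_nonneg _).trans (hD c₀ (hNK (hK₀N hc₀K)))
  obtain ⟨δ, hδ0, hδ1⟩ := exists_between (show (0 : ℝ) < min 1 (d / (2 * D + 1)) by positivity)
  have hδ2 : δ < 1 := hδ1.trans_le (min_le_left _ _)
  have hδ3 : δ * (2 * D + 1) < d := by
    rw [← lt_div_iff₀ (by positivity)]
    exact hδ1.trans_le (min_le_right _ _)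
  have hφ : ∀ s : Set ℂ, Convex ℝ s → c₀ ∈ s → ∀ z ∈ s, ((1 - δ : ℝ) : ℂ) * z + (δ : ℂ) * c₀ ∈ s := by
    intro s hs hcs z hz
    have := hs hz hcs (sub_nonneg.2 hδ2.le) hδ0.le (by ring)
    simpa only [Complex.real_smul] using this
  have hφd : ∀ z ∈ N, dist z (((1 - δ : ℝ) : ℂ) * z + (δ : ℂ) * c₀) < d := by
    intro z hz
    have e1 : z - (((1 - δ : ℝ) : ℂ) * z + (δ : ℂ) * c₀) = (δ : ℂ) * (z - c₀) := by
      push_cast; ring
    rw [dist_eq_norm, e1, norm_mul, Complex.norm_real, Real.norm_eq_abs, abs_of_pos hδ0]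
    have h1 : ‖z - c₀‖ ≤ 2 * D := (norm_sub_le _ _).trans (by
      linarith [hD z (hNK hz), hD c₀ (hNK (hK₀N hc₀K))])
    nlinarith
  set S : H →L[ℂ] H := ((1 - δ : ℝ) : ℂ) • T + ((δ : ℂ) * c₀) • (1 : H →L[ℂ] H) with hS
  have hSin : ∀ y : H, ‖y‖ = 1 → inner ℂ y (S y) = ((1 - δ : ℝ) : ℂ) * inner ℂ y (T y) +
      (δ : ℂ) * c₀ := by
    intro y hy
    rw [hS, add_apply, inner_add_right, smul_apply, smul_apply, inner_smul_right, inner_smul_right,
      inner_one_apply, hy]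
    simp
  have hSC : ∀ y : H, ‖y‖ = 1 → inner ℂ y (S y) ∈ C₁ := fun y hy => by
    rw [hSin y hy]
    exact hφ C₁ hconv hc₁ _ (hT y hy)
  -- the shrunken set
  have h1δ : ((1 - δ : ℝ) : ℂ) ≠ 0 := by
    have : (1 - δ : ℝ) ≠ 0 := by linarith
    exact_mod_cast this
  set Cδ : Set ℂ := (fun z : ℂ => (((1 - δ : ℝ) : ℂ))⁻¹ * (z - (δ : ℂ) * c₀)) ⁻¹' C₁ with hCδ
  have hCδcl : IsClosed Cδ := hcl.preimage (by fun_prop)
  have hCδconv : Convex ℝ Cδ := by
    intro a ha b hb s t hs ht hst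
    simp only [hCδ, mem_preimage] at ha hb ⊢
    have := hconv ha hb hs ht hst
    convert this using 1
    simp only [Complex.real_smul]
    have e2 : (s : ℂ) + t = 1 := by exact_mod_cast hst
    linear_combination (((1 - δ : ℝ) : ℂ)⁻¹ * ((δ : ℂ) * c₀)) * e2
  have hCδint : Cδ ⊆ interior C₁ := by
    intro z hz
    have h1 := hconv.combo_interior_self_mem_interior hc₀ hz hδ0 (sub_nonneg.2 hδ2.le) (by ring)
    convert h1 using 1
    simp only [Complex.real_smul]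
    rw [← mul_assoc, mul_inv_cancel₀ h1δ, one_mul]
    ring
  have hσS : spectrum ℂ S ⊆ interior C₁ := by
    refine (spectrum_subset_of_numRange hCδcl hCδconv fun y hy => ?_).trans hCδint
    rw [hSin y hy]
    simp only [hCδ, mem_preimage, add_sub_cancel_right]
    rw [← mul_assoc, inv_mul_cancel₀ h1δ, one_mul]
    exact hT y hy
  have hSn : ‖S‖ ≤ R := by
    rw [hS]
    refine (norm_add_le _ _).trans ?_
    rw [norm_smul, norm_smul, norm_mul, Complex.norm_real, Complex.norm_real, Real.norm_eq_abs,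
      Real.norm_eq_abs, abs_of_pos hδ0, abs_of_pos (by linarith : (0 : ℝ) < 1 - δ)]
    have h1 : ‖(1 : H →L[ℂ] H)‖ = 1 := norm_one
    rw [h1, hR]
    nlinarith [norm_nonneg T, norm_nonneg c₀]
  have hσSN : spectrum ℂ S ⊆ N := by
    intro z hz
    refine hK₀N ⟨interior_subset (hσS hz), ?_⟩
    simp only [mem_closedBall, dist_zero_right]
    exact (spectrum.norm_le_norm_of_mem hz).trans hSn
  -- calculus
  obtain ⟨A', hA'⟩ := exists_aeval_lim hC0 hC hpN
  have hAA' : A = A' :=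
    Calc.unique ⟨p₀, hp1, hp2⟩ ⟨p, hpN, hA'⟩ hU₀ hNo hTU₀ (hσ.trans hK₀N) (fun _ _ => rfl)
  have hq : TendstoUniformlyOn (fun n z => ((p n).comp (C ((1 - δ : ℝ) : ℂ) * X +
      C ((δ : ℂ) * c₀))).eval z) (fun z => f (((1 - δ : ℝ) : ℂ) * z + (δ : ℂ) * c₀)) atTop N := by
    rw [Metric.tendstoUniformlyOn_iff] at hpN ⊢
    intro ε hε
    filter_upwards [hpN ε hε] with n hn z hz
    have := hn _ (hφ N hNv (hK₀N hc₀K) z hz)
    simpa using! this
  obtain ⟨B, hB⟩ := exists_aeval_lim hC0 hC hq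
  have hSB : Tendsto (fun n => aeval S (p n)) atTop (𝓝 B) := by
    refine hB.congr fun n => ?_
    rw [hS, aeval_affine]
  refine ⟨H, i1, i2, i3, S, f, B, V, x, N, hSC, hσS, hV, hsub, hf, hfC, hNo, hσSN,
    ⟨p, hpN, hSB⟩, hx, ?_⟩
  have hBA : ‖B - A‖ ≤ κ * (η / κ) := by
    rw [hAA']
    refine Calc.norm_sub_le hC ⟨_, hq, hB⟩ ⟨p, hpN, hA'⟩ fun z hz => ?_
    have h1 := hdf _ (hNK (hφ N hNv (hK₀N hc₀K) z hz)) _ (hNK hz) (by
      rw [dist_comm]; exact hφd z hz)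
    rw [dist_eq_norm] at h1
    exact h1.le
  rw [mul_div_cancel₀ _ hC0.ne'] at hBA
  rw [← inner_sub_right, ← sub_apply]
  calc ‖inner ℂ x ((B - A) x)‖ ≤ ‖x‖ * ‖(B - A) x‖ := norm_inner_le_norm _ _
    _ ≤ ‖x‖ * (‖B - A‖ * ‖x‖) := by gcongr; exact (B - A).le_opNorm x
    _ ≤ η := by rw [hx]; linarith

end Pool.Agent.Lib.MP_c3d375_an
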