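import Pool.Agent.Lib.MP_c3d375_an.Kato2

/-!
# Sectors of opening `π / 2`: the arithmetic-harmonic mean argument
-/

open Complex Metric Set Filter Topology Polynomial MeasureTheory

namespace Pool.Agent.Lib.MP_c3d375_an

variable {H : Type*} [NormedAddCommGroup H] [InnerProductSpace ℂ H]

/-- `g(T)` is accretive. -/
def Acc (T : H →L[ℂ] H) (R : ℝ) (g : ℂ → ℂ) : Prop :=
  ∀ A, Calc T (closedBall 0 R) g A → ∀ x, 0 ≤ (inner ℂ x (A x)).re

section

variable {T : H →L[ℂ] H} {R R' : ℝ} {f g h : ℂ → ℂ}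

theorem Acc.congr (hg : Acc T R g) (hgh : EqOn g h (closedBall 0 R)) : Acc T R h :=
  fun A hA => hg A (hA.congr hgh.symm)

theorem Acc.half_add [CompleteSpace H] (hT : NumContr T) (hR : 1 < R) (hRR' : R < R')
    (hdg : DifferentiableOn ℂ g (ball 0 R')) (hdh : DifferentiableOn ℂ h (ball 0 R'))
    (hg : Acc T R g) (hh : Acc T R h) {k : ℝ} (hk : 0 ≤ k) :
    Acc T R (fun z => (k : ℂ) * (g z + h z)) := by
  intro A hA x
  obtain ⟨B, hB⟩ := hT.exists_calc hR hRR' hdg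
  obtain ⟨D, hD⟩ := hT.exists_calc hR hRR' hdh
  have := hT.unique hR hA ((hB.add hD).smul (k : ℂ)) (fun _ _ => rfl)
  rw [this, smul_apply, inner_smul_right, Complex.re_ofReal_mul, add_apply, inner_add_right,
    Complex.add_re]
  exact mul_nonneg hk (add_nonneg (hg B hB x) (hh D hD x))

theorem Acc.inv [CompleteSpace H] (hT : NumContr T) (hR : 1 < R) (hRR' : R < R')
    (hdg : DifferentiableOn ℂ g (ball 0 R')) (hg0 : ∀ z ∈ closedBall 0 R, g z ≠ 0)
    (hg : Acc T R g) : Acc T R (fun z => (g z)⁻¹) := by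
  intro A hA x
  obtain ⟨B, hB⟩ := hT.exists_calc hR hRR' hdg
  have h1 := hB.mul (isCompact_closedBall 0 R) hA
  have h2 : B * A = 1 := by
    have := hT.unique hR h1 (Calc.const (T := T) (1 : ℂ)) (fun z hz => mul_inv_cancel₀ (hg0 z hz))
    rw [this, one_smul]
  have h3 : x = B (A x) := by
    have := congrArg (fun S : H →L[ℂ] H => S x) h2
    simpa using this.symm
  have h4 := hg B hB (A x)
  rw [← h3] at h4
  rw [← inner_conj_symm, Complex.conj_re]
  exact h4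

theorem Acc.kato [CompleteSpace H] (hT : NumContr T) (hR : 1 < R) (hRR' : R < R')
    (hdg : DifferentiableOn ℂ g (ball 0 R')) (hre : ∀ z ∈ closedBall 0 1, 0 ≤ (g z).re) {k : ℝ}
    (hk : (g 0).re ≤ k) : Acc T R (fun z => g z + k) := by
  intro A hA x
  obtain ⟨B, hB⟩ := hT.exists_calc hR hRR' hdg
  have h1 := hT.unique hR hA (hB.add (Calc.const (T := T) (k : ℂ))) (fun _ _ => rfl)
  have h2 := MP_c3d375_an.kato hT (closedBall_subset_closedBall hR.le) hB hre x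
  rw [h1, add_apply, inner_add_right, smul_apply, inner_smul_right]
  have h3 : ((1 : H →L[ℂ] H) x) = x := rfl
  rw [h3, inner_self_eq, Complex.add_re, Complex.re_ofReal_mul, Complex.ofReal_re]
  have h4 : 0 ≤ ‖x‖ ^ 2 := by positivity
  have h5 : (g 0).re * ‖x‖ ^ 2 ≤ k * ‖x‖ ^ 2 := mul_le_mul_of_nonneg_right hk h4
  linarith

theorem Acc.lim [CompleteSpace H] (hT : NumContr T) (hR : 1 < R) (hRR' : R < R')
    {s : ℕ → ℂ → ℂ} (hds : ∀ n, DifferentiableOn ℂ (s n) (ball 0 R'))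
    (hs : ∀ n, Acc T R (s n)) (hlim : TendstoUniformlyOn s f atTop (closedBall 0 R)) :
    Acc T R f := by
  intro A hA x
  have h1 : ∀ n, ∃ B, Calc T (closedBall 0 R) (s n) B := fun n => hT.exists_calc hR hRR' (hds n)
  choose B hB using h1
  obtain ⟨C, hC0, hC⟩ := hT.exists_bound hR
  have h2 : Tendsto B atTop (𝓝 A) := by
    rw [Metric.tendsto_atTop]
    intro ε hε
    rw [Metric.tendstoUniformlyOn_iff] at hlim
    obtain ⟨N, hN⟩ := eventually_atTop.1 (hlim (ε / (2 * C)) (by positivity))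
    refine ⟨N, fun n hn => ?_⟩
    have h3 : Calc T (closedBall 0 R) (fun z => s n z + (-1) * f z) (B n + (-1 : ℂ) • A) :=
      (hB n).add (hA.smul (-1))
    have h4 := h3.norm_le_of hC (M := ε / (2 * C)) (fun z hz => by
      have := hN n hn z hz
      rw [dist_comm, dist_eq_norm] at this
      rw [neg_one_mul, ← sub_eq_add_neg]
      exact this.le)
    rw [dist_eq_norm, sub_eq_add_neg, ← neg_one_smul ℂ A]
    refine h4.trans_lt ?_
    have : C * (ε / (2 * C)) = ε / 2 := by field_simp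
    rw [this]; linarith
  have h5 : Tendsto (fun n => (inner ℂ x (B n x)).re) atTop (𝓝 (inner ℂ x (A x)).re) := by
    have h4 : Tendsto (fun n => (B n) x) atTop (𝓝 (A x)) :=
      (ContinuousLinearMap.apply ℂ H x).continuous.tendsto A |>.comp h2
    exact (Complex.continuous_re.tendsto _).comp (tendsto_const_nhds.inner h4)
  exact ge_of_tendsto' h5 fun n => hs n (B n) (hB n) x

end

/-- the Cayley-type quotient of the Newton iteration -/
noncomputable def kap (w : ℂ) : ℂ := (1 + w ^ 2 - w) / (1 + w ^ 2 + w)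

theorem norm_sub_lt_norm_add {w : ℂ} (hw : 0 < w.re) :
    ‖1 + w ^ 2 - w‖ < ‖1 + w ^ 2 + w‖ := by
  rw [← sq_lt_sq₀ (norm_nonneg _) (norm_nonneg _), ← Complex.normSq_eq_norm_sq,
    ← Complex.normSq_eq_norm_sq]
  have h : Complex.normSq (1 + w ^ 2 + w) - Complex.normSq (1 + w ^ 2 - w) =
      4 * (w.re * (1 + w.re ^ 2 + w.im ^ 2)) := by
    simp only [Complex.normSq_apply, Complex.add_re, Complex.sub_re, Complex.add_im,
      Complex.sub_im, Complex.one_re, Complex.one_im, pow_two, Complex.mul_re, Complex.mul_im]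
    ring
  have : 0 < 4 * (w.re * (1 + w.re ^ 2 + w.im ^ 2)) := by positivity
  linarith

theorem kap_den_ne {w : ℂ} (hw : 0 < w.re) : 1 + w ^ 2 + w ≠ 0 := by
  intro h
  have := norm_sub_lt_norm_add hw
  rw [h, norm_zero] at this
  exact absurd this (not_lt.2 (norm_nonneg _))

theorem norm_kap_lt {w : ℂ} (hw : 0 < w.re) : ‖kap w‖ < 1 := by
  rw [kap, norm_div, div_lt_one (norm_pos_iff.2 (kap_den_ne hw))]
  exact norm_sub_lt_norm_add hw

theorem ne_of_norm_lt_one {k : ℂ} (hk : ‖k‖ < 1) : 1 + k ≠ 0 ∧ 1 - k ≠ 0 := by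
  constructor
  · intro h
    have : k = -1 := by linear_combination h
    rw [this] at hk
    simp at hk
  · intro h
    have : k = 1 := by linear_combination -h
    rw [this] at hk
    simp at hk

/-- arithmetic means -/
noncomputable def sN (n : ℕ) (w : ℂ) : ℂ := w * (1 + kap w ^ 2 ^ n) / (1 - kap w ^ 2 ^ n)

/-- harmonic means -/
noncomputable def tN (n : ℕ) (w : ℂ) : ℂ := w * (1 - kap w ^ 2 ^ n) / (1 + kap w ^ 2 ^ n)

theorem norm_kap_pow_lt {w : ℂ} (hw : 0 < w.re) (n : ℕ) : ‖kap w ^ 2 ^ n‖ < 1 := by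
  rw [norm_pow]
  exact pow_lt_one₀ (norm_nonneg _) (norm_kap_lt hw) (by positivity)

theorem sN_zero {w : ℂ} (hw : 0 < w.re) : sN 0 w = w ^ 2 + 1 := by
  have h1 := kap_den_ne hw
  have h0 : w ≠ 0 := by rintro rfl; simp at hw
  have h2 := (ne_of_norm_lt_one (norm_kap_lt hw)).2
  rw [sN, pow_zero, pow_one, div_eq_iff h2, kap]
  field_simp
  ring

theorem tN_zero {w : ℂ} (hw : 0 < w.re) : tN 0 w = ((w ^ 2)⁻¹ + 1)⁻¹ := by
  have h1 := kap_den_ne hw
  have h0 : w ≠ 0 := by rintro rfl; simp at hw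
  have h2 := (ne_of_norm_lt_one (norm_kap_lt hw)).1
  have h3 : 1 + w ^ 2 ≠ 0 := by
    intro h
    apply h2
    have h5 : 1 + kap w = 2 * (1 + w ^ 2) / (1 + w ^ 2 + w) := by
      rw [kap, eq_div_iff h1, add_mul, div_mul_cancel₀ _ h1]
      ring
    rw [h5, h]
    simp
  have h4 : (w ^ 2)⁻¹ + 1 = (1 + w ^ 2) / w ^ 2 := by field_simp
  rw [tN, pow_zero, pow_one, div_eq_iff h2, kap, h4]
  field_simp
  ring

theorem sN_succ {w : ℂ} (hw : 0 < w.re) (n : ℕ) :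
    sN (n + 1) w = (1 / 2 : ℂ) * (sN n w + tN n w) := by
  obtain ⟨h1, h2⟩ := ne_of_norm_lt_one (norm_kap_pow_lt hw n)
  obtain ⟨h3, h4⟩ := ne_of_norm_lt_one (norm_kap_pow_lt hw (n + 1))
  have e : kap w ^ 2 ^ (n + 1) = (kap w ^ 2 ^ n) ^ 2 := by
    rw [← pow_mul, pow_succ]
  rw [e] at h3 h4
  rw [sN, sN, tN, e]
  clear e
  generalize kap w ^ 2 ^ n = k at *
  rw [div_add_div _ _ h2 h1, ← mul_div_assoc, div_eq_div_iff h4 (mul_ne_zero h2 h1)]
  ring

theorem tN_succ {w : ℂ} (hw : 0 < w.re) (n : ℕ) :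
    tN (n + 1) w = ((1 / 2 : ℂ) * ((sN n w)⁻¹ + (tN n w)⁻¹))⁻¹ := by
  obtain ⟨h1, h2⟩ := ne_of_norm_lt_one (norm_kap_pow_lt hw n)
  obtain ⟨h3, h4⟩ := ne_of_norm_lt_one (norm_kap_pow_lt hw (n + 1))
  have h0 : w ≠ 0 := by rintro rfl; simp at hw
  have e : kap w ^ 2 ^ (n + 1) = (kap w ^ 2 ^ n) ^ 2 := by
    rw [← pow_mul, pow_succ]
  rw [e] at h3 h4
  rw [tN, sN, tN, e]
  clear e
  generalize kap w ^ 2 ^ n = k at *
  have h5 : (1 / 2 : ℂ) * ((w * (1 + k) / (1 - k))⁻¹ + (w * (1 - k) / (1 + k))⁻¹) =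
      (1 + k ^ 2) / (w * (1 - k ^ 2)) := by
    rw [inv_div, inv_div, div_add_div _ _ (mul_ne_zero h0 h1) (mul_ne_zero h0 h2),
      ← mul_div_assoc, div_eq_div_iff (mul_ne_zero (mul_ne_zero h0 h1) (mul_ne_zero h0 h2))
        (mul_ne_zero h0 h4)]
    ring
  rw [h5, inv_div]

theorem sN_ne {w : ℂ} (hw : 0 < w.re) (n : ℕ) : sN n w ≠ 0 := by
  obtain ⟨h1, h2⟩ := ne_of_norm_lt_one (norm_kap_pow_lt hw n)
  have h0 : w ≠ 0 := by rintro rfl; simp at hw
  exact div_ne_zero (mul_ne_zero h0 h1) h2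

theorem tN_ne {w : ℂ} (hw : 0 < w.re) (n : ℕ) : tN n w ≠ 0 := by
  obtain ⟨h1, h2⟩ := ne_of_norm_lt_one (norm_kap_pow_lt hw n)
  have h0 : w ≠ 0 := by rintro rfl; simp at hw
  exact div_ne_zero (mul_ne_zero h0 h2) h1

theorem sN_sub {w : ℂ} (hw : 0 < w.re) (n : ℕ) :
    ‖sN n w - w‖ ≤ ‖w‖ * (2 * ‖kap w‖ ^ 2 ^ n / (1 - ‖kap w‖)) := by
  obtain ⟨h1, h2⟩ := ne_of_norm_lt_one (norm_kap_pow_lt hw n)
  have e : sN n w - w = w * (2 * kap w ^ 2 ^ n / (1 - kap w ^ 2 ^ n)) := by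
    rw [sN]; field_simp; ring
  have hk := norm_kap_lt hw
  rw [e, norm_mul, norm_div, norm_mul, norm_pow]
  have h3 : 0 < 1 - ‖kap w‖ := by linarith
  have h4 : 1 - ‖kap w‖ ≤ ‖1 - kap w ^ 2 ^ n‖ := by
    have h5 : ‖kap w‖ ^ 2 ^ n ≤ ‖kap w‖ :=
      pow_le_of_le_one (norm_nonneg _) hk.le (by positivity)
    have h6 := norm_sub_norm_le (1 : ℂ) (kap w ^ 2 ^ n)
    rw [norm_one, norm_pow] at h6
    linarith
  have h5 : ‖(2 : ℂ)‖ = 2 := by simp
  rw [h5]
  gcongr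

end Pool.Agent.Lib.MP_c3d375_an
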