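import Pool.Agent.Lib.MP_c3d375_an.Sector

/-!
# Sectors of opening `π / 2`
-/

open Complex Metric Set Filter Topology Polynomial MeasureTheory

namespace Pool.Agent.Lib.MP_c3d375_an

variable {H : Type*} [NormedAddCommGroup H] [InnerProductSpace ℂ H]
variable {T : H →L[ℂ] H} {R R' : ℝ} {f : ℂ → ℂ}

theorem acc_sector_one [CompleteSpace H] (hT : NumContr T) (hR : 1 < R) (hRR' : R < R')
    (hdf : DifferentiableOn ℂ f (ball 0 R')) (hsec : ∀ z ∈ ball (0 : ℂ) R', |(f z).im| < (f z).re)
    (h0 : ‖f 0‖ = 1) : Acc T R f := by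
  have hcb : closedBall (0 : ℂ) R ⊆ ball 0 R' := closedBall_subset_ball hRR'
  have hcb1 : closedBall (0 : ℂ) 1 ⊆ ball 0 R' := closedBall_subset_ball (hR.trans hRR')
  have h0mem : (0 : ℂ) ∈ ball (0 : ℂ) R' := mem_ball_self (by linarith)
  have hpos : ∀ z ∈ ball (0 : ℂ) R', 0 < (f z).re := fun z hz =>
    (abs_nonneg _).trans_lt (hsec z hz)
  have hne : ∀ z ∈ ball (0 : ℂ) R', f z ≠ 0 := fun z hz h => by
    have := hpos z hz
    rw [h] at this
    simp at this
  have hdk : DifferentiableOn ℂ (fun z => kap (f z)) (ball 0 R') := by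
    unfold kap
    refine DifferentiableOn.div ?_ ?_ fun z hz => kap_den_ne (hpos z hz)
    · exact ((differentiableOn_const 1).add (hdf.pow 2)).sub hdf
    · exact ((differentiableOn_const 1).add (hdf.pow 2)).add hdf
  have hds : ∀ n, DifferentiableOn ℂ (fun z => sN n (f z)) (ball 0 R') := by
    intro n
    unfold sN
    refine DifferentiableOn.div ?_ ?_ fun z hz =>
      (ne_of_norm_lt_one (norm_kap_pow_lt (hpos z hz) n)).2
    · exact hdf.mul ((differentiableOn_const 1).add (hdk.pow _))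
    · exact (differentiableOn_const 1).sub (hdk.pow _)
  have hdt : ∀ n, DifferentiableOn ℂ (fun z => tN n (f z)) (ball 0 R') := by
    intro n
    unfold tN
    refine DifferentiableOn.div ?_ ?_ fun z hz =>
      (ne_of_norm_lt_one (norm_kap_pow_lt (hpos z hz) n)).1
    · exact hdf.mul ((differentiableOn_const 1).sub (hdk.pow _))
    · exact (differentiableOn_const 1).add (hdk.pow _)
  have hre2 : ∀ z ∈ ball (0 : ℂ) R', 0 ≤ ((f z) ^ 2).re := by
    intro z hz
    have h := hsec z hz
    rw [pow_two, Complex.mul_re]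
    have h1 : (f z).im ^ 2 ≤ (f z).re ^ 2 := by
      rw [sq_le_sq]
      exact h.le.trans (le_abs_self _)
    nlinarith
  have hn2 : ‖(f 0) ^ 2‖ = 1 := by rw [norm_pow, h0]; simp
  -- the two starting functions
  have hA0 : Acc T R (fun z => sN 0 (f z)) := by
    have := Acc.kato hT hR hRR' (g := fun z => (f z) ^ 2) (hdf.pow 2)
      (fun z hz => hre2 z (hcb1 hz)) (k := 1) ((Complex.re_le_norm _).trans hn2.le)
    refine this.congr fun z hz => ?_
    simp only []
    rw [sN_zero (hpos z (hcb hz))]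
    simp
  have hB0 : Acc T R (fun z => tN 0 (f z)) := by
    have hd : DifferentiableOn ℂ (fun z => ((f z) ^ 2)⁻¹) (ball 0 R') :=
      (hdf.pow 2).inv fun z hz => pow_ne_zero _ (hne z hz)
    have hreinv : ∀ z ∈ ball (0 : ℂ) R', 0 ≤ (((f z) ^ 2)⁻¹).re := by
      intro z hz
      rw [Complex.inv_re]
      exact div_nonneg (hre2 z hz) (Complex.normSq_nonneg _)
    have h1 := Acc.kato hT hR hRR' (g := fun z => ((f z) ^ 2)⁻¹) hd
      (fun z hz => hreinv z (hcb1 hz)) (k := 1) ((Complex.re_le_norm _).trans (by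
        rw [norm_inv, hn2, inv_one]))
    have hne2 : ∀ z ∈ closedBall (0 : ℂ) R, ((f z) ^ 2)⁻¹ + ((1 : ℝ) : ℂ) ≠ 0 := by
      intro z hz h
      have := hreinv z (hcb hz)
      have h3 := congrArg Complex.re h
      simp only [Complex.add_re, Complex.ofReal_re, Complex.zero_re] at h3
      linarith
    have h2 := h1.inv hT hR hRR' (hd.add (differentiableOn_const _)) hne2
    refine h2.congr fun z hz => ?_
    simp only []
    rw [tN_zero (hpos z (hcb hz))]
    simp
  have hind : ∀ n, Acc T R (fun z => sN n (f z)) ∧ Acc T R (fun z => tN n (f z)) := by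
    intro n
    induction n with
    | zero => exact ⟨hA0, hB0⟩
    | succ n ih =>
      obtain ⟨h1, h2⟩ := ih
      constructor
      · have h3 := Acc.half_add hT hR hRR' (hds n) (hdt n) h1 h2 (k := 1 / 2) (by norm_num)
        refine h3.congr fun z hz => ?_
        simp only []
        rw [sN_succ (hpos z (hcb hz))]
        push_cast
        rfl
      · have hi1 := h1.inv hT hR hRR' (hds n) fun z hz => sN_ne (hpos z (hcb hz)) n
        have hi2 := h2.inv hT hR hRR' (hdt n) fun z hz => tN_ne (hpos z (hcb hz)) n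
        have hdi1 : DifferentiableOn ℂ (fun z => (sN n (f z))⁻¹) (ball 0 R') :=
          (hds n).inv fun z hz => sN_ne (hpos z hz) n
        have hdi2 : DifferentiableOn ℂ (fun z => (tN n (f z))⁻¹) (ball 0 R') :=
          (hdt n).inv fun z hz => tN_ne (hpos z hz) n
        have h3 := Acc.half_add hT hR hRR' hdi1 hdi2 hi1 hi2 (k := 1 / 2) (by norm_num)
        have hd3 : DifferentiableOn ℂ
            (fun z => ((1 / 2 : ℝ) : ℂ) * ((sN n (f z))⁻¹ + (tN n (f z))⁻¹)) (ball 0 R') :=
          (differentiableOn_const _).mul (hdi1.add hdi2)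
        have hne3 : ∀ z ∈ closedBall (0 : ℂ) R,
            ((1 / 2 : ℝ) : ℂ) * ((sN n (f z))⁻¹ + (tN n (f z))⁻¹) ≠ 0 := by
          intro z hz h
          have h4 := tN_succ (hpos z (hcb hz)) n
          have h5 := tN_ne (hpos z (hcb hz)) (n + 1)
          apply h5
          rw [h4]
          rw [inv_eq_zero]
          push_cast at h
          exact h
        refine (h3.inv hT hR hRR' hd3 hne3).congr fun z hz => ?_
        simp only []
        rw [tN_succ (hpos z (hcb hz))]
        push_cast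
        rfl
  refine Acc.lim hT hR hRR' hds (fun n => (hind n).1) ?_
  -- uniform convergence
  have hcK : ContinuousOn (fun z => ‖kap (f z)‖) (closedBall 0 R) :=
    (hdk.continuousOn.mono hcb).norm
  have hcF : ContinuousOn (fun z => ‖f z‖) (closedBall 0 R) :=
    (hdf.continuousOn.mono hcb).norm
  have hne0 : (closedBall (0 : ℂ) R).Nonempty := ⟨0, by simp; linarith⟩
  obtain ⟨z₁, hz₁, hmax₁⟩ := (isCompact_closedBall (0 : ℂ) R).exists_isMaxOn hne0 hcK
  obtain ⟨z₂, hz₂, hmax₂⟩ := (isCompact_closedBall (0 : ℂ) R).exists_isMaxOn hne0 hcF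
  set q := ‖kap (f z₁)‖ with hq
  set F := ‖f z₂‖ with hF
  have hq1 : q < 1 := norm_kap_lt (hpos z₁ (hcb hz₁))
  have hq0 : 0 ≤ q := norm_nonneg _
  have hlim : Tendsto (fun n : ℕ => F * (2 * q ^ 2 ^ n / (1 - q))) atTop (𝓝 0) := by
    have h1 : Tendsto (fun n : ℕ => q ^ 2 ^ n) atTop (𝓝 0) :=
      (tendsto_pow_atTop_nhds_zero_of_lt_one hq0 hq1).comp
        (tendsto_pow_atTop_atTop_of_one_lt (by norm_num))
    simpa using ((h1.const_mul 2).div_const (1 - q)).const_mul F
  rw [Metric.tendstoUniformlyOn_iff]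
  intro ε hε
  filter_upwards [hlim.eventually (gt_mem_nhds hε)] with n hn z hz
  rw [dist_comm, dist_eq_norm]
  refine (sN_sub (hpos z (hcb hz)) n).trans_lt (lt_of_le_of_lt ?_ hn)
  have h1 : ‖kap (f z)‖ ≤ q := hmax₁ hz
  have h2 : ‖f z‖ ≤ F := hmax₂ hz
  have h3 : 0 < 1 - q := by linarith
  have h4 : 0 < 1 - ‖kap (f z)‖ := by linarith
  have h5 : 0 ≤ 2 * ‖kap (f z)‖ ^ 2 ^ n / (1 - ‖kap (f z)‖) := by positivity
  gcongr

theorem acc_sector [CompleteSpace H] (hT : NumContr T) (hR : 1 < R) (hRR' : R < R')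
    (hdf : DifferentiableOn ℂ f (ball 0 R')) (hsec : ∀ z ∈ ball (0 : ℂ) R', |(f z).im| < (f z).re) :
    Acc T R f := by
  have h0mem : (0 : ℂ) ∈ ball (0 : ℂ) R' := mem_ball_self (by linarith)
  have hf0 : f 0 ≠ 0 := by
    intro h
    have := hsec 0 h0mem
    rw [h] at this
    simp at this
  set l : ℝ := ‖f 0‖⁻¹ with hl
  have hl0 : 0 < l := inv_pos.2 (norm_pos_iff.2 hf0)
  have h1 : Acc T R (fun z => (l : ℂ) * f z) := by
    refine acc_sector_one hT hR hRR' ((differentiableOn_const _).mul hdf) (fun z hz => ?_) ?_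
    · rw [Complex.im_ofReal_mul, Complex.re_ofReal_mul, abs_mul, abs_of_pos hl0]
      exact mul_lt_mul_of_pos_left (hsec z hz) hl0
    · rw [norm_mul, hl]
      simp [hf0]
  intro A hA x
  have h2 := h1 _ (hA.smul (l : ℂ)) x
  rw [smul_apply, inner_smul_right, Complex.re_ofReal_mul] at h2
  exact nonneg_of_mul_nonneg_right h2 hl0

/-- a neighbourhood of the closed unit disc contains a larger disc -/
theorem exists_ball_subset {V : Set ℂ} (hV : IsOpen V) (hsub : closedBall (0 : ℂ) 1 ⊆ V) :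
    ∃ R' : ℝ, 1 < R' ∧ ball (0 : ℂ) R' ⊆ V := by
  obtain ⟨δ, hδ, h⟩ := (isCompact_closedBall (0 : ℂ) 1).exists_thickening_subset_open hV hsub
  refine ⟨1 + δ, by linarith, ?_⟩
  rw [thickening_closedBall hδ zero_le_one, add_comm] at h
  exact h

/-- **Main inequality, non-strict form.** -/
theorem re_nonneg_of_sector [CompleteSpace H] (hT : NumContr T) (hR : 1 < R) {V : Set ℂ}
    (hV : IsOpen V) (hsub : closedBall (0 : ℂ) 1 ⊆ V) (hdf : DifferentiableOn ℂ f V)
    (hsec : ∀ z ∈ closedBall (0 : ℂ) 1, |(f z).im| ≤ (f z).re) {A : H →L[ℂ] H}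
    (hA : Calc T (closedBall 0 R) f A) (x : H) : 0 ≤ (inner ℂ x (A x)).re := by
  have key : ∀ δ : ℝ, 0 < δ → 0 ≤ (inner ℂ x (A x)).re + δ * ‖x‖ ^ 2 := by
    intro δ hδ
    have hcont : ContinuousOn (fun z => (f z).re + δ - |(f z).im|) V :=
      ((Complex.continuous_re.comp_continuousOn hdf.continuousOn).add continuousOn_const).sub
        (Complex.continuous_im.comp_continuousOn hdf.continuousOn).abs
    have hO : IsOpen (V ∩ (fun z => (f z).re + δ - |(f z).im|) ⁻¹' Ioi 0) :=
      hcont.isOpen_inter_preimage hV isOpen_Ioi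
    obtain ⟨R', hR', hb⟩ := exists_ball_subset hO (fun z hz => ⟨hsub hz, by
      have := hsec z hz
      simp only [mem_preimage, mem_Ioi]
      linarith⟩)
    set R₁ := min R ((1 + R') / 2) with hR₁
    have h1 : 1 < R₁ := lt_min hR (by linarith)
    have h2 : R₁ < R' := (min_le_right _ _).trans_lt (by linarith)
    have h3 : Acc T R₁ (fun z => f z + (δ : ℂ)) := by
      refine acc_sector hT h1 h2 ((hdf.mono fun z hz => (hb hz).1).add (differentiableOn_const _))
        fun z hz => ?_
      have := (hb hz).2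
      simp only [mem_preimage, mem_Ioi] at this
      simp only [Complex.add_im, Complex.ofReal_im, add_zero, Complex.add_re, Complex.ofReal_re]
      linarith
    have h4 := h3 _ ((hA.mono (closedBall_subset_closedBall (min_le_left _ _))).add
      (Calc.const (T := T) (δ : ℂ))) x
    rw [add_apply, inner_add_right, smul_apply, inner_smul_right] at h4
    have h5 : ((1 : H →L[ℂ] H) x) = x := rfl
    rw [h5, inner_self_eq, Complex.add_re, Complex.re_ofReal_mul, Complex.ofReal_re] at h4
    exact h4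
  have hlim : Tendsto (fun δ : ℝ => (inner ℂ x (A x)).re + δ * ‖x‖ ^ 2) (𝓝[>] 0)
      (𝓝 (inner ℂ x (A x)).re) := by
    have hc : Continuous fun δ : ℝ => (inner ℂ x (A x)).re + δ * ‖x‖ ^ 2 := by fun_prop
    have := (hc.tendsto 0).mono_left (nhdsWithin_le_nhds (s := Ioi (0 : ℝ)))
    simpa using this
  exact ge_of_tendsto hlim (eventually_nhdsWithin_of_forall fun δ hδ => key δ hδ)

end Pool.Agent.Lib.MP_c3d375_an
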