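import Pool.Agent.Lib.MP_c3d375_an.Calc2

/-!
# Uniqueness of the functional calculus defined near the spectrum
-/

open Complex Metric Set Filter Topology Polynomial

namespace Pool.Agent.Lib.MP_c3d375_an

variable {𝔸 : Type*} [NormedRing 𝔸] [NormedAlgebra ℂ 𝔸]

/-- difference quotient of a polynomial, with one variable in the algebra -/
noncomputable def dq (q : ℂ[X]) (T : 𝔸) (z : ℂ) : 𝔸 :=
  ∑ k ∈ Finset.range (q.natDegree + 1), q.coeff k •
    ∑ i ∈ Finset.range k, z ^ i • T ^ (k - 1 - i)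

theorem dq_differentiable (q : ℂ[X]) (T : 𝔸) : Differentiable ℂ (dq q T) := by
  unfold dq
  fun_prop

theorem dq_mul (q : ℂ[X]) (T : 𝔸) (z : ℂ) :
    (algebraMap ℂ 𝔸 z - T) * dq q T z = algebraMap ℂ 𝔸 (q.eval z) - aeval T q := by
  unfold dq
  rw [Finset.mul_sum, aeval_eq_sum_range, eval_eq_sum_range, map_sum, ← Finset.sum_sub_distrib]
  refine Finset.sum_congr rfl fun k _ => ?_
  have h := (Algebra.commutes z T : algebraMap ℂ 𝔸 z * T = T * algebraMap ℂ 𝔸 z)
  have h2 := Commute.mul_geom_sum₂ (show Commute (algebraMap ℂ 𝔸 z) T from h) k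
  rw [mul_smul_comm]
  have h3 : ∑ i ∈ Finset.range k, z ^ i • T ^ (k - 1 - i)
      = ∑ i ∈ Finset.range k, algebraMap ℂ 𝔸 z ^ i * T ^ (k - 1 - i) := by
    refine Finset.sum_congr rfl fun i _ => ?_
    rw [← map_pow, Algebra.smul_def]
  rw [h3, h2, smul_sub, map_mul, map_pow, ← Algebra.smul_def]

theorem dq_eq_resolvent (q : ℂ[X]) (T : 𝔸) {z : ℂ} (hz : z ∉ spectrum ℂ T) :
    dq q T z = resolvent T z * (algebraMap ℂ 𝔸 (q.eval z) - aeval T q) := by
  rw [← dq_mul, ← mul_assoc]
  have : resolvent T z * (algebraMap ℂ 𝔸 z - T) = 1 :=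
    Ring.inverse_mul_cancel _ (spectrum.notMem_iff.1 hz)
  rw [this, one_mul]

theorem eq_zero_of_tendsto [CompleteSpace 𝔸] [Nontrivial 𝔸] {T E : 𝔸} {U : Set ℂ} (hU : IsOpen U)
    (hTU : spectrum ℂ T ⊆ U) {q : ℕ → ℂ[X]}
    (hq : TendstoUniformlyOn (fun n z => (q n).eval z) (fun _ => 0) atTop U)
    (hE : Tendsto (fun n => aeval T (q n)) atTop (𝓝 E)) : E = 0 := by
  obtain ⟨G, hG, hTG, hGU, hGc⟩ :=
    exists_open_between_and_isCompact_closure (spectrum.isCompact T) hU hTU
  have hfr : frontier G ⊆ closure G := frontier_subset_closure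
  have hfrc : IsCompact (frontier G) := hGc.of_isClosed_subset isClosed_frontier hfr
  have hfrs : ∀ z ∈ frontier G, z ∉ spectrum ℂ T := by
    intro z hz hzs
    have := hTG hzs
    rw [hG.frontier_eq] at hz
    exact hz.2 this
  have hres : ∀ z, z ∉ spectrum ℂ T → DifferentiableAt ℂ (resolvent T) z := by
    intro z hz
    exact (spectrum.hasDerivAt_resolvent_const_left (spectrum.notMem_iff.1 hz)).differentiableAt
  have hrc : ContinuousOn (resolvent T) (frontier G) := fun z hz =>
    (hres z (hfrs z hz)).continuousAt.continuousWithinAt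
  obtain ⟨K, hK⟩ := hfrc.exists_bound_of_continuousOn hrc
  have hK0 : 0 ≤ max K 0 := le_max_right _ _
  have hK' : ∀ z ∈ frontier G, ‖resolvent T z‖ ≤ max K 0 := fun z hz =>
    (hK z hz).trans (le_max_left _ _)
  -- uniform Cauchy on closure G
  have hcau : UniformCauchySeqOn (fun n z => dq (q n) T z) atTop (closure G) := by
    rw [Metric.uniformCauchySeqOn_iff]
    intro ε hε
    rw [Metric.tendstoUniformlyOn_iff] at hq
    set δ : ℝ := ε / (4 * (max K 0 + 1) * (‖(1 : 𝔸)‖ + 1)) with hδ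
    have hδ0 : 0 < δ := by positivity
    obtain ⟨N₁, hN₁⟩ := eventually_atTop.1 (hq δ hδ0)
    have hcs := hE.cauchySeq
    rw [Metric.cauchySeq_iff] at hcs
    obtain ⟨N₂, hN₂⟩ := hcs (ε / (4 * (max K 0 + 1))) (by positivity)
    refine ⟨max N₁ N₂, fun m hm n hn z hz => ?_⟩
    rw [dist_eq_norm]
    have hd : DiffContOnCl ℂ (fun z => dq (q m) T z - dq (q n) T z) G :=
      ((dq_differentiable _ _).sub (dq_differentiable _ _)).diffContOnCl
    have hb : ∀ z ∈ frontier G, ‖dq (q m) T z - dq (q n) T z‖ ≤ 3 * ε / 4 := by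
      intro z hz
      have hzs := hfrs z hz
      have hzU : z ∈ U := hGU (hfr hz)
      rw [dq_eq_resolvent _ _ hzs, dq_eq_resolvent _ _ hzs, ← mul_sub]
      have e1 := hN₁ m ((le_max_left _ _).trans hm) z hzU
      have e2 := hN₁ n ((le_max_left _ _).trans hn) z hzU
      rw [dist_comm, dist_zero_right] at e1 e2
      have e3 := hN₂ m ((le_max_right _ _).trans hm) n ((le_max_right _ _).trans hn)
      rw [dist_eq_norm] at e3
      have e4 : ‖(algebraMap ℂ 𝔸 ((q m).eval z) - aeval T (q m)) -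
          (algebraMap ℂ 𝔸 ((q n).eval z) - aeval T (q n))‖
          ≤ δ * ‖(1 : 𝔸)‖ + δ * ‖(1 : 𝔸)‖ + ε / (4 * (max K 0 + 1)) := by
        calc _ = ‖(algebraMap ℂ 𝔸 ((q m).eval z) - algebraMap ℂ 𝔸 ((q n).eval z)) -
            (aeval T (q m) - aeval T (q n))‖ := by congr 1; abel
          _ ≤ ‖algebraMap ℂ 𝔸 ((q m).eval z) - algebraMap ℂ 𝔸 ((q n).eval z)‖ +
            ‖aeval T (q m) - aeval T (q n)‖ := norm_sub_le _ _
          _ ≤ (‖algebraMap ℂ 𝔸 ((q m).eval z)‖ + ‖algebraMap ℂ 𝔸 ((q n).eval z)‖) +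
            ‖aeval T (q m) - aeval T (q n)‖ := by gcongr; exact norm_sub_le _ _
          _ ≤ _ := by
            rw [norm_algebraMap, norm_algebraMap]
            gcongr
      have e5 : δ * ‖(1 : 𝔸)‖ ≤ ε / (4 * (max K 0 + 1)) := by
        rw [hδ, div_mul_eq_mul_div, div_le_div_iff₀ (by positivity) (by positivity)]
        have : 0 ≤ ε * (4 * (max K 0 + 1)) := by positivity
        nlinarith [norm_nonneg (1 : 𝔸)]
      calc ‖resolvent T z * _‖ ≤ ‖resolvent T z‖ * _ := norm_mul_le _ _
        _ ≤ max K 0 * (ε / (4 * (max K 0 + 1)) + ε / (4 * (max K 0 + 1))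
            + ε / (4 * (max K 0 + 1))) := by
            gcongr
            · exact hK' z hz
            · exact e4.trans (by gcongr)
        _ ≤ (max K 0 + 1) * (ε / (4 * (max K 0 + 1)) + ε / (4 * (max K 0 + 1))
            + ε / (4 * (max K 0 + 1))) := by
            gcongr
            linarith
        _ = 3 * ε / 4 := by field_simp; ring
    have := Complex.norm_le_of_forall_mem_frontier_norm_le
      (hGc.isBounded.subset subset_closure) hd hb hz
    refine this.trans_lt (by linarith)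
  have hlim : ∀ z ∈ closure G, ∃ r, Tendsto (fun n => dq (q n) T z) atTop (𝓝 r) := fun z hz =>
    cauchySeq_tendsto_of_complete (hcau.cauchySeq hz)
  choose! r hr using hlim
  have hunif : TendstoUniformlyOn (fun n z => dq (q n) T z) r atTop (closure G) :=
    hcau.tendstoUniformlyOn_of_tendsto hr
  have hrd : DifferentiableOn ℂ r G :=
    (hunif.mono subset_closure).tendstoLocallyUniformlyOn.differentiableOn
      (Eventually.of_forall fun n => (dq_differentiable _ _).differentiableOn) hG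
  have hrR : ∀ z ∈ G, z ∉ spectrum ℂ T → r z = - (resolvent T z * E) := by
    intro z hz hzs
    refine tendsto_nhds_unique (hr z (subset_closure hz)) ?_
    have h0 : Tendsto (fun n => (q n).eval z) atTop (𝓝 0) :=
      hq.tendsto_at (hGU (subset_closure hz))
    have h1 : Tendsto (fun n => resolvent T z * (algebraMap ℂ 𝔸 ((q n).eval z) - aeval T (q n)))
        atTop (𝓝 (resolvent T z * (algebraMap ℂ 𝔸 0 - E))) := by
      refine Tendsto.const_mul _ (Tendsto.sub ?_ hE)
      exact ((algebraMapCLM ℂ 𝔸).continuous.tendsto 0).comp h0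
    rw [map_zero, zero_sub, mul_neg] at h1
    refine h1.congr fun n => ?_
    rw [dq_eq_resolvent _ _ hzs]
  classical
  set F : ℂ → 𝔸 := fun z => if z ∈ G then r z else - (resolvent T z * E) with hF
  have hFd : Differentiable ℂ F := by
    intro z
    by_cases hz : z ∈ G
    · have : F =ᶠ[𝓝 z] r := by
        filter_upwards [hG.mem_nhds hz] with w hw
        simp [hF, hw]
      exact ((hrd z hz).differentiableAt (hG.mem_nhds hz)).congr_of_eventuallyEq this
    · have hzs : z ∉ spectrum ℂ T := fun h => hz (hTG h)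
      have : F =ᶠ[𝓝 z] fun z => - (resolvent T z * E) := by
        filter_upwards [(spectrum.isClosed T).isOpen_compl.mem_nhds hzs] with w hw
        by_cases hwG : w ∈ G
        · simp only [hF, hwG, if_true]
          exact hrR w hwG hw
        · simp [hF, hwG]
      refine DifferentiableAt.congr_of_eventuallyEq ?_ this
      exact ((hres z hzs).mul_const E).neg
  have hF0 : Tendsto F (cocompact ℂ) (𝓝 0) := by
    have h1 : Tendsto (fun z => - (resolvent T z * E)) (cocompact ℂ) (𝓝 0) := by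
      have := (spectrum.resolvent_tendsto_cobounded (𝕜 := ℂ) T)
      rw [Metric.cobounded_eq_cocompact] at this
      simpa using (this.mul_const E).neg
    refine h1.congr' ?_
    have h2 : (closure G)ᶜ ∈ cocompact ℂ := hGc.compl_mem_cocompact
    filter_upwards [h2] with z hz
    have : z ∉ G := fun h => hz (subset_closure h)
    simp [hF, this]
  have hF1 : ∀ z, F z = 0 := fun z => hFd.apply_eq_of_tendsto_cocompact z hF0
  -- pick a point outside G and outside the spectrum
  obtain ⟨z, hz⟩ : ∃ z : ℂ, z ∉ closure G := by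
    by_contra hcon
    push Not at hcon
    have : closure G = univ := eq_univ_of_forall hcon
    rw [this] at hGc
    exact noncompact_univ ℂ hGc
  have hzG : z ∉ G := fun h => hz (subset_closure h)
  have hzs : z ∉ spectrum ℂ T := fun h => hzG (hTG h)
  have h1 : resolvent T z * E = 0 := by
    have := hF1 z
    simp only [hF, hzG, if_false, neg_eq_zero] at this
    exact this
  have h2 : (algebraMap ℂ 𝔸 z - T) * resolvent T z = 1 :=
    Ring.mul_inverse_cancel _ (spectrum.notMem_iff.1 hzs)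
  calc E = (algebraMap ℂ 𝔸 z - T) * resolvent T z * E := by rw [h2, one_mul]
    _ = 0 := by rw [mul_assoc, h1, mul_zero]

variable {H : Type*} [NormedAddCommGroup H] [InnerProductSpace ℂ H]

theorem Calc.unique [CompleteSpace H] {T A B : H →L[ℂ] H} {U₁ U₂ : Set ℂ} {f g : ℂ → ℂ}
    (h₁ : Calc T U₁ f A) (h₂ : Calc T U₂ g B) (hU₁ : IsOpen U₁) (hU₂ : IsOpen U₂)
    (hT₁ : spectrum ℂ T ⊆ U₁) (hT₂ : spectrum ℂ T ⊆ U₂) (hfg : EqOn f g (U₁ ∩ U₂)) : A = B := by
  rcases subsingleton_or_nontrivial H with hs | hn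
  · exact Subsingleton.elim _ _
  obtain ⟨p, hp1, hp2⟩ := h₁.mono (inter_subset_left : U₁ ∩ U₂ ⊆ U₁)
  obtain ⟨q, hq1, hq2⟩ := h₂.mono (inter_subset_right : U₁ ∩ U₂ ⊆ U₂)
  have h1 : TendstoUniformlyOn (fun n z => (p n - q n).eval z) (fun _ => 0) atTop (U₁ ∩ U₂) := by
    have := (hp1.sub hq1)
    refine TendstoUniformlyOn.congr_right ?_ (f := fun z => f z - g z) ?_
    · simpa using! this
    · intro z hz
      simp [hfg hz]
  have h2 : Tendsto (fun n => aeval T (p n - q n)) atTop (𝓝 (A - B)) := by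
    simpa using hp2.sub hq2
  exact sub_eq_zero.1 (eq_zero_of_tendsto (hU₁.inter hU₂) (subset_inter hT₁ hT₂) h1 h2)

end Pool.Agent.Lib.MP_c3d375_an
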