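import Pool.Agent.Lib.MP_c3d375_an.Strict
import Pool.Agent.Lib.MP_c3d375_an.Unique

/-!
# The sets `W(C₁, C₂)`: upper bounds for discs
-/

open Complex Metric Set Filter Topology Polynomial

namespace Pool.Agent.Lib.MP_c3d375_an

/-- `W(C₁, C₂)`: the union of the numerical ranges `W(f(T))` over all admissible pairs `(T, f)`,
exactly as in the frozen statements of the problem. -/
def W (C₁ C₂ : Set ℂ) : Set ℂ :=
  {w : ℂ | ∃ (H : Type) (_ : NormedAddCommGroup H)
    (_ : InnerProductSpace ℂ H) (_ : CompleteSpace H)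
    (T : H →L[ℂ] H) (f : ℂ → ℂ) (A : H →L[ℂ] H) (V : Set ℂ),
    (∀ x : H, ‖x‖ = 1 → inner ℂ x (T x) ∈ C₁) ∧
    IsOpen V ∧ C₁ ⊆ V ∧ DifferentiableOn ℂ f V ∧ f '' C₁ ⊆ C₂ ∧
    (∃ (p : ℕ → Polynomial ℂ) (U : Set ℂ), IsOpen U ∧ spectrum ℂ T ⊆ U ∧
      TendstoUniformlyOn (fun n z => (p n).eval z) f Filter.atTop U ∧
      Filter.Tendsto (fun n => Polynomial.aeval T (p n)) Filter.atTop (nhds A)) ∧
    ∃ x : H, ‖x‖ = 1 ∧ inner ℂ x (A x) = w}

section normalise

variable {H : Type*} [NormedAddCommGroup H] [InnerProductSpace ℂ H] {T : H →L[ℂ] H}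
  {c : ℂ} {r : ℝ}

theorem numContr_of_closedBall (hr : 0 < r)
    (hT : ∀ x : H, ‖x‖ = 1 → inner ℂ x (T x) ∈ closedBall c r) :
    NumContr (((r : ℂ)⁻¹) • (T - c • 1)) := by
  have hr0 : (r : ℂ) ≠ 0 := by exact_mod_cast hr.ne'
  intro x
  by_cases hx : x = 0
  · simp [hx]
  have hxn : 0 < ‖x‖ := norm_pos_iff.2 hx
  set y : H := ((‖x‖ : ℂ)⁻¹) • x with hy
  have hyn : ‖y‖ = 1 := by
    rw [hy, norm_smul, norm_inv, Complex.norm_real, norm_norm, inv_mul_cancel₀ hxn.ne']
  have hxy : x = (‖x‖ : ℂ) • y := by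
    rw [hy, smul_smul, mul_inv_cancel₀ (by exact_mod_cast hxn.ne'), one_smul]
  have h1 := hT y hyn
  rw [mem_closedBall, dist_eq_norm] at h1
  have h2 : inner ℂ x ((((r : ℂ)⁻¹) • (T - c • (1 : H →L[ℂ] H))) x) =
      (‖x‖ : ℂ) ^ 2 * ((r : ℂ)⁻¹ * (inner ℂ y (T y) - c)) := by
    have h3 : inner ℂ y (((((r : ℂ)⁻¹) • (T - c • (1 : H →L[ℂ] H)))) y) =
        ((r : ℂ)⁻¹ * (inner ℂ y (T y) - c)) := by
      have h4 : ((((r : ℂ)⁻¹) • (T - c • (1 : H →L[ℂ] H)))) y = ((r : ℂ)⁻¹) • (T y - c • y) := rfl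
      rw [h4, inner_smul_right, inner_sub_right, inner_smul_right, inner_self_eq, hyn]
      simp
    rw [← h3]
    conv_lhs => rw [hxy]
    rw [map_smul, inner_smul_left, inner_smul_right, Complex.conj_ofReal]
    ring
  rw [h2, norm_mul, norm_mul, norm_inv, Complex.norm_real, norm_pow, Complex.norm_real, norm_norm,
    Real.norm_eq_abs, abs_of_pos hr]
  have h5 : r⁻¹ * ‖inner ℂ y (T y) - c‖ ≤ 1 := by
    rw [inv_mul_le_iff₀ hr, mul_one]
    exact h1
  nlinarith [sq_nonneg ‖x‖]

theorem spectrum_subset_closedBall [CompleteSpace H] (hr : 0 < r)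
    (hT : ∀ x : H, ‖x‖ = 1 → inner ℂ x (T x) ∈ closedBall c r) :
    spectrum ℂ T ⊆ closedBall c r := by
  have hr0 : (r : ℂ) ≠ 0 := by exact_mod_cast hr.ne'
  intro z hz
  have hS := (numContr_of_closedBall hr hT).spectrum_subset
  by_contra hcon
  rw [mem_closedBall, dist_eq_norm, not_le] at hcon
  have h1 : (r : ℂ)⁻¹ * (z - c) ∉ spectrum ℂ (((r : ℂ)⁻¹) • (T - c • (1 : H →L[ℂ] H))) := by
    intro h
    have := hS h
    rw [mem_closedBall, dist_zero_right, norm_mul, norm_inv, Complex.norm_real, Real.norm_eq_abs,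
      abs_of_pos hr, inv_mul_le_iff₀ hr, mul_one] at this
    linarith
  rw [spectrum.notMem_iff] at h1
  apply spectrum.mem_iff.1 hz
  have h2 := h1.smul (Units.mk0 (r : ℂ) hr0)
  convert h2 using 1
  rw [Units.smul_def, Units.val_mk0, smul_sub, smul_smul, mul_inv_cancel₀ hr0, one_smul,
    Algebra.algebraMap_eq_smul_one, Algebra.algebraMap_eq_smul_one, smul_smul, ← mul_assoc,
    mul_inv_cancel₀ hr0, one_mul, sub_smul]
  abel

/-- The operator `A = f(T)` in normalised coordinates. -/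
theorem exists_calc_normalised [CompleteSpace H] (hr : 0 < r)
    (hT : ∀ x : H, ‖x‖ = 1 → inner ℂ x (T x) ∈ closedBall c r) {f : ℂ → ℂ} {A : H →L[ℂ] H}
    {V U : Set ℂ} (hV : IsOpen V) (hsub : closedBall c r ⊆ V) (hf : DifferentiableOn ℂ f V)
    (hU : IsOpen U) (hTU : spectrum ℂ T ⊆ U) (hA : Calc T U f A) :
    ∃ (V' : Set ℂ) (R : ℝ), IsOpen V' ∧ closedBall 0 1 ⊆ V' ∧
      DifferentiableOn ℂ (fun z => f (c + r * z)) V' ∧ 1 < R ∧
      Calc (((r : ℂ)⁻¹) • (T - c • (1 : H →L[ℂ] H))) (closedBall 0 R) (fun z => f (c + r * z)) A := by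
  have hr0 : (r : ℂ) ≠ 0 := by exact_mod_cast hr.ne'
  set S := ((r : ℂ)⁻¹) • (T - c • (1 : H →L[ℂ] H)) with hS
  have hφ : Continuous fun z : ℂ => c + r * z := by fun_prop
  set V' := (fun z : ℂ => c + r * z) ⁻¹' V with hV'
  have hV'o : IsOpen V' := hV.preimage hφ
  have hsub' : closedBall (0 : ℂ) 1 ⊆ V' := by
    intro z hz
    apply hsub
    rw [mem_closedBall, dist_zero_right] at hz
    rw [mem_closedBall, dist_eq_norm, add_sub_cancel_left, norm_mul, Complex.norm_real,
      Real.norm_eq_abs, abs_of_pos hr]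
    nlinarith
  have hd : DifferentiableOn ℂ (fun z => f (c + r * z)) V' := by
    refine hf.comp (t := V) ?_ fun z hz => hz
    fun_prop
  obtain ⟨R', hR', hb⟩ := exists_ball_subset hV'o hsub'
  obtain ⟨R, hR1, hR2⟩ := exists_between hR'
  obtain ⟨A₀, hA₀⟩ := (numContr_of_closedBall hr hT).exists_calc hR1 hR2 (hd.mono hb)
  refine ⟨V', R, hV'o, hsub', hd, hR1, ?_⟩
  have hA₁ : Calc T (ball c (r * R)) f A₀ := by
    obtain ⟨p, hp1, hp2⟩ := hA₀
    refine ⟨fun n => (p n).comp (C (r : ℂ)⁻¹ * (X - C c)), ?_, ?_⟩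
    · rw [Metric.tendstoUniformlyOn_iff] at hp1 ⊢
      intro ε hε
      filter_upwards [hp1 ε hε] with n hn z hz
      have hz' : (r : ℂ)⁻¹ * (z - c) ∈ closedBall (0 : ℂ) R := by
        rw [mem_ball, dist_eq_norm] at hz
        rw [mem_closedBall, dist_zero_right, norm_mul, norm_inv, Complex.norm_real,
          Real.norm_eq_abs, abs_of_pos hr, inv_mul_le_iff₀ hr]
        exact hz.le
      have := hn _ hz'
      rw [← mul_assoc, mul_inv_cancel₀ hr0, one_mul, add_sub_cancel] at this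
      simpa using this
    · refine hp2.congr fun n => ?_
      rw [aeval_comp]
      congr 1
      simp [Algebra.algebraMap_eq_smul_one]
  have hspec : spectrum ℂ T ⊆ ball c (r * R) :=
    (spectrum_subset_closedBall hr hT).trans (closedBall_subset_ball (by nlinarith))
  have : A = A₀ := hA.unique hA₁ hU isOpen_ball hTU hspec fun _ _ => rfl
  rw [this]
  exact hA₀

end normalise

/-- numerical ranges for functions with values in a quarter plane -/
theorem W_upper {c : ℂ} {r : ℝ} (hr : 0 < r) {C₂ : Set ℂ} {u : ℂ} (hu : u ≠ 0) {α β : ℝ}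
    (hα : ∀ a ∈ C₂, α ≤ ((starRingEnd ℂ) u * a).re) (hβ : ∀ a ∈ C₂, β ≤ ((starRingEnd ℂ) u * a).im)
    {w : ℂ} (hw : w ∈ W (closedBall c r) C₂) :
    α + β < ((starRingEnd ℂ) u * w).re + ((starRingEnd ℂ) u * w).im ∨ w ∈ C₂ := by
  obtain ⟨H, _, _, _, T, f, A, V, hT, hV, hsub, hf, hfC, ⟨p, U, hU, hTU, hp1, hp2⟩, x, hx, rfl⟩ := hw
  obtain ⟨V', R, hV', hsub', hd, hR, hA⟩ :=
    exists_calc_normalised hr hT hV hsub hf hU hTU ⟨p, hp1, hp2⟩
  have hS := numContr_of_closedBall hr hT
  have hmem : ∀ z ∈ closedBall (0 : ℂ) 1, f (c + r * z) ∈ C₂ := by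
    intro z hz
    apply hfC
    refine ⟨_, ?_, rfl⟩
    rw [mem_closedBall, dist_zero_right] at hz
    rw [mem_closedBall, dist_eq_norm, add_sub_cancel_left, norm_mul, Complex.norm_real,
      Real.norm_eq_abs, abs_of_pos hr]
    nlinarith
  set F : ℂ → ℂ := fun z => (1 - I) * ((starRingEnd ℂ) u * f (c + r * z) + (-(α + β * I))) with hF
  have hFd : DifferentiableOn ℂ F V' :=
    (differentiableOn_const _).mul (((differentiableOn_const _).mul hd).add
      (differentiableOn_const _))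
  have hFre : ∀ z, (F z).re = ((starRingEnd ℂ) u * f (c + r * z)).re - α +
      (((starRingEnd ℂ) u * f (c + r * z)).im - β) := by
    intro z
    simp only [hF, Complex.mul_re, Complex.mul_im, Complex.sub_re, Complex.sub_im, Complex.add_re,
      Complex.add_im, Complex.neg_re, Complex.neg_im, Complex.one_re, Complex.one_im, Complex.I_re,
      Complex.I_im, Complex.ofReal_re, Complex.ofReal_im]
    ring
  have hFim : ∀ z, (F z).im = (((starRingEnd ℂ) u * f (c + r * z)).im - β) -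
      (((starRingEnd ℂ) u * f (c + r * z)).re - α) := by
    intro z
    simp only [hF, Complex.mul_re, Complex.mul_im, Complex.sub_re, Complex.sub_im, Complex.add_re,
      Complex.add_im, Complex.neg_re, Complex.neg_im, Complex.one_re, Complex.one_im, Complex.I_re,
      Complex.I_im, Complex.ofReal_re, Complex.ofReal_im]
    ring
  have hsec : ∀ z ∈ closedBall (0 : ℂ) 1, |(F z).im| ≤ (F z).re := by
    intro z hz
    have h1 := hα _ (hmem z hz)
    have h2 := hβ _ (hmem z hz)
    rw [hFre, hFim, abs_le]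
    constructor <;> linarith
  have hFA : Calc (((r : ℂ)⁻¹) • (T - c • (1 : H →L[ℂ] H))) (closedBall 0 R) F
      ((1 - I) • ((starRingEnd ℂ) u • A + (-(α + β * I)) • 1)) :=
    ((hA.smul _).add (Calc.const _)).smul _
  by_cases h0 : F 0 = 0
  · right
    have hre : ∀ z ∈ closedBall (0 : ℂ) 1, 0 ≤ (F z).re := fun z hz =>
      (abs_nonneg _).trans (hsec z hz)
    have h1 := const_of_re_eq_zero hsub' hFd hre (z₀ := 0) (by simp) (by rw [h0]; simp)
    have hu' : (starRingEnd ℂ) u ≠ 0 := by simpa using hu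
    have hI2 : (1 - I : ℂ) ≠ 0 := by
      intro h; have := congrArg Complex.re h; simp at this
    have h2 : ∀ z ∈ closedBall (0 : ℂ) 1, f (c + r * z) = f (c + r * 0) := by
      intro z hz
      have h3 := h1 z hz
      simp only [hF] at h3
      have h4 := mul_left_cancel₀ hI2 h3
      exact mul_left_cancel₀ hu' (add_right_cancel h4)
    have h5 : inner ℂ x (A x) = f (c + r * 0) := by
      apply Complex.ext
      · have := re_eq_of_const hS hR hA (c := (f (c + r * 0)).re)
          (fun z hz => by rw [h2 z hz]) x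
        rw [hx] at this
        simpa using this
      · have := re_eq_of_const hS hR (hA.smul (-I)) (c := (-I * f (c + r * 0)).re)
          (fun z hz => by rw [h2 z hz]) x
        rw [hx, smul_apply, inner_smul_right] at this
        simpa using this
    rw [h5]
    exact hmem 0 (by simp)
  · left
    have := re_pos_of_sector hS hR hV' hsub' hFd hsec hFA hx h0
    rw [smul_apply, inner_smul_right, add_apply, inner_add_right, smul_apply, inner_smul_right,
      smul_apply, inner_smul_right, inner_one_apply, hx] at this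
    simp only [Complex.mul_re, Complex.mul_im, Complex.sub_re, Complex.sub_im, Complex.add_re,
      Complex.add_im, Complex.neg_re, Complex.neg_im, Complex.one_re, Complex.one_im, Complex.I_re,
      Complex.I_im, Complex.ofReal_re, Complex.ofReal_im] at this ⊢
    linarith

end Pool.Agent.Lib.MP_c3d375_an
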