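import Pool.Agent.Lib.MP_c3d375_an.Mix

/-!
# Cones and strips are mixable
-/

open Complex Metric Set Filter Topology Polynomial

namespace Pool.Agent.Lib.MP_c3d375_an

section chi

theorem norm_add_ofReal_ge {u : ℂ} {R : ℝ} (hu : 0 ≤ u.re) : R ≤ ‖u + R‖ := by
  refine le_trans ?_ (Complex.re_le_norm _)
  simp only [Complex.add_re, Complex.ofReal_re]
  linarith

theorem normSq_add_ofReal (u : ℂ) (R : ℝ) :
    Complex.normSq (u + R) = Complex.normSq u + 2 * R * u.re + R ^ 2 := by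
  simp only [Complex.normSq_apply, Complex.add_re, Complex.add_im, Complex.ofReal_re,
    Complex.ofReal_im]
  ring

theorem norm_add_ofReal_ge' {u : ℂ} {R : ℝ} (hR : 0 ≤ R) (hu : 0 ≤ u.re) : ‖u‖ ≤ ‖u + R‖ := by
  rw [← abs_of_nonneg (norm_nonneg u), ← abs_of_nonneg (norm_nonneg (u + R)), ← sq_le_sq,
    ← Complex.normSq_eq_norm_sq, ← Complex.normSq_eq_norm_sq, normSq_add_ofReal]
  nlinarith [mul_nonneg hR hu, sq_nonneg R]

theorem div_add_re (u : ℂ) (R : ℝ) :
    (u / (u + R)).re = (Complex.normSq u + R * u.re) / Complex.normSq (u + R) := by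
  rw [Complex.div_re, ← add_div]
  congr 1
  simp only [Complex.normSq_apply, Complex.add_re, Complex.add_im, Complex.ofReal_re,
    Complex.ofReal_im]
  ring

theorem div_add_im (u : ℂ) (R : ℝ) :
    (u / (u + R)).im = (R * u.im) / Complex.normSq (u + R) := by
  rw [Complex.div_im, ← sub_div]
  congr 1
  simp only [Complex.add_re, Complex.add_im, Complex.ofReal_re, Complex.ofReal_im]
  ring

theorem div_add_re_mem {u : ℂ} {R : ℝ} (hR : 0 < R) (hu : 0 ≤ u.re) :
    0 ≤ (u / (u + R)).re ∧ (u / (u + R)).re ≤ 1 := by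
  rw [div_add_re]
  have h1 : 0 ≤ Complex.normSq u := Complex.normSq_nonneg u
  have h2 : 0 ≤ R * u.re := mul_nonneg hR.le hu
  have h3 : 0 < Complex.normSq (u + R) := by
    rw [normSq_add_ofReal]
    nlinarith [sq_pos_of_pos hR]
  refine ⟨by positivity, ?_⟩
  rw [div_le_one h3, normSq_add_ofReal]
  nlinarith [sq_nonneg R]

theorem div_add_im_le {u : ℂ} {R : ℝ} (hR : 0 < R) (hu : 0 ≤ u.re) :
    |(u / (u + R)).im| ≤ 4 * (2 * R / (‖u‖ + 2 * R) - R / (‖u‖ + R)) := by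
  set x := ‖u‖ with hx
  have hx0 : 0 ≤ x := norm_nonneg u
  have h3 : x ^ 2 + R ^ 2 ≤ Complex.normSq (u + R) := by
    rw [normSq_add_ofReal, Complex.normSq_eq_norm_sq]
    nlinarith [mul_nonneg hR.le hu]
  have h4 : 0 < x ^ 2 + R ^ 2 := by positivity
  rw [div_add_im, abs_div, abs_of_pos (h4.trans_le h3), abs_mul, abs_of_pos hR]
  have h5 : |u.im| ≤ x := Complex.abs_im_le_norm u
  have h6 : R * |u.im| / Complex.normSq (u + R) ≤ R * x / (x ^ 2 + R ^ 2) := by
    gcongr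
  refine h6.trans ?_
  have e : 2 * R / (x + 2 * R) - R / (x + R) = R * x / ((x + 2 * R) * (x + R)) := by
    field_simp
    ring
  rw [e, mul_div_assoc', div_le_div_iff₀ h4 (by positivity)]
  have h7 : (x + 2 * R) * (x + R) ≤ 4 * (x ^ 2 + R ^ 2) := by nlinarith [sq_nonneg (x - R)]
  have h8 : 0 ≤ R * x := by positivity
  nlinarith [mul_le_mul_of_nonneg_left h7 h8]

/-- the average of `u / (u + R₀ 2 ^ j)`, `j < N` -/
noncomputable def chi (N : ℕ) (R₀ : ℝ) (u : ℂ) : ℂ :=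
  ((N : ℝ)⁻¹ : ℝ) * ∑ j ∈ Finset.range N, u / (u + ((R₀ * 2 ^ j : ℝ) : ℂ))

variable {N : ℕ} {R₀ : ℝ} {u : ℂ}

theorem chi_re (hN : 0 < N) (hR : 0 < R₀) (hu : 0 ≤ u.re) :
    0 ≤ (chi N R₀ u).re ∧ (chi N R₀ u).re ≤ 1 := by
  have hN' : (0 : ℝ) < N := by exact_mod_cast hN
  have h : ∀ j ∈ Finset.range N, 0 ≤ (u / (u + ((R₀ * 2 ^ j : ℝ) : ℂ))).re ∧
      (u / (u + ((R₀ * 2 ^ j : ℝ) : ℂ))).re ≤ 1 := fun j _ => div_add_re_mem (by positivity) hu
  rw [chi, Complex.re_ofReal_mul, Complex.re_sum]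
  have h1 : 0 ≤ ∑ j ∈ Finset.range N, (u / (u + ((R₀ * 2 ^ j : ℝ) : ℂ))).re :=
    Finset.sum_nonneg fun j hj => (h j hj).1
  have h2 : ∑ j ∈ Finset.range N, (u / (u + ((R₀ * 2 ^ j : ℝ) : ℂ))).re ≤ N := by
    refine (Finset.sum_le_sum fun j hj => (h j hj).2).trans ?_
    simp
  refine ⟨by positivity, ?_⟩
  rw [inv_mul_le_iff₀ hN']
  linarith

theorem chi_im (hN : 0 < N) (hR : 0 < R₀) (hu : 0 ≤ u.re) : |(chi N R₀ u).im| ≤ 4 / N := by
  have hN' : (0 : ℝ) < N := by exact_mod_cast hN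
  rw [chi, Complex.im_ofReal_mul, Complex.im_sum, abs_mul, abs_of_pos (inv_pos.2 hN'),
    inv_mul_eq_div]
  gcongr
  refine (Finset.abs_sum_le_sum_abs _ _).trans ?_
  have h1 : ∀ j ∈ Finset.range N, |(u / (u + ((R₀ * 2 ^ j : ℝ) : ℂ))).im| ≤
      4 * (R₀ * 2 ^ (j + 1) / (‖u‖ + R₀ * 2 ^ (j + 1)) - R₀ * 2 ^ j / (‖u‖ + R₀ * 2 ^ j)) := by
    intro j _
    have := div_add_im_le (u := u) (R := R₀ * 2 ^ j) (by positivity) hu
    have e : R₀ * 2 ^ (j + 1) = 2 * (R₀ * 2 ^ j) := by rw [pow_succ]; ring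
    rw [e]
    exact this
  refine (Finset.sum_le_sum h1).trans ?_
  rw [← Finset.mul_sum, Finset.sum_range_sub (fun j => R₀ * 2 ^ j / (‖u‖ + R₀ * 2 ^ j))]
  have h2 : R₀ * 2 ^ N / (‖u‖ + R₀ * 2 ^ N) ≤ 1 := by
    rw [div_le_one (by positivity)]
    linarith [norm_nonneg u]
  have h3 : 0 ≤ R₀ * 2 ^ 0 / (‖u‖ + R₀ * 2 ^ 0) := by positivity
  linarith

theorem chi_norm (hN : 0 < N) (hR : 0 < R₀) (hu : 0 ≤ u.re) : ‖chi N R₀ u‖ ≤ ‖u‖ / R₀ := by
  have hN' : (0 : ℝ) < N := by exact_mod_cast hN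
  rw [chi, norm_mul, Complex.norm_real, Real.norm_eq_abs, abs_of_pos (inv_pos.2 hN'),
    inv_mul_le_iff₀ hN']
  refine (norm_sum_le _ _).trans ?_
  have h1 : ∀ j ∈ Finset.range N, ‖u / (u + ((R₀ * 2 ^ j : ℝ) : ℂ))‖ ≤ ‖u‖ / R₀ := by
    intro j _
    rw [norm_div]
    have h2 : R₀ ≤ R₀ * 2 ^ j := le_mul_of_one_le_right hR.le (one_le_pow₀ (by norm_num))
    have h3 := norm_add_ofReal_ge (u := u) (R := R₀ * 2 ^ j) hu
    gcongr
    linarith
  refine (Finset.sum_le_sum h1).trans ?_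
  simp

theorem chi_sub_one (hN : 0 < N) (hR : 0 < R₀) (hu : 0 ≤ u.re) (hu0 : 0 < ‖u‖) :
    ‖chi N R₀ u - 1‖ ≤ R₀ * 2 ^ N / ‖u‖ := by
  have hN' : (0 : ℝ) < N := by exact_mod_cast hN
  have hNc : ((N : ℝ) : ℂ) ≠ 0 := by exact_mod_cast hN'.ne'
  have e : chi N R₀ u - 1 = ((N : ℝ)⁻¹ : ℝ) *
      ∑ j ∈ Finset.range N, (u / (u + ((R₀ * 2 ^ j : ℝ) : ℂ)) - 1) := by
    rw [chi, Finset.sum_sub_distrib, mul_sub]
    simp only [Finset.sum_const, Finset.card_range, nsmul_eq_mul, mul_one]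
    congr 1
    rw [Complex.ofReal_inv, Complex.ofReal_natCast, inv_mul_cancel₀]
    exact_mod_cast hN.ne'
  rw [e, norm_mul, Complex.norm_real, Real.norm_eq_abs, abs_of_pos (inv_pos.2 hN'),
    inv_mul_le_iff₀ hN']
  refine (norm_sum_le _ _).trans ?_
  have h1 : ∀ j ∈ Finset.range N, ‖u / (u + ((R₀ * 2 ^ j : ℝ) : ℂ)) - 1‖ ≤
      R₀ * 2 ^ N / ‖u‖ := by
    intro j hj
    have hj' : j ≤ N := (Finset.mem_range.1 hj).le
    have h3 := norm_add_ofReal_ge' (u := u) (R := R₀ * 2 ^ j) (by positivity) hu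
    have h4 : u + ((R₀ * 2 ^ j : ℝ) : ℂ) ≠ 0 := by
      intro h
      rw [h, norm_zero] at h3
      linarith
    have h5 : u / (u + ((R₀ * 2 ^ j : ℝ) : ℂ)) - 1 =
        -(((R₀ * 2 ^ j : ℝ) : ℂ)) / (u + ((R₀ * 2 ^ j : ℝ) : ℂ)) := by
      rw [div_sub_one h4]
      congr 1
      ring
    rw [h5, norm_div, norm_neg, Complex.norm_real, Real.norm_eq_abs, abs_of_pos (by positivity)]
    gcongr
    norm_num
  refine (Finset.sum_le_sum h1).trans ?_
  simp

theorem chi_differentiableOn {v : ℂ → ℂ} (hv : Differentiable ℂ v) (hR : 0 < R₀) :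
    DifferentiableOn ℂ (fun z => chi N R₀ (v z)) {z | -R₀ < (v z).re} := by
  unfold chi
  refine (differentiableOn_const _).mul (DifferentiableOn.fun_sum fun j _ => ?_)
  refine hv.differentiableOn.div (hv.differentiableOn.add (differentiableOn_const _)) ?_
  intro z hz h
  have h1 := congrArg Complex.re h
  simp only [Complex.add_re, Complex.ofReal_re, Complex.zero_re] at h1
  have h2 : R₀ ≤ R₀ * 2 ^ j := le_mul_of_one_le_right hR.le (one_le_pow₀ (by norm_num))
  simp only [Set.mem_ofPred_eq] at hz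
  linarith

end chi

/-- the functions `χ` -/
theorem exists_chi {C₁ K : Set ℂ} {v : ℂ → ℂ} (hv : Differentiable ℂ v)
    (hre : ∀ z ∈ C₁, 0 ≤ (v z).re) (hKC : K ⊆ C₁) {B : ℝ} (hB : ∀ z ∈ K, ‖v z‖ ≤ B) {ε : ℝ}
    (hε : 0 < ε)
    (haff : ∀ Λ : ℝ, 0 < Λ → ∃ a b : ℂ, a ≠ 0 ∧ (∀ z ∈ C₁, a * z + b ∈ C₁) ∧
      (∀ z ∈ C₁, a⁻¹ * (z - b) ∈ C₁) ∧ ∀ z ∈ K, Λ ≤ ‖v (a * z + b)‖) :
    ∃ (a b : ℂ) (χ : ℂ → ℂ) (V : Set ℂ), a ≠ 0 ∧ (∀ z ∈ C₁, a * z + b ∈ C₁) ∧
      (∀ z ∈ C₁, a⁻¹ * (z - b) ∈ C₁) ∧ IsOpen V ∧ C₁ ⊆ V ∧ DifferentiableOn ℂ χ V ∧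
      (∀ z ∈ C₁, 0 ≤ (χ z).re ∧ (χ z).re ≤ 1 ∧ |(χ z).im| ≤ ε) ∧ (∀ z ∈ K, ‖χ z‖ ≤ ε) ∧
      ∀ z ∈ K, ‖χ (a * z + b) - 1‖ ≤ ε := by
  obtain ⟨N, hN⟩ := exists_nat_gt (4 / ε)
  have hN0 : (0 : ℝ) < N := lt_of_le_of_lt (by positivity) hN
  have hN1 : 0 < N := by exact_mod_cast hN0
  set R₀ : ℝ := (|B| + 1) / ε with hR₀
  have hR₀0 : 0 < R₀ := by positivity
  set Λ : ℝ := R₀ * 2 ^ N / ε with hΛ
  have hΛ0 : 0 < Λ := by positivity
  obtain ⟨a, b, ha, hab, hab', hK⟩ := haff Λ hΛ0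
  refine ⟨a, b, fun z => chi N R₀ (v z), {z | -R₀ < (v z).re}, ha, hab, hab', ?_, ?_,
    chi_differentiableOn hv hR₀0, ?_, ?_, ?_⟩
  · exact isOpen_lt continuous_const (Complex.continuous_re.comp hv.continuous)
  · intro z hz
    simp only [Set.mem_ofPred_eq]
    linarith [hre z hz]
  · intro z hz
    obtain ⟨h1, h2⟩ := chi_re hN1 hR₀0 (hre z hz)
    refine ⟨h1, h2, (chi_im hN1 hR₀0 (hre z hz)).trans ?_⟩
    rw [div_le_iff₀ hN0]
    rw [div_lt_iff₀ hε] at hN
    linarith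
  · intro z hz
    refine (chi_norm hN1 hR₀0 (hre z (hKC hz))).trans ?_
    rw [div_le_iff₀ hR₀0, hR₀, mul_div_cancel₀ _ hε.ne']
    exact (hB z hz).trans ((le_abs_self B).trans (by linarith))
  · intro z hz
    have h1 := hK z hz
    have h2 : 0 < ‖v (a * z + b)‖ := hΛ0.trans_le h1
    refine (chi_sub_one hN1 hR₀0 (hre _ (hab z (hKC hz))) h2).trans ?_
    rw [div_le_iff₀ h2]
    calc R₀ * 2 ^ N = ε * Λ := by rw [hΛ, mul_div_cancel₀ _ hε.ne']
      _ ≤ ε * ‖v (a * z + b)‖ := by gcongr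

section strip

theorem strip_mixable {c d : ℂ} (hd : d ≠ 0) : Mixable {z : ℂ | |((z - c) / d).im| ≤ 1} := by
  intro K hK hKint ε hε
  set C₁ : Set ℂ := {z : ℂ | |((z - c) / d).im| ≤ 1} with hC₁
  have hKC : K ⊆ C₁ := hKint.trans interior_subset
  have hcl : IsClosed C₁ := by
    rw [hC₁]
    exact isClosed_le (by fun_prop) continuous_const
  have hwc : Continuous fun z : ℂ => (z - c) / d := by fun_prop
  obtain ⟨B', hB'⟩ := hK.exists_bound_of_continuousOn hwc.continuousOn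
  set B : ℝ := |B'| with hBdef
  have hB : ∀ z ∈ K, ‖(z - c) / d‖ ≤ B := fun z hz => (hB' z hz).trans (le_abs_self B')
  have hB0 : 0 ≤ B := abs_nonneg _
  have hdn : 0 < ‖d‖ := norm_pos_iff.2 hd
  constructor
  · obtain ⟨δ, hδ0, hδ⟩ := exists_between
      (show (0 : ℝ) < min (1 / 2) (ε / (2 * ‖d‖ * B * (1 + B ^ 2) + 1)) by positivity)
    have hδ1 : δ < 1 / 2 := hδ.trans_le (min_le_left _ _)
    have hδ2 : δ * (2 * ‖d‖ * B * (1 + B ^ 2) + 1) ≤ ε := by
      have := (hδ.trans_le (min_le_right _ _)).le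
      rwa [le_div_iff₀ (by positivity)] at this
    have hden : ∀ w : ℂ, |w.im| ≤ 1 → 1 - δ + δ * w.re ^ 2 ≤ ‖1 + (δ : ℂ) * w ^ 2‖ := by
      intro w hw
      refine le_trans ?_ (Complex.re_le_norm _)
      have h1 : (w ^ 2).re = w.re ^ 2 - w.im ^ 2 := by
        rw [pow_two, Complex.mul_re]; ring
      rw [Complex.add_re, Complex.re_ofReal_mul, h1, Complex.one_re]
      have h2 : w.im ^ 2 ≤ 1 := by
        rw [← sq_abs]
        exact pow_le_one₀ (abs_nonneg _) hw
      nlinarith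
    have hden0 : ∀ w : ℂ, |w.im| ≤ 1 → 0 < ‖1 + (δ : ℂ) * w ^ 2‖ := fun w hw =>
      lt_of_lt_of_le (by nlinarith [sq_nonneg w.re]) (hden w hw)
    set θ₀ : ℂ → ℂ := fun w => ((1 - δ : ℝ) : ℂ) * w / (1 + (δ : ℂ) * w ^ 2) with hθ₀
    have hθim : ∀ w : ℂ, |w.im| ≤ 1 → |(θ₀ w).im| ≤ 1 := by
      intro w hw
      have hn0 := hden0 w hw
      have hne : 1 + (δ : ℂ) * w ^ 2 ≠ 0 := norm_pos_iff.1 hn0
      have e1 : (θ₀ w).im = (1 - δ) * (w.im * (1 - δ * Complex.normSq w)) /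
          Complex.normSq (1 + (δ : ℂ) * w ^ 2) := by
        simp only [hθ₀]
        rw [Complex.div_im, ← sub_div]
        congr 1
        have h1 : (w ^ 2).re = w.re ^ 2 - w.im ^ 2 := by
          rw [pow_two, Complex.mul_re]; ring
        have h2 : (w ^ 2).im = 2 * w.re * w.im := by
          rw [pow_two, Complex.mul_im]; ring
        rw [Complex.im_ofReal_mul, Complex.re_ofReal_mul, Complex.add_re, Complex.add_im,
          Complex.re_ofReal_mul, Complex.im_ofReal_mul, h1, h2, Complex.one_re, Complex.one_im,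
          Complex.normSq_apply]
        ring
      have h3 : |1 - δ * Complex.normSq w| ≤ ‖1 + (δ : ℂ) * w ^ 2‖ := by
        have h4 := abs_norm_sub_norm_le (1 : ℂ) (-((δ : ℂ) * w ^ 2))
        rw [sub_neg_eq_add, norm_one, norm_neg, norm_mul, Complex.norm_real, Real.norm_eq_abs,
          abs_of_pos hδ0, norm_pow, ← Complex.normSq_eq_norm_sq] at h4
        exact h4
      rw [e1, abs_div, abs_mul, abs_mul, abs_of_pos (by linarith : (0 : ℝ) < 1 - δ),
        abs_of_nonneg (Complex.normSq_nonneg _), Complex.normSq_eq_norm_sq (1 + (δ : ℂ) * w ^ 2),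
        div_le_one (by positivity)]
      have h5 : 1 - δ ≤ ‖1 + (δ : ℂ) * w ^ 2‖ := le_trans (by nlinarith [sq_nonneg w.re])
        (hden w hw)
      calc (1 - δ) * (|w.im| * |1 - δ * Complex.normSq w|)
          ≤ ‖1 + (δ : ℂ) * w ^ 2‖ * (1 * ‖1 + (δ : ℂ) * w ^ 2‖) := by gcongr
        _ = _ := by ring
    have hθb : ∀ w : ℂ, |w.im| ≤ 1 → ‖θ₀ w‖ ≤ 2 / δ := by
      intro w hw
      have hn0 := hden0 w hw
      simp only [hθ₀]
      rw [norm_div, norm_mul, Complex.norm_real, Real.norm_eq_abs,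
        abs_of_pos (by linarith : (0 : ℝ) < 1 - δ), div_le_div_iff₀ hn0 hδ0]
      have h1 : ‖w‖ ≤ |w.re| + 1 := (Complex.norm_le_abs_re_add_abs_im w).trans (by linarith)
      have h2 : |w.re| + 1 ≤ 2 * (1 + w.re ^ 2) := by
        rw [← sq_abs w.re]
        nlinarith [sq_nonneg (|w.re| - 1), abs_nonneg w.re]
      have h3 := hden w hw
      have h4 : δ * (1 + w.re ^ 2) ≤ ‖1 + (δ : ℂ) * w ^ 2‖ := by nlinarith
      have h5 : (1 - δ) * ‖w‖ ≤ 2 * (1 + w.re ^ 2) := by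
        nlinarith [norm_nonneg w]
      calc (1 - δ) * ‖w‖ * δ ≤ 2 * (1 + w.re ^ 2) * δ := by gcongr
        _ = 2 * (δ * (1 + w.re ^ 2)) := by ring
        _ ≤ 2 * ‖1 + (δ : ℂ) * w ^ 2‖ := by gcongr
    have hwθ : ∀ z, (c + d * θ₀ ((z - c) / d) - c) / d = θ₀ ((z - c) / d) := by
      intro z
      rw [add_sub_cancel_left, mul_div_cancel_left₀ _ hd]
    refine ⟨fun z => c + d * θ₀ ((z - c) / d), {z | 1 + (δ : ℂ) * ((z - c) / d) ^ 2 ≠ 0},
      C₁ ∩ closedBall c (‖d‖ * (2 / δ)), ?_, ?_, ?_, ?_, inter_subset_left, ?_, ?_⟩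
    · exact isOpen_ne_fun (by fun_prop) continuous_const
    · intro z hz
      exact norm_pos_iff.1 (hden0 _ hz)
    · refine (differentiableOn_const _).add ((differentiableOn_const _).mul ?_)
      refine DifferentiableOn.div (by fun_prop) (by fun_prop) fun z hz => hz
    · exact (isCompact_closedBall _ _).inter_left hcl
    · intro z hz
      refine ⟨?_, ?_⟩
      · simp only [hC₁, Set.mem_ofPred_eq]
        rw [hwθ]
        exact hθim _ hz
      · rw [mem_closedBall, dist_eq_norm, add_sub_cancel_left, norm_mul]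
        gcongr
        exact hθb _ hz
    · intro z hz
      have hzC := hKC hz
      have hn0 := hden0 _ hzC
      have hne : 1 + (δ : ℂ) * ((z - c) / d) ^ 2 ≠ 0 := norm_pos_iff.1 hn0
      set w := (z - c) / d with hw
      have e0 : z = c + d * w := by
        rw [hw, mul_div_cancel₀ _ hd]; ring
      have e1 : c + d * θ₀ w - z = -(d * ((δ : ℂ) * w * (1 + w ^ 2) / (1 + (δ : ℂ) * w ^ 2))) := by
        conv_lhs => rw [e0]
        simp only [hθ₀]
        push_cast
        field_simp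
        ring
      have h2 : (1 : ℝ) / 2 ≤ ‖1 + (δ : ℂ) * w ^ 2‖ :=
        le_trans (by nlinarith [sq_nonneg w.re]) (hden w hzC)
      have h3 : ‖w‖ ≤ B := hB z hz
      rw [e1, norm_neg, norm_mul, norm_div, norm_mul, norm_mul, Complex.norm_real,
        Real.norm_eq_abs, abs_of_pos hδ0]
      have h4 : ‖1 + w ^ 2‖ ≤ 1 + B ^ 2 := by
        refine (norm_add_le _ _).trans ?_
        rw [norm_one, norm_pow]
        gcongr
      calc ‖d‖ * (δ * ‖w‖ * ‖1 + w ^ 2‖ / ‖1 + (δ : ℂ) * w ^ 2‖)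
          ≤ ‖d‖ * (δ * B * (1 + B ^ 2) / (1 / 2)) := by gcongr
        _ = δ * (2 * ‖d‖ * B * (1 + B ^ 2)) := by ring
        _ ≤ δ * (2 * ‖d‖ * B * (1 + B ^ 2) + 1) := by gcongr; linarith
        _ ≤ ε := hδ2
  · refine exists_chi (v := fun z => Complex.exp ((z - c) / d)) ?_ ?_ hKC (B := Real.exp B) ?_ hε ?_
    · fun_prop
    · intro z hz
      simp only [hC₁, Set.mem_ofPred_eq] at hz
      rw [Complex.exp_re]
      have h1 : 0 ≤ Real.cos ((z - c) / d).im := by
        refine Real.cos_nonneg_of_neg_pi_div_two_le_of_le ?_ ?_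
        · linarith [(abs_le.1 hz).1, Real.pi_gt_three]
        · linarith [(abs_le.1 hz).2, Real.pi_gt_three]
      positivity
    · intro z hz
      rw [Complex.norm_exp]
      exact Real.exp_le_exp.2 ((Complex.re_le_norm _).trans (hB z hz))
    · intro Λ hΛ
      refine ⟨1, ((B + Λ : ℝ) : ℂ) * d, one_ne_zero, ?_, ?_, ?_⟩
      · intro z hz
        simp only [hC₁, Set.mem_ofPred_eq] at hz ⊢
        have : (1 * z + ((B + Λ : ℝ) : ℂ) * d - c) / d = (z - c) / d + ((B + Λ : ℝ) : ℂ) := by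
          field_simp
          ring
        rw [this, Complex.add_im, Complex.ofReal_im, add_zero]
        exact hz
      · intro z hz
        simp only [hC₁, Set.mem_ofPred_eq] at hz ⊢
        have : ((1 : ℂ)⁻¹ * (z - ((B + Λ : ℝ) : ℂ) * d) - c) / d =
            (z - c) / d - ((B + Λ : ℝ) : ℂ) := by
          field_simp
          ring
        rw [this, Complex.sub_im, Complex.ofReal_im, sub_zero]
        exact hz
      · intro z hz
        have : (1 * z + ((B + Λ : ℝ) : ℂ) * d - c) / d = (z - c) / d + ((B + Λ : ℝ) : ℂ) := by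
          field_simp
          ring
        simp only [this]
        rw [Complex.norm_exp, Complex.add_re, Complex.ofReal_re]
        have h1 : -B ≤ ((z - c) / d).re := by
          have := (abs_le.1 (Complex.abs_re_le_norm ((z - c) / d))).1
          linarith [hB z hz]
        have h2 := Real.add_one_le_exp Λ
        have h3 : Real.exp Λ ≤ Real.exp (((z - c) / d).re + (B + Λ)) :=
          Real.exp_le_exp.2 (by linarith)
        linarith

end strip

section cone

theorem cone_comb {C₁ : Set ℂ} (hconv : Convex ℝ C₁) {p : ℂ}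
    (hcone : ∀ w ∈ C₁, ∀ s : ℝ, 0 ≤ s → p + s * (w - p) ∈ C₁) {x y : ℂ} (hx : x ∈ C₁)
    (hy : y ∈ C₁) {s t : ℝ} (hs : 0 ≤ s) (ht : 0 ≤ t) :
    p + (s * (x - p) + t * (y - p)) ∈ C₁ := by
  have h1 := hcone x hx (2 * s) (by positivity)
  have h2 := hcone y hy (2 * t) (by positivity)
  have h3 := hconv h1 h2 (by norm_num : (0 : ℝ) ≤ 1 / 2) (by norm_num : (0 : ℝ) ≤ 1 / 2)
    (by norm_num)
  simp only [Complex.real_smul] at h3
  convert h3 using 1
  push_cast
  ring

theorem cone_mixable {C₁ : Set ℂ} (hcl : IsClosed C₁) (hconv : Convex ℝ C₁) (hne : C₁ ≠ univ)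
    {c₀ : ℂ} (hc₀ : c₀ ∈ interior C₁) {p : ℂ}
    (hcone : ∀ w ∈ C₁, ∀ s : ℝ, 0 ≤ s → p + s * (w - p) ∈ C₁) : Mixable C₁ := by
  have hc₁ : c₀ ∈ C₁ := interior_subset hc₀
  have hp : p ∈ C₁ := by simpa using hcone c₀ hc₁ 0 le_rfl
  obtain ⟨z₁, hz₁⟩ := (ne_univ_iff_exists_notMem C₁).1 hne
  obtain ⟨g, u, hg1, hg2⟩ := geometric_hahn_banach_closed_point hconv hcl hz₁
  obtain ⟨v, hv⟩ := exists_re_mul g
  set ν : ℂ := -v with hν
  have hgp := hg1 p hp
  have hνre : ∀ z ∈ C₁, 0 ≤ (ν * (z - p)).re := by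
    intro z hz
    by_contra hcon
    push Not at hcon
    have e1 : ∀ s : ℝ, g (p + s * (z - p)) = g p - s * (ν * (z - p)).re := by
      intro s
      rw [hv, hv, hν]
      have : v * (p + (s : ℂ) * (z - p)) = v * p - (s : ℂ) * (-v * (z - p)) := by ring
      rw [this, Complex.sub_re, Complex.re_ofReal_mul]
    have h1 := hg1 _ (hcone z hz ((u - g p) / (-(ν * (z - p)).re)) (div_nonneg (by linarith)
      (by linarith)))
    rw [e1] at h1
    have h2 : (u - g p) / (-(ν * (z - p)).re) * (ν * (z - p)).re = -(u - g p) := by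
      rw [div_mul_eq_mul_div, div_eq_iff (by linarith)]
      ring
    rw [h2] at h1
    linarith
  have hν0 : ν ≠ 0 := by
    intro h
    have hv0 : v = 0 := neg_eq_zero.1 h
    rw [hv, hv0, zero_mul] at hgp hg2
    linarith
  have hνn : 0 < ‖ν‖ := norm_pos_iff.2 hν0
  have hνpos : ∀ z ∈ interior C₁, 0 < (ν * (z - p)).re := by
    intro z hz
    obtain ⟨r, hr, hball⟩ := Metric.isOpen_iff.1 isOpen_interior z hz
    have h1 : z - ((r / (2 * ‖ν‖) : ℝ) : ℂ) * (starRingEnd ℂ) ν ∈ C₁ := by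
      apply interior_subset
      apply hball
      rw [mem_ball, dist_eq_norm, sub_sub_cancel_left, norm_neg, norm_mul, Complex.norm_real,
        RCLike.norm_conj, Real.norm_eq_abs, abs_of_pos (by positivity), div_mul_eq_mul_div,
        div_lt_iff₀ (by positivity)]
      nlinarith
    have h2 := hνre _ h1
    have e1 : ν * (z - ((r / (2 * ‖ν‖) : ℝ) : ℂ) * (starRingEnd ℂ) ν - p) =
        ν * (z - p) - ((r / (2 * ‖ν‖) : ℝ) : ℂ) * ((Complex.normSq ν : ℝ) : ℂ) := by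
      rw [← Complex.mul_conj]; ring
    rw [e1, Complex.sub_re, ← Complex.ofReal_mul, Complex.ofReal_re] at h2
    have h3 : 0 < r / (2 * ‖ν‖) * Complex.normSq ν := by
      have : 0 < Complex.normSq ν := Complex.normSq_pos.2 hν0
      positivity
    linarith
  intro K hK hKint ε hε
  have hKC : K ⊆ C₁ := hKint.trans interior_subset
  have hwc : Continuous fun z : ℂ => z - p := by fun_prop
  obtain ⟨B', hB'⟩ := hK.exists_bound_of_continuousOn hwc.continuousOn
  set B : ℝ := |B'| with hBdef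
  have hB : ∀ z ∈ K, ‖z - p‖ ≤ B := fun z hz => (hB' z hz).trans (le_abs_self B')
  have hB0 : 0 ≤ B := abs_nonneg _
  obtain ⟨m, hm0, hm⟩ : ∃ m : ℝ, 0 < m ∧ ∀ z ∈ K, m ≤ (ν * (z - p)).re := by
    rcases K.eq_empty_or_nonempty with rfl | hKne
    · exact ⟨1, one_pos, fun z hz => absurd hz (notMem_empty z)⟩
    · have hc : Continuous fun z : ℂ => (ν * (z - p)).re := by fun_prop
      obtain ⟨z₀, hz₀, hmin⟩ := hK.exists_isMinOn hKne hc.continuousOn
      exact ⟨_, hνpos z₀ (hKint hz₀), fun z hz => hmin hz⟩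
  constructor
  · set e : ℂ := c₀ - p with he
    have hepos : 0 < (ν * e).re := hνpos c₀ hc₀
    have he0 : e ≠ 0 := by
      intro h
      rw [h, mul_zero, Complex.zero_re] at hepos
      exact lt_irrefl 0 hepos
    have hen : 0 < ‖e‖ := norm_pos_iff.2 he0
    set Λ : ℝ := (B + B ^ 2 / ε + 1) / ‖e‖ with hΛ
    have hΛ0 : 0 < Λ := by positivity
    set E : ℂ := (Λ : ℂ) * e with hE
    have hEn : ‖E‖ = B + B ^ 2 / ε + 1 := by
      rw [hE, norm_mul, Complex.norm_real, Real.norm_eq_abs, abs_of_pos hΛ0, hΛ,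
        div_mul_cancel₀ _ hen.ne']
    have hEpos : 0 < (ν * E).re := by
      have : ν * E = (Λ : ℂ) * (ν * e) := by rw [hE]; ring
      rw [this, Complex.re_ofReal_mul]
      positivity
    have hden : ∀ z ∈ C₁, (ν * E).re / ‖ν‖ ≤ ‖(z - p) + E‖ := by
      intro z hz
      have e0 : (z - p + E) * ν = ν * (z - p) + ν * E := by ring
      rw [div_le_iff₀ hνn, ← norm_mul, e0]
      refine le_trans ?_ (Complex.re_le_norm _)
      rw [Complex.add_re]
      linarith [hνre z hz]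
    have hden0 : ∀ z ∈ C₁, 0 < ‖(z - p) + E‖ := fun z hz => lt_of_lt_of_le (by positivity)
      (hden z hz)
    set Bθ : ℝ := 2 * ‖E‖ ^ 2 / ((ν * E).re / ‖ν‖) + 2 * ‖E‖ with hBθ
    refine ⟨fun z => p + (z - p) * E / ((z - p) + E), {z | (z - p) + E ≠ 0},
      C₁ ∩ closedBall p Bθ, ?_, ?_, ?_, ?_, inter_subset_left, ?_, ?_⟩
    · exact isOpen_ne_fun (by fun_prop) continuous_const
    · intro z hz
      exact norm_pos_iff.1 (hden0 _ hz)
    · refine (differentiableOn_const _).add ?_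
      refine DifferentiableOn.div (by fun_prop) (by fun_prop) fun z hz => hz
    · exact (isCompact_closedBall _ _).inter_left hcl
    · intro z hz
      have hn0 := hden0 z hz
      have hne0 : (z - p) + E ≠ 0 := norm_pos_iff.1 hn0
      have hnsq : 0 < Complex.normSq ((z - p) + E) := Complex.normSq_pos.2 hne0
      constructor
      · have h1 := cone_comb hconv hcone hc₁ hz
          (s := Λ * Complex.normSq (z - p) / Complex.normSq ((z - p) + E))
          (t := Complex.normSq E / Complex.normSq ((z - p) + E))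
          (by have := Complex.normSq_nonneg (z - p); positivity)
          (by have := Complex.normSq_nonneg E; positivity)
        convert h1 using 2
        have hne1 : ((Complex.normSq ((z - p) + E) : ℝ) : ℂ) ≠ 0 := by exact_mod_cast hnsq.ne'
        push_cast
        rw [div_mul_eq_mul_div, div_mul_eq_mul_div, ← add_div, div_eq_div_iff hne0 hne1]
        rw [← Complex.mul_conj, ← Complex.mul_conj, ← Complex.mul_conj, hE, he]
        simp only [map_add, map_mul, map_sub, Complex.conj_ofReal]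
        ring
      · rw [mem_closedBall, dist_eq_norm, add_sub_cancel_left, norm_div, norm_mul, hBθ]
        by_cases hcase : ‖z - p‖ ≤ 2 * ‖E‖
        · have h1 : ‖z - p‖ * ‖E‖ / ‖z - p + E‖ ≤ 2 * ‖E‖ * ‖E‖ / ((ν * E).re / ‖ν‖) := by
            gcongr
            exact hden z hz
          have h2 : 2 * ‖E‖ * ‖E‖ = 2 * ‖E‖ ^ 2 := by ring
          rw [h2] at h1
          linarith [norm_nonneg E]
        · push Not at hcase
          have h1 : ‖z - p‖ ≤ 2 * ‖z - p + E‖ := by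
            have h3 : ‖z - p‖ ≤ ‖z - p + E‖ + ‖E‖ := by
              have := norm_sub_le (z - p + E) E
              rwa [add_sub_cancel_right] at this
            linarith
          have h2 : ‖z - p‖ * ‖E‖ / ‖z - p + E‖ ≤ 2 * ‖E‖ := by
            rw [div_le_iff₀ hn0]
            nlinarith [norm_nonneg E]
          have h3 : 0 ≤ 2 * ‖E‖ ^ 2 / ((ν * E).re / ‖ν‖) := by positivity
          linarith
    · intro z hz
      have hzC := hKC hz
      have hn0 := hden0 z hzC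
      have hne0 : (z - p) + E ≠ 0 := norm_pos_iff.1 hn0
      have e1 : p + (z - p) * E / ((z - p) + E) - z = -((z - p) ^ 2 / ((z - p) + E)) := by
        field_simp
        ring
      rw [e1, norm_neg, norm_div, norm_pow, div_le_iff₀ hn0]
      have h1 : B ^ 2 / ε + 1 ≤ ‖z - p + E‖ := by
        have h3 : ‖E‖ ≤ ‖z - p + E‖ + ‖z - p‖ := by
          have := norm_sub_le (z - p + E) (z - p)
          rwa [add_sub_cancel_left] at this
        linarith [hB z hz]
      calc ‖z - p‖ ^ 2 ≤ B ^ 2 := by gcongr; exact hB z hz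
        _ = ε * (B ^ 2 / ε) := by rw [mul_div_cancel₀ _ hε.ne']
        _ ≤ ε * ‖z - p + E‖ := by gcongr; linarith
  · refine exists_chi (v := fun z => 1 + ν * (z - p)) (by fun_prop) ?_ hKC
      (B := 1 + ‖ν‖ * B) ?_ hε ?_
    · intro z hz
      rw [Complex.add_re, Complex.one_re]
      linarith [hνre z hz]
    · intro z hz
      refine (norm_add_le _ _).trans ?_
      rw [norm_one, norm_mul]
      gcongr
      exact hB z hz
    · intro Λ hΛ
      set R : ℝ := Λ / m with hR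
      have hR0 : 0 < R := by positivity
      have hRc : (R : ℂ) ≠ 0 := by exact_mod_cast hR0.ne'
      refine ⟨(R : ℂ), p - R * p, hRc, ?_, ?_, ?_⟩
      · intro z hz
        have := hcone z hz R hR0.le
        convert this using 1
        ring
      · intro z hz
        have := hcone z hz R⁻¹ (by positivity)
        convert this using 1
        push_cast
        field_simp
        ring
      · intro z hz
        have e1 : 1 + ν * ((R : ℂ) * z + (p - R * p) - p) = 1 + (R : ℂ) * (ν * (z - p)) := by ring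
        simp only [e1]
        refine le_trans ?_ (Complex.re_le_norm _)
        rw [Complex.add_re, Complex.one_re, Complex.re_ofReal_mul]
        have h1 : R * m ≤ R * (ν * (z - p)).re := by gcongr; exact hm z hz
        have h2 : R * m = Λ := by rw [hR, div_mul_cancel₀ _ hm0.ne']
        linarith

end cone

end Pool.Agent.Lib.MP_c3d375_an
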