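import Pool.Agent.Lib.MP_c3d375_an.Sector2
import Pool.Agent.Lib.MP_c3d375_an.Cara

/-!
# The strict inequality
-/

open Complex Metric Set Filter Topology

namespace Pool.Agent.Lib.MP_c3d375_an

variable {H : Type*} [NormedAddCommGroup H] [InnerProductSpace ℂ H]
variable {T : H →L[ℂ] H} {R : ℝ} {f : ℂ → ℂ}

theorem inner_one_apply (x : H) : inner ℂ x ((1 : H →L[ℂ] H) x) = ((‖x‖ ^ 2 : ℝ) : ℂ) :=
  inner_self_eq x

/-- If `Re f` is constant on the disc then `Re ⟨x, f(T) x⟩` is that constant. -/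
theorem re_eq_of_const [CompleteSpace H] (hT : NumContr T) (hR : 1 < R)
    {A : H →L[ℂ] H} (hA : Calc T (closedBall 0 R) f A) {c : ℝ}
    (hc : ∀ z ∈ closedBall (0 : ℂ) 1, (f z).re = c) (x : H) :
    (inner ℂ x (A x)).re = c * ‖x‖ ^ 2 := by
  have h0 : (f 0).re = c := hc 0 (by simp)
  have h1 := kato hT (closedBall_subset_closedBall hR.le)
    (hA.add (Calc.const (T := T) ((-c : ℝ) : ℂ))) (fun z hz => by
      rw [Complex.add_re, Complex.ofReal_re, hc z hz]; simp) x
  have h2 := kato hT (closedBall_subset_closedBall hR.le)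
    ((hA.smul (-1)).add (Calc.const (T := T) ((c : ℝ) : ℂ))) (fun z hz => by
      rw [Complex.add_re, Complex.ofReal_re, neg_one_mul, Complex.neg_re, hc z hz]; simp) x
  simp only [Complex.add_re, Complex.ofReal_re, h0, add_apply, inner_add_right, smul_apply,
    inner_smul_right, inner_one_apply, Complex.re_ofReal_mul, neg_one_mul, Complex.neg_re] at h1 h2
  nlinarith

/-- **Main inequality, strict form.** -/
theorem re_pos_of_sector [CompleteSpace H] (hT : NumContr T) (hR : 1 < R) {V : Set ℂ}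
    (hV : IsOpen V) (hsub : closedBall (0 : ℂ) 1 ⊆ V) (hdf : DifferentiableOn ℂ f V)
    (hsec : ∀ z ∈ closedBall (0 : ℂ) 1, |(f z).im| ≤ (f z).re) {A : H →L[ℂ] H}
    (hA : Calc T (closedBall 0 R) f A) {x : H} (hx : ‖x‖ = 1) (h0 : f 0 ≠ 0) :
    0 < (inner ℂ x (A x)).re := by
  have hnn := re_nonneg_of_sector hT hR hV hsub hdf hsec hA x
  refine lt_of_le_of_ne hnn fun hzero => ?_
  have h0b : (0 : ℂ) ∈ ball (0 : ℂ) 1 := by simp
  have h0c : (0 : ℂ) ∈ closedBall (0 : ℂ) 1 := by simp
  have hnz := ne_zero_of_sector hV hsub hdf hsec h0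
  have hre0 : 0 < (f 0).re := by
    rcases eq_or_lt_of_le ((abs_nonneg _).trans (hsec 0 h0c)) with h | h
    · exfalso
      have h1 := hsec 0 h0c
      rw [← h] at h1
      have h2 : (f 0).im = 0 := abs_eq_zero.1 (le_antisymm h1 (abs_nonneg _))
      exact h0 (Complex.ext h.symm h2)
    · exact h
  -- the constant case is impossible
  have hconst : ¬ ∀ z ∈ closedBall (0 : ℂ) 1, f z = f 0 := by
    intro hcon
    have := re_eq_of_const hT hR hA (c := (f 0).re) (fun z hz => by rw [hcon z hz]) x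
    rw [hx, ← hzero] at this
    simp at this
    linarith
  -- the two auxiliary functions
  have hdu : DifferentiableOn ℂ (fun z => (1 + I) * f z) V := (differentiableOn_const _).mul hdf
  have hdl : DifferentiableOn ℂ (fun z => (1 - I) * f z) V := (differentiableOn_const _).mul hdf
  have hure : ∀ z, ((1 + I) * f z).re = (f z).re - (f z).im := fun z => by simp
  have hlre : ∀ z, ((1 - I) * f z).re = (f z).re + (f z).im := fun z => by simp
  have hu : ∀ z ∈ closedBall (0 : ℂ) 1, 0 ≤ ((1 + I) * f z).re := fun z hz => by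
    rw [hure]; linarith [(abs_le.1 (hsec z hz)).2]
  have hl : ∀ z ∈ closedBall (0 : ℂ) 1, 0 ≤ ((1 - I) * f z).re := fun z hz => by
    rw [hlre]; linarith [(abs_le.1 (hsec z hz)).1]
  have hI1 : (1 + I : ℂ) ≠ 0 := by
    intro h; have := congrArg Complex.re h; simp at this
  have hI2 : (1 - I : ℂ) ≠ 0 := by
    intro h; have := congrArg Complex.re h; simp at this
  have hu0 : 0 < ((1 + I) * f 0).re := by
    refine lt_of_le_of_ne (hu 0 h0c) fun h => hconst fun z hz => ?_
    have := const_of_re_eq_zero hsub hdu hu h0b h.symm z hz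
    exact mul_left_cancel₀ hI1 this
  have hl0 : 0 < ((1 - I) * f 0).re := by
    refine lt_of_le_of_ne (hl 0 h0c) fun h => hconst fun z hz => ?_
    have := const_of_re_eq_zero hsub hdl hl h0b h.symm z hz
    exact mul_left_cancel₀ hI2 this
  obtain ⟨hfu, hnu⟩ := finite_zeros hV hsub hdu hu hu0
  obtain ⟨hfl, hnl⟩ := finite_zeros hV hsub hdl hl hl0
  classical
  set Z : Finset ℂ := hfu.toFinset ∪ hfl.toFinset with hZdef
  set κ : ℂ → ℝ := fun ζ => if (f ζ).re = (f ζ).im then 1 else -1 with hκdef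
  have hκ : ∀ ζ ∈ Z, κ ζ ^ 2 = 1 := fun ζ _ => by
    simp only [hκdef]; split_ifs <;> norm_num
  have hZ : ∀ ζ ∈ Z, ‖ζ‖ = 1 := by
    intro ζ hζ
    rw [hZdef, Finset.mem_union, Finite.mem_toFinset, Finite.mem_toFinset] at hζ
    rcases hζ with h | h
    · exact hnu ζ h.1 h.2
    · exact hnl ζ h.1 h.2
  obtain ⟨s, hs0, hs1, hs⟩ := exists_pp Z κ hκ hZ
  set p := pp Z κ s with hp
  have hpd : DifferentiableOn ℂ p (V ∩ ppDom Z κ s) :=
    (differentiableOn_pp Z κ s).mono inter_subset_right
  have hO : IsOpen (V ∩ ppDom Z κ s) := hV.inter (isOpen_ppDom Z κ s)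
  have hsub' : closedBall (0 : ℂ) 1 ⊆ V ∩ ppDom Z κ s :=
    subset_inter hsub (closedBall_subset_ppDom hκ hZ hs0 hs1)
  -- the perturbation
  set g : ℂ → ℂ := fun z => ((-2 : ℝ) : ℂ) + (-1) * p z with hg
  have hgd : DifferentiableOn ℂ g (V ∩ ppDom Z κ s) :=
    (differentiableOn_const _).add ((differentiableOn_const _).mul hpd)
  have hgre : ∀ z, (g z).re = -2 - (p z).re := fun z => by
    simp only [hg, Complex.add_re, Complex.ofReal_re, neg_one_mul, Complex.neg_re]; ring
  have hgim : ∀ z, (g z).im = -(p z).im := fun z => by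
    simp only [hg, Complex.add_im, Complex.ofReal_im, neg_one_mul, Complex.neg_im]; ring
  have hfc : ContinuousOn f (closedBall 0 1) := hdf.continuousOn.mono hsub
  have hgc : ContinuousOn g (closedBall 0 1) := hgd.continuousOn.mono hsub'
  have hrec := Complex.continuous_re
  have himc := Complex.continuous_im
  obtain ⟨ε₁, hε₁, hu'⟩ := exists_eps (isCompact_closedBall (0 : ℂ) 1)
    (a := fun z => (f z).re - (f z).im) (b := fun z => (g z).re - (g z).im)
    ((hrec.comp_continuousOn hfc).sub (himc.comp_continuousOn hfc))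
    ((hrec.comp_continuousOn hgc).sub (himc.comp_continuousOn hgc))
    (fun z hz => by rw [← hure]; exact hu z hz) (fun z hz h => by
      have hzZ : z ∈ Z := by
        rw [hZdef, Finset.mem_union, Finite.mem_toFinset]
        exact Or.inl ⟨hz, by rw [hure]; exact h⟩
      have h1 := hs z hzZ
      have h2 : κ z = 1 := by simp only [hκdef]; rw [if_pos (by linarith)]
      rw [h2, one_mul] at h1
      rw [hgre, hgim]
      linarith)
  obtain ⟨ε₂, hε₂, hl'⟩ := exists_eps (isCompact_closedBall (0 : ℂ) 1)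
    (a := fun z => (f z).re + (f z).im) (b := fun z => (g z).re + (g z).im)
    ((hrec.comp_continuousOn hfc).add (himc.comp_continuousOn hfc))
    ((hrec.comp_continuousOn hgc).add (himc.comp_continuousOn hgc))
    (fun z hz => by rw [← hlre]; exact hl z hz) (fun z hz h => by
      have hzZ : z ∈ Z := by
        rw [hZdef, Finset.mem_union, Finite.mem_toFinset, Finite.mem_toFinset]
        exact Or.inr ⟨hz, by rw [hlre]; exact h⟩
      have h1 := hs z hzZ
      have h2 : κ z = -1 := by
        simp only [hκdef]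
        rw [if_neg]
        intro h3
        have h4 : (f z).re = 0 := by linarith
        have h5 : (f z).im = 0 := by linarith
        exact hnz z hz (Complex.ext h4 h5)
      rw [h2] at h1
      rw [hgre, hgim]
      linarith)
  set ε := min ε₁ ε₂ with hε
  have hεpos : 0 < ε := lt_min hε₁ hε₂
  have hsec' : ∀ z ∈ closedBall (0 : ℂ) 1,
      |(f z + (ε : ℂ) * g z).im| ≤ (f z + (ε : ℂ) * g z).re := by
    intro z hz
    have h1 := hu' ε hεpos.le (min_le_left _ _) z hz
    have h2 := hl' ε hεpos.le (min_le_right _ _) z hz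
    rw [Complex.add_im, Complex.add_re, Complex.re_ofReal_mul, Complex.im_ofReal_mul, abs_le]
    constructor <;> linarith
  obtain ⟨R', hR', hb⟩ := exists_ball_subset hO hsub'
  set R₁ := min R ((1 + R') / 2) with hR₁
  have hR₁1 : 1 < R₁ := lt_min hR (by linarith)
  have hR₁2 : R₁ < R' := (min_le_right _ _).trans_lt (by linarith)
  obtain ⟨P, hP⟩ := hT.exists_calc hR₁1 hR₁2 (hpd.mono hb)
  have hA₁ := hA.mono (closedBall_subset_closedBall (min_le_left R ((1 + R') / 2)))
  have hG : Calc T (closedBall 0 R₁) g (((-2 : ℝ) : ℂ) • 1 + (-1 : ℂ) • P) :=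
    (Calc.const _).add (hP.smul (-1))
  have hfin := re_nonneg_of_sector hT hR₁1 hO hsub'
    ((hdf.mono inter_subset_left).add ((differentiableOn_const (ε : ℂ)).mul hgd)) hsec'
    (hA₁.add (hG.smul (ε : ℂ))) x
  have hk := kato hT (closedBall_subset_closedBall hR₁1.le) hP
    (fun z hz => pp_re_nonneg hκ hZ hs0 hs1 (by simpa using hz)) x
  have hp0 : (p 0).re ≤ 1 := pp_zero Z κ s
  rw [hx] at hk
  simp only [add_apply, inner_add_right, smul_apply, inner_smul_right, inner_one_apply,
    Complex.add_re, Complex.re_ofReal_mul, neg_one_mul, Complex.neg_re, hx, ← hzero,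
    Complex.ofReal_re] at hfin
  have h3 : (0 : ℝ) ≤ ε * (-2 * (1 ^ 2) + -(inner ℂ x (P x)).re) := by linarith
  have h4 : (0 : ℝ) ≤ -2 * (1 ^ 2) + -(inner ℂ x (P x)).re := nonneg_of_mul_nonneg_right h3 hεpos
  linarith

end Pool.Agent.Lib.MP_c3d375_an
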