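import Pool.Agent.Lib.MP_c3d375_an.Spec

/-!
# Direct sums of operators
-/

open Complex Metric Set Filter Topology Polynomial

namespace Pool.Agent.Lib.MP_c3d375_an

variable {H₁ H₂ : Type*} [NormedAddCommGroup H₁] [InnerProductSpace ℂ H₁]
  [NormedAddCommGroup H₂] [InnerProductSpace ℂ H₂]

/-- direct sum of two operators -/
noncomputable def dsum (T₁ : H₁ →L[ℂ] H₁) (T₂ : H₂ →L[ℂ] H₂) :
    WithLp 2 (H₁ × H₂) →L[ℂ] WithLp 2 (H₁ × H₂) :=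
  (WithLp.prodContinuousLinearEquiv 2 ℂ H₁ H₂).symm.toContinuousLinearMap ∘L
    ((T₁.prodMap T₂) ∘L (WithLp.prodContinuousLinearEquiv 2 ℂ H₁ H₂).toContinuousLinearMap)

theorem dsum_apply (T₁ : H₁ →L[ℂ] H₁) (T₂ : H₂ →L[ℂ] H₂) (x : WithLp 2 (H₁ × H₂)) :
    dsum T₁ T₂ x = WithLp.toLp 2 (T₁ x.fst, T₂ x.snd) := rfl

theorem dsum_add (T₁ S₁ : H₁ →L[ℂ] H₁) (T₂ S₂ : H₂ →L[ℂ] H₂) :
    dsum (T₁ + S₁) (T₂ + S₂) = dsum T₁ T₂ + dsum S₁ S₂ := by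
  ext x
  rfl

theorem dsum_mul (T₁ S₁ : H₁ →L[ℂ] H₁) (T₂ S₂ : H₂ →L[ℂ] H₂) :
    dsum (T₁ * S₁) (T₂ * S₂) = dsum T₁ T₂ * dsum S₁ S₂ := by
  ext x
  rfl

theorem dsum_smul (a : ℂ) (T₁ : H₁ →L[ℂ] H₁) (T₂ : H₂ →L[ℂ] H₂) :
    dsum (a • T₁) (a • T₂) = a • dsum T₁ T₂ := by
  ext x
  rfl

theorem dsum_one : dsum (1 : H₁ →L[ℂ] H₁) (1 : H₂ →L[ℂ] H₂) = 1 := by
  ext x
  rfl

theorem dsum_pow (T₁ : H₁ →L[ℂ] H₁) (T₂ : H₂ →L[ℂ] H₂) (n : ℕ) :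
    dsum (T₁ ^ n) (T₂ ^ n) = dsum T₁ T₂ ^ n := by
  induction n with
  | zero => simp only [pow_zero, dsum_one]
  | succ n ih => rw [pow_succ, pow_succ, pow_succ, dsum_mul, ih]

theorem aeval_dsum (T₁ : H₁ →L[ℂ] H₁) (T₂ : H₂ →L[ℂ] H₂) (p : ℂ[X]) :
    aeval (dsum T₁ T₂) p = dsum (aeval T₁ p) (aeval T₂ p) := by
  induction p using Polynomial.induction_on' with
  | add p q hp hq => rw [map_add, map_add, map_add, hp, hq, dsum_add]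
  | monomial n a =>
    simp only [aeval_monomial, Algebra.algebraMap_eq_smul_one, smul_mul_assoc, one_mul, dsum_smul,
      dsum_pow]

theorem inner_dsum (T₁ : H₁ →L[ℂ] H₁) (T₂ : H₂ →L[ℂ] H₂) (x : WithLp 2 (H₁ × H₂)) :
    inner ℂ x (dsum T₁ T₂ x) = inner ℂ x.fst (T₁ x.fst) + inner ℂ x.snd (T₂ x.snd) := by
  rw [WithLp.prod_inner_apply]
  rfl

theorem inner_eq_normSq_mul {H : Type*} [NormedAddCommGroup H] [InnerProductSpace ℂ H]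
    (T : H →L[ℂ] H) {x : H} (hx : x ≠ 0) :
    ∃ y : H, ‖y‖ = 1 ∧ inner ℂ x (T x) = ((‖x‖ ^ 2 : ℝ) : ℂ) * inner ℂ y (T y) := by
  have hxn : 0 < ‖x‖ := norm_pos_iff.2 hx
  set y : H := ((‖x‖ : ℂ)⁻¹) • x with hy
  have hyn : ‖y‖ = 1 := by
    rw [hy, norm_smul, norm_inv, Complex.norm_real, norm_norm, inv_mul_cancel₀ hxn.ne']
  have hxy : x = (‖x‖ : ℂ) • y := by
    rw [hy, smul_smul, mul_inv_cancel₀ (by exact_mod_cast hxn.ne'), one_smul]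
  refine ⟨y, hyn, ?_⟩
  conv_lhs => rw [hxy]
  rw [map_smul, inner_smul_left, inner_smul_right, Complex.conj_ofReal]
  push_cast
  ring

theorem numRange_dsum {T₁ : H₁ →L[ℂ] H₁} {T₂ : H₂ →L[ℂ] H₂} {C : Set ℂ} (hC : Convex ℝ C)
    (h₁ : ∀ x : H₁, ‖x‖ = 1 → inner ℂ x (T₁ x) ∈ C)
    (h₂ : ∀ x : H₂, ‖x‖ = 1 → inner ℂ x (T₂ x) ∈ C) (x : WithLp 2 (H₁ × H₂)) (hx : ‖x‖ = 1) :
    inner ℂ x (dsum T₁ T₂ x) ∈ C := by
  rw [inner_dsum]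
  have hn := WithLp.prod_norm_sq_eq_of_L2 x
  rw [hx, one_pow] at hn
  by_cases hx1 : x.fst = 0
  · have h0 : ‖x.snd‖ = 1 := by
      rw [hx1, norm_zero] at hn
      have : ‖x.snd‖ ^ 2 = 1 := by linarith
      exact (pow_eq_one_iff_of_nonneg (norm_nonneg _) two_ne_zero).1 this
    rw [hx1, map_zero, inner_zero_left, zero_add]
    exact h₂ _ h0
  by_cases hx2 : x.snd = 0
  · have h0 : ‖x.fst‖ = 1 := by
      rw [hx2, norm_zero] at hn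
      have : ‖x.fst‖ ^ 2 = 1 := by linarith
      exact (pow_eq_one_iff_of_nonneg (norm_nonneg _) two_ne_zero).1 this
    rw [hx2, map_zero, inner_zero_left, add_zero]
    exact h₁ _ h0
  obtain ⟨y₁, hy₁, e₁⟩ := inner_eq_normSq_mul T₁ hx1
  obtain ⟨y₂, hy₂, e₂⟩ := inner_eq_normSq_mul T₂ hx2
  rw [e₁, e₂]
  have := hC (h₁ y₁ hy₁) (h₂ y₂ hy₂) (sq_nonneg ‖x.fst‖) (sq_nonneg ‖x.snd‖) hn.symm
  simpa only [Complex.real_smul] using this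

theorem continuous_dsum : Continuous fun p : (H₁ →L[ℂ] H₁) × (H₂ →L[ℂ] H₂) => dsum p.1 p.2 := by
  unfold dsum
  have : Continuous fun p : (H₁ →L[ℂ] H₁) × (H₂ →L[ℂ] H₂) => p.1.prodMap p.2 := by
    have := (ContinuousLinearMap.prodMapL ℂ H₁ H₁ H₂ H₂).continuous
    exact this
  fun_prop

/-- the unit vector `(√s x₁, √t x₂)` -/
theorem exists_combination {x₁ : H₁} {x₂ : H₂} (h₁ : ‖x₁‖ = 1) (h₂ : ‖x₂‖ = 1) {s t : ℝ}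
    (hs : 0 ≤ s) (ht : 0 ≤ t) (hst : s + t = 1) : ∃ x : WithLp 2 (H₁ × H₂), ‖x‖ = 1 ∧
      ∀ (T₁ : H₁ →L[ℂ] H₁) (T₂ : H₂ →L[ℂ] H₂), inner ℂ x (dsum T₁ T₂ x) =
        (s : ℂ) * inner ℂ x₁ (T₁ x₁) + (t : ℂ) * inner ℂ x₂ (T₂ x₂) := by
  have es : (((Real.sqrt s : ℝ) : ℂ)) * (Real.sqrt s : ℝ) = s := by
    rw [← Complex.ofReal_mul, Real.mul_self_sqrt hs]
  have et : (((Real.sqrt t : ℝ) : ℂ)) * (Real.sqrt t : ℝ) = t := by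
    rw [← Complex.ofReal_mul, Real.mul_self_sqrt ht]
  refine ⟨WithLp.toLp 2 ((Real.sqrt s : ℂ) • x₁, (Real.sqrt t : ℂ) • x₂), ?_, fun T₁ T₂ => ?_⟩
  · rw [← pow_eq_one_iff_of_nonneg (norm_nonneg _) two_ne_zero, WithLp.prod_norm_sq_eq_of_L2]
    simp only [WithLp.toLp_fst, WithLp.toLp_snd, norm_smul, Complex.norm_real, Real.norm_eq_abs,
      abs_of_nonneg (Real.sqrt_nonneg _), h₁, h₂, mul_one, Real.sq_sqrt hs, Real.sq_sqrt ht, hst]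
  · rw [inner_dsum]
    simp only [WithLp.toLp_fst, WithLp.toLp_snd, map_smul, inner_smul_left, inner_smul_right,
      Complex.conj_ofReal]
    rw [← mul_assoc, ← mul_assoc, es, et]

end Pool.Agent.Lib.MP_c3d375_an
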